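import Mathlib

/-!
# One-dimensional Hausdorff measure of an injective `C¹` curve
-/

set_option autoImplicit false

open MeasureTheory Set Filter Topology
open scoped NNReal ENNReal

namespace Pool.Agent.MP85963d

section

variable {E : Type*} [NormedAddCommGroup E] [MeasurableSpace E] [BorelSpace E]

/-- upper bound -/
theorem hausdorff_image_le {γ : ℝ → E} {s t K : ℝ} (hK : 0 ≤ K)
    (h : ∀ x ∈ Ico s t, ∀ y ∈ Ico s t, ‖γ x - γ y‖ ≤ K * |x - y|) :
    μH[1] (γ '' Ico s t) ≤ ENNReal.ofReal (K * (t - s)) := by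
  have hL : LipschitzOnWith (Real.toNNReal K) γ (Ico s t) := by
    apply LipschitzOnWith.of_dist_le_mul
    intro x hx y hy
    rw [dist_eq_norm, Real.dist_eq, Real.coe_toNNReal K hK]
    exact h x hx y hy
  have h1 := hL.hausdorffMeasure_image_le (d := 1) zero_le_one
  rw [hausdorffMeasure_real, Real.volume_Ico] at h1
  simp only [ENNReal.rpow_one] at h1
  rw [ENNReal.ofReal_mul hK]
  exact h1

/-- lower bound -/
theorem le_hausdorff_image {γ : ℝ → E} {s t c : ℝ} (hc : 0 < c)
    (h : ∀ x ∈ Ico s t, ∀ y ∈ Ico s t, c * |x - y| ≤ ‖γ x - γ y‖) :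
    ENNReal.ofReal (c * (t - s)) ≤ μH[1] (γ '' Ico s t) := by
  have hinj : InjOn γ (Ico s t) := by
    intro x hx y hy hxy
    have := h x hx y hy
    rw [hxy, sub_self, norm_zero] at this
    have h2 : |x - y| ≤ 0 := by
      by_contra hn
      rw [not_le] at hn
      have := mul_pos hc hn
      linarith
    have := abs_nonpos_iff.1 h2
    linarith
  have hleft := hinj.leftInvOn_invFunOn
  have hL : LipschitzOnWith (Real.toNNReal c⁻¹) (Function.invFunOn γ (Ico s t))
      (γ '' Ico s t) := by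
    apply LipschitzOnWith.of_dist_le_mul
    rintro _ ⟨x, hx, rfl⟩ _ ⟨y, hy, rfl⟩
    rw [hleft hx, hleft hy, Real.coe_toNNReal _ (inv_nonneg.2 hc.le), Real.dist_eq,
      dist_eq_norm, inv_mul_eq_div, le_div_iff₀ hc, mul_comm]
    exact h x hx y hy
  have h1 := hL.hausdorffMeasure_image_le (d := 1) zero_le_one
  rw [hleft.image_image, hausdorffMeasure_real, Real.volume_Ico] at h1
  simp only [ENNReal.rpow_one] at h1
  have h2 : ENNReal.ofReal (c * (t - s)) = ENNReal.ofReal c * ENNReal.ofReal (t - s) :=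
    ENNReal.ofReal_mul hc.le
  rw [h2]
  calc ENNReal.ofReal c * ENNReal.ofReal (t - s)
      ≤ ENNReal.ofReal c * ((Real.toNNReal c⁻¹ : ℝ≥0∞) * μH[1] (γ '' Ico s t)) := by gcongr
    _ = μH[1] (γ '' Ico s t) := by
        rw [← mul_assoc]
        have : ENNReal.ofReal c * (Real.toNNReal c⁻¹ : ℝ≥0∞) = 1 := by
          change ENNReal.ofReal c * ENNReal.ofReal c⁻¹ = 1
          rw [← ENNReal.ofReal_mul hc.le, mul_inv_cancel₀ hc.ne', ENNReal.ofReal_one]
        rw [this, one_mul]

end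

section

variable {E : Type*} [NormedAddCommGroup E] [NormedSpace ℝ E] [MeasurableSpace E] [BorelSpace E]

/-- **Length formula**: the one-dimensional Hausdorff measure of an injective `C¹` curve. -/
theorem hausdorff_curve {γ γ' : ℝ → E} (hγ : ∀ t, HasDerivAt γ (γ' t) t)
    (hγ' : Continuous γ') {a b : ℝ} (hab : a ≤ b) (hinj : InjOn γ (Ico a b)) :
    μH[1] (γ '' Ico a b) = ENNReal.ofReal (∫ t in a..b, ‖γ' t‖) := by
  have hcont : Continuous γ := continuous_iff_continuousAt.2 fun t => (hγ t).continuousAt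
  -- a global Lipschitz bound
  obtain ⟨C, hC⟩ : ∃ C, ∀ x ∈ Icc a b, ‖γ' x‖ ≤ C :=
    (isCompact_Icc.exists_bound_of_continuousOn hγ'.continuousOn)
  have hC0 : 0 ≤ C := (norm_nonneg _).trans (hC a (left_mem_Icc.2 hab))
  have hLip : ∀ x ∈ Icc a b, ∀ y ∈ Icc a b, ‖γ x - γ y‖ ≤ C * |x - y| := by
    intro x hx y hy
    have := (convex_Icc a b).norm_image_sub_le_of_norm_hasDerivWithin_le
      (fun z _ => (hγ z).hasDerivWithinAt) hC hy hx
    simpa [Real.norm_eq_abs] using this
  set m : ℝ → ℝ := fun t => (μH[1] (γ '' Ico a t)).toReal with hm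
  have hfin : ∀ s ∈ Icc a b, ∀ t ∈ Icc a b, s ≤ t →
      μH[1] (γ '' Ico s t) ≤ ENNReal.ofReal (C * (t - s)) := by
    intro s hs t ht hst
    apply hausdorff_image_le hC0
    intro x hx y hy
    exact hLip x ⟨hs.1.trans hx.1, hx.2.le.trans ht.2⟩ y ⟨hs.1.trans hy.1, hy.2.le.trans ht.2⟩
  have hadd : ∀ s ∈ Icc a b, ∀ t ∈ Icc a b, s ≤ t →
      m t - m s = (μH[1] (γ '' Ico s t)).toReal := by
    intro s hs t ht hst
    have e1 : γ '' Ico a t = γ '' Ico a s ∪ γ '' Ico s t := by
      rw [← image_union, Ico_union_Ico_eq_Ico hs.1 hst]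
    have hdisj : Disjoint (γ '' Ico a s) (γ '' Ico s t) := by
      rw [Set.disjoint_left]
      rintro _ ⟨x, hx, rfl⟩ ⟨y, hy, hxy⟩
      have hx' : x ∈ Ico a b := ⟨hx.1, hx.2.trans_le hs.2⟩
      have hy' : y ∈ Ico a b := ⟨hs.1.trans hy.1, hy.2.trans_le ht.2⟩
      have := hinj hy' hx' hxy
      rw [this] at hy
      exact absurd hx.2 (not_lt.2 hy.1)
    have hmeas : MeasurableSet (γ '' Ico s t) := by
      apply measurableSet_Ico.image_of_continuousOn_injOn hcont.continuousOn
      exact hinj.mono (Ico_subset_Ico hs.1 ht.2)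
    have e2 : μH[1] (γ '' Ico a t) = μH[1] (γ '' Ico a s) + μH[1] (γ '' Ico s t) := by
      rw [e1, measure_union hdisj hmeas]
    simp only [hm]
    rw [e2, ENNReal.toReal_add]
    · ring
    · exact ne_top_of_le_ne_top ENNReal.ofReal_ne_top
        (hfin a (left_mem_Icc.2 hab) s hs hs.1)
    · exact ne_top_of_le_ne_top ENNReal.ofReal_ne_top (hfin s hs t ht hst)
  have hma : m a = 0 := by simp [hm]
  have hmc : ContinuousOn m (uIcc a b) := by
    rw [uIcc_of_le hab]
    have hL : LipschitzOnWith (Real.toNNReal C) m (Icc a b) := by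
      apply LipschitzOnWith.of_dist_le_mul
      have key : ∀ s ∈ Icc a b, ∀ t ∈ Icc a b, s ≤ t → |m t - m s| ≤ C * (t - s) := by
        intro s hs t ht hst
        rw [hadd s hs t ht hst, abs_of_nonneg ENNReal.toReal_nonneg]
        have := ENNReal.toReal_mono ENNReal.ofReal_ne_top (hfin s hs t ht hst)
        rwa [ENNReal.toReal_ofReal (mul_nonneg hC0 (by linarith))] at this
      intro x hx y hy
      rw [Real.dist_eq, Real.dist_eq, Real.coe_toNNReal C hC0]
      rcases le_total x y with h | h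
      · rw [abs_sub_comm, abs_sub_comm x y, abs_of_nonneg (sub_nonneg.2 h)]
        exact key x hx y hy h
      · rw [abs_of_nonneg (sub_nonneg.2 h)]
        exact key y hy x hx h
    exact hL.continuousOn
  have hmd : ∀ x ∈ Ioo (min a b) (max a b), HasDerivWithinAt m ‖γ' x‖ (Ioi x) x := by
    rw [min_eq_left hab, max_eq_right hab]
    intro t ht
    rw [hasDerivWithinAt_iff_isLittleO, Asymptotics.isLittleO_iff]
    intro ε hε
    have hs : HasStrictDerivAt γ (γ' t) t :=
      hasStrictDerivAt_of_hasDerivAt_of_continuousAt (Eventually.of_forall hγ)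
        hγ'.continuousAt
    have h1 := (hasStrictFDerivAt_iff_isLittleO.1 hs.hasStrictFDerivAt).def hε
    obtain ⟨δ, hδ, hball⟩ : ∃ δ > 0, ∀ x, |x - t| < δ → ∀ y, |y - t| < δ →
        ‖γ x - γ y - (x - y) • γ' t‖ ≤ ε * ‖x - y‖ := by
      have h2 : {p : ℝ × ℝ | ‖γ p.1 - γ p.2 - (p.1 - p.2) • γ' t‖ ≤ ε * ‖p.1 - p.2‖}
          ∈ 𝓝 (t, t) := by
        filter_upwards [h1] with p hp
        simpa using hp
      rw [Metric.mem_nhds_iff] at h2
      obtain ⟨δ, hδ, hb⟩ := h2
      refine ⟨δ, hδ, fun x hx y hy => ?_⟩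
      have : (x, y) ∈ Metric.ball (t, t) δ := by
        rw [Metric.mem_ball, Prod.dist_eq, max_lt_iff]
        exact ⟨by simpa [Real.dist_eq] using hx, by simpa [Real.dist_eq] using hy⟩
      exact hb this
    have h3 : ∀ᶠ s in 𝓝[>] t, s ∈ Ioo t (min b (t + δ)) :=
      Ioo_mem_nhdsGT (lt_min ht.2 (by linarith))
    filter_upwards [h3] with s hs
    have hs1 : t < s := hs.1
    have hs2 : s < b := hs.2.trans_le (min_le_left _ _)
    have hs3 : s < t + δ := hs.2.trans_le (min_le_right _ _)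
    rw [hadd t ⟨ht.1.le, ht.2.le⟩ s ⟨ht.1.le.trans hs1.le, hs2.le⟩ hs1.le]
    have hin : ∀ x ∈ Ico t s, |x - t| < δ := by
      intro x hx
      rw [abs_of_nonneg (sub_nonneg.2 hx.1)]
      linarith [hx.2]
    have up : μH[1] (γ '' Ico t s) ≤ ENNReal.ofReal ((‖γ' t‖ + ε) * (s - t)) := by
      apply hausdorff_image_le (by positivity)
      intro x hx y hy
      have := hball x (hin x hx) y (hin y hy)
      calc ‖γ x - γ y‖ = ‖(γ x - γ y - (x - y) • γ' t) + (x - y) • γ' t‖ := by simp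
        _ ≤ ‖γ x - γ y - (x - y) • γ' t‖ + ‖(x - y) • γ' t‖ := norm_add_le _ _
        _ ≤ ε * ‖x - y‖ + ‖x - y‖ * ‖γ' t‖ := by rw [norm_smul]; gcongr
        _ = (‖γ' t‖ + ε) * |x - y| := by rw [Real.norm_eq_abs]; ring
    have upr : (μH[1] (γ '' Ico t s)).toReal ≤ (‖γ' t‖ + ε) * (s - t) := by
      have := ENNReal.toReal_mono ENNReal.ofReal_ne_top up
      rwa [ENNReal.toReal_ofReal (mul_nonneg (by positivity) (by linarith))] at this
    have lor : (‖γ' t‖ - ε) * (s - t) ≤ (μH[1] (γ '' Ico t s)).toReal := by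
      by_cases hpos : 0 < ‖γ' t‖ - ε
      · have lo : ENNReal.ofReal ((‖γ' t‖ - ε) * (s - t)) ≤ μH[1] (γ '' Ico t s) := by
          apply le_hausdorff_image hpos
          intro x hx y hy
          have h5 := hball x (hin x hx) y (hin y hy)
          have h6 : ‖(x - y) • γ' t‖ ≤ ‖γ x - γ y‖ + ‖γ x - γ y - (x - y) • γ' t‖ := by
            have := norm_sub_le (γ x - γ y) (γ x - γ y - (x - y) • γ' t)
            rwa [sub_sub_cancel] at this
          rw [norm_smul] at h6
          rw [Real.norm_eq_abs] at h5 h6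
          nlinarith
        have hfin' : μH[1] (γ '' Ico t s) ≠ ∞ :=
          ne_top_of_le_ne_top ENNReal.ofReal_ne_top up
        have := ENNReal.toReal_mono hfin' lo
        rwa [ENNReal.toReal_ofReal (mul_nonneg hpos.le (by linarith))] at this
      · rw [not_lt] at hpos
        exact (mul_nonpos_of_nonpos_of_nonneg hpos (by linarith)).trans ENNReal.toReal_nonneg
    rw [Real.norm_eq_abs, Real.norm_eq_abs, abs_of_pos (by linarith : 0 < s - t), abs_le,
      smul_eq_mul]
    constructor <;> nlinarith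
  have hI := intervalIntegral.integral_eq_sub_of_hasDeriv_right hmc hmd
    (hγ'.norm.intervalIntegrable _ _)
  rw [hI, hma, sub_zero, hm]
  have : μH[1] (γ '' Ico a b) ≠ ∞ := ne_top_of_le_ne_top ENNReal.ofReal_ne_top
    (hfin a (left_mem_Icc.2 hab) b (right_mem_Icc.2 hab) hab)
  exact (ENNReal.ofReal_toReal this).symm

end

end Pool.Agent.MP85963d
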