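import Mathlib

/-!
# A sharp Wirtinger inequality for antiperiodic functions

If `h : ℝ → ℝ` is continuously differentiable and `h (t + π) = - h t` then
`∫₀^π h² ≤ ∫₀^π h'²`.
-/

set_option autoImplicit false

open MeasureTheory Set Filter Topology
open scoped Real

namespace Pool.Agent.MP85963d

/-- Dirichlet form of the inequality: `h 0 = 0` and `h π = 0`. -/
theorem wirtinger_dirichlet (h h' : ℝ → ℝ) (hd : ∀ t, HasDerivAt h (h' t) t)
    (hc : Continuous h') (h0 : h 0 = 0) (hpi : h π = 0) :
    ∫ t in (0:ℝ)..π, h t ^ 2 ≤ ∫ t in (0:ℝ)..π, h' t ^ 2 := by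
  have hcont : Continuous h := continuous_iff_continuousAt.2 fun t => (hd t).continuousAt
  -- Lipschitz bound on `[0, π]`
  obtain ⟨C, hC⟩ : ∃ C, ∀ t ∈ Icc (0:ℝ) π, |h' t| ≤ C := by
    obtain ⟨C, hC⟩ := isCompact_Icc.exists_bound_of_continuousOn (f := h') (s := Icc (0:ℝ) π)
      hc.continuousOn
    exact ⟨C, fun t ht => by simpa using hC t ht⟩
  have hC0 : 0 ≤ C := (abs_nonneg _).trans (hC 0 ⟨le_rfl, Real.pi_pos.le⟩)
  have hlip : ∀ s ∈ Icc (0:ℝ) π, ∀ t ∈ Icc (0:ℝ) π, |h t - h s| ≤ C * |t - s| := by
    intro s hs t ht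
    have := (convex_Icc (0:ℝ) π).norm_image_sub_le_of_norm_hasDerivWithin_le
      (f := h) (f' := h') (C := C) (fun x _ => (hd x).hasDerivWithinAt)
      (fun x hx => by simpa using hC x hx) hs ht
    simpa using this
  -- the function `B t = h t ^ 2 * cot t`
  let B : ℝ → ℝ := fun t => h t ^ 2 * (Real.cos t / Real.sin t)
  have hB0 : B 0 = 0 := by simp [B, h0]
  have hBpi : B π = 0 := by simp [B, hpi]
  have hsin_ne : ∀ t ∈ Ioo (0:ℝ) π, Real.sin t ≠ 0 := fun t ht =>
    (Real.sin_pos_of_pos_of_lt_pi ht.1 ht.2).ne'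
  have hBcont : ContinuousOn B (Icc 0 π) := by
    intro t ht
    rcases eq_or_lt_of_le ht.1 with h1 | h1
    · -- `t = 0`
      subst h1
      rw [ContinuousWithinAt, hB0]
      -- |B t| ≤ C^2 * t^2 * (1/sin t) ≤ C^2 * t * (π/2) near 0
      have hbound : ∀ᶠ t in 𝓝[Icc 0 π] (0:ℝ), |B t| ≤ C ^ 2 * (π / 2) * |t| := by
        have : ∀ᶠ t in 𝓝[Icc 0 π] (0:ℝ), t ∈ Icc (0:ℝ) (π / 2) := by
          have h2 : Iio (π / 2) ∈ 𝓝 (0:ℝ) := Iio_mem_nhds (by positivity)
          filter_upwards [self_mem_nhdsWithin, mem_nhdsWithin_of_mem_nhds h2] with t ht ht2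
          exact ⟨ht.1, le_of_lt ht2⟩
        filter_upwards [this] with t ht
        rcases eq_or_lt_of_le ht.1 with h3 | h3
        · subst h3; simp [hB0]
        · have hs : 2 / π * t ≤ Real.sin t := Real.mul_le_sin ht.1 ht.2
          have hspos : 0 < Real.sin t := lt_of_lt_of_le (by positivity) hs
          have hh : |h t| ≤ C * t := by
            have := hlip 0 ⟨le_rfl, Real.pi_pos.le⟩ t ⟨ht.1, by linarith [ht.2, Real.pi_pos]⟩
            simpa [h0, abs_of_pos h3] using this
          have e1 : |B t| = |h t| ^ 2 * (|Real.cos t| / Real.sin t) := by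
            simp [B, abs_mul, abs_div, abs_of_pos hspos]
          rw [e1, abs_of_pos h3]
          have e2 : |Real.cos t| / Real.sin t ≤ 1 / (2 / π * t) := by
            apply div_le_div₀ zero_le_one (Real.abs_cos_le_one t) (by positivity) hs
          have e3 : |h t| ^ 2 ≤ (C * t) ^ 2 := by
            exact pow_le_pow_left₀ (abs_nonneg _) hh 2
          calc |h t| ^ 2 * (|Real.cos t| / Real.sin t) ≤ (C * t) ^ 2 * (1 / (2 / π * t)) := by
                apply mul_le_mul e3 e2 (by positivity) (by positivity)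
            _ = C ^ 2 * (π / 2) * t := by
                field_simp
      have hlim : Tendsto (fun t : ℝ => C ^ 2 * (π / 2) * |t|) (𝓝[Icc 0 π] (0:ℝ)) (𝓝 0) := by
        have : Tendsto (fun t : ℝ => C ^ 2 * (π / 2) * |t|) (𝓝 (0:ℝ)) (𝓝 (C ^ 2 * (π / 2) * |0|)) := by
          exact (continuous_const.mul continuous_abs).tendsto 0
        simpa using this.mono_left nhdsWithin_le_nhds
      exact squeeze_zero_norm' (by simpa using hbound) hlim
    · rcases eq_or_lt_of_le ht.2 with h2 | h2
      · -- `t = π`
        subst h2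
        rw [ContinuousWithinAt, hBpi]
        have hbound : ∀ᶠ t in 𝓝[Icc 0 π] (π:ℝ), |B t| ≤ C ^ 2 * (π / 2) * |π - t| := by
          have : ∀ᶠ t in 𝓝[Icc 0 π] (π:ℝ), t ∈ Icc (π / 2) π := by
            have h2 : Ioi (π / 2) ∈ 𝓝 (π:ℝ) := Ioi_mem_nhds (by linarith [Real.pi_pos])
            filter_upwards [self_mem_nhdsWithin, mem_nhdsWithin_of_mem_nhds h2] with t ht ht2
            exact ⟨le_of_lt ht2, ht.2⟩
          filter_upwards [this] with t ht
          rcases eq_or_lt_of_le ht.2 with h3 | h3
          · subst h3; simp [hBpi]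
          · have hs : 2 / π * (π - t) ≤ Real.sin (π - t) :=
              Real.mul_le_sin (by linarith) (by linarith [ht.1])
            rw [Real.sin_pi_sub] at hs
            have hpt : 0 < π - t := by linarith
            have hspos : 0 < Real.sin t := lt_of_lt_of_le (by positivity) hs
            have hh : |h t| ≤ C * (π - t) := by
              have := hlip π ⟨Real.pi_pos.le, le_rfl⟩ t ⟨by linarith [ht.1, Real.pi_pos], ht.2⟩
              rw [hpi, sub_zero, abs_sub_comm, abs_of_pos hpt] at this
              exact this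
            have e1 : |B t| = |h t| ^ 2 * (|Real.cos t| / Real.sin t) := by
              simp [B, abs_mul, abs_div, abs_of_pos hspos]
            rw [e1, abs_of_pos hpt]
            have e2 : |Real.cos t| / Real.sin t ≤ 1 / (2 / π * (π - t)) := by
              apply div_le_div₀ zero_le_one (Real.abs_cos_le_one t) (by positivity) hs
            have e3 : |h t| ^ 2 ≤ (C * (π - t)) ^ 2 := by
              exact pow_le_pow_left₀ (abs_nonneg _) hh 2
            calc |h t| ^ 2 * (|Real.cos t| / Real.sin t)
                ≤ (C * (π - t)) ^ 2 * (1 / (2 / π * (π - t))) := by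
                  apply mul_le_mul e3 e2 (by positivity) (by positivity)
              _ = C ^ 2 * (π / 2) * (π - t) := by
                  field_simp
        have hlim : Tendsto (fun t : ℝ => C ^ 2 * (π / 2) * |π - t|) (𝓝[Icc 0 π] (π:ℝ)) (𝓝 0) := by
          have : Tendsto (fun t : ℝ => C ^ 2 * (π / 2) * |π - t|) (𝓝 (π:ℝ))
              (𝓝 (C ^ 2 * (π / 2) * |π - π|)) := by
            exact (continuous_const.mul (continuous_abs.comp (continuous_const.sub continuous_id))).tendsto π
          simpa using this.mono_left nhdsWithin_le_nhds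
        exact squeeze_zero_norm' (by simpa using hbound) hlim
      · apply ContinuousAt.continuousWithinAt
        apply ContinuousAt.mul (hcont.continuousAt.pow 2)
        exact Real.continuous_cos.continuousAt.div Real.continuous_sin.continuousAt
          (hsin_ne t ⟨h1, h2⟩)
  have hBd : ∀ t ∈ Ioo (0:ℝ) π, HasDerivWithinAt B
      (2 * h t * h' t * (Real.cos t / Real.sin t) - h t ^ 2 / Real.sin t ^ 2) (Ioi t) t := by
    intro t ht
    have hs := hsin_ne t ht
    have d1 : HasDerivAt (fun t => h t ^ 2) (2 * h t * h' t) t := by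
      have := (hd t).fun_pow 2
      simpa [mul_assoc] using this
    have d2 : HasDerivAt (fun t => Real.cos t / Real.sin t) (-(1 / Real.sin t ^ 2)) t := by
      have := (Real.hasDerivAt_cos t).div (Real.hasDerivAt_sin t) hs
      convert! this using 1
      have := Real.sin_sq_add_cos_sq t
      field_simp
      nlinarith
    have d3 := d1.mul d2
    refine HasDerivAt.hasDerivWithinAt ?_
    convert! d3 using 1
    ring
  have hint : IntegrableOn (fun t => h' t ^ 2 - h t ^ 2) (Icc 0 π) volume :=
    (((hc.pow 2).sub (hcont.pow 2)).continuousOn).integrableOn_Icc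
  have key := intervalIntegral.sub_le_integral_of_hasDeriv_right_of_le (a := 0) (b := π)
    Real.pi_pos.le hBcont hBd hint (fun t ht => by
      have hs := hsin_ne t ht
      have h1 := Real.sin_sq_add_cos_sq t
      have : h' t ^ 2 - h t ^ 2 - (2 * h t * h' t * (Real.cos t / Real.sin t)
          - h t ^ 2 / Real.sin t ^ 2) = (h' t - h t * (Real.cos t / Real.sin t)) ^ 2 := by
        have hc2 : Real.cos t ^ 2 = 1 - Real.sin t ^ 2 := by linarith
        field_simp
        ring_nf
        rw [hc2]
        ring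
      have h2 := sq_nonneg (h' t - h t * (Real.cos t / Real.sin t))
      linarith)
  rw [hB0, hBpi, sub_zero] at key
  have e := intervalIntegral.integral_sub (μ := volume) (a := 0) (b := π)
    (f := fun t => h' t ^ 2) (g := fun t => h t ^ 2) ((hc.pow 2).intervalIntegrable _ _)
    ((hcont.pow 2).intervalIntegrable _ _)
  rw [e] at key
  linarith

/-- **Wirtinger's inequality** for `π`-antiperiodic functions. -/
theorem wirtinger_antiperiodic (h h' : ℝ → ℝ) (hd : ∀ t, HasDerivAt h (h' t) t)
    (hc : Continuous h') (hanti : ∀ t, h (t + π) = - h t) :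
    ∫ t in (0:ℝ)..π, h t ^ 2 ≤ ∫ t in (0:ℝ)..π, h' t ^ 2 := by
  have hcont : Continuous h := continuous_iff_continuousAt.2 fun t => (hd t).continuousAt
  have hanti' : ∀ t, h' (t + π) = - h' t := by
    intro t
    have h1 : HasDerivAt (fun t => h (t + π)) (h' (t + π)) t := by
      simpa using (hd (t + π)).comp_add_const t π
    have h2 : HasDerivAt (fun t => h (t + π)) (- h' t) t := by
      have : (fun t => h (t + π)) = fun t => - h t := funext hanti
      rw [this]
      exact (hd t).neg
    exact h1.unique h2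
  obtain ⟨t₀, ht₀, hz⟩ : ∃ t₀ ∈ uIcc (0:ℝ) π, h t₀ = 0 := by
    have hsub := intermediate_value_uIcc (a := (0:ℝ)) (b := π) (f := h) hcont.continuousOn
    have hpi : h π = - h 0 := by simpa using hanti 0
    have : (0:ℝ) ∈ uIcc (h 0) (h π) := by
      rw [hpi]
      rcases le_total 0 (h 0) with h1 | h1
      · rw [uIcc_of_ge (by linarith)]; constructor <;> linarith
      · rw [uIcc_of_le (by linarith)]; constructor <;> linarith
    obtain ⟨t₀, h1, h2⟩ := hsub this
    exact ⟨t₀, h1, h2⟩
  have p1 : Function.Periodic (fun t => h t ^ 2) π := fun t => by simp [hanti]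
  have p2 : Function.Periodic (fun t => h' t ^ 2) π := fun t => by simp [hanti']
  have key := wirtinger_dirichlet (fun t => h (t + t₀)) (fun t => h' (t + t₀))
    (fun t => by simpa using (hd (t + t₀)).comp_add_const t t₀)
    (hc.comp (continuous_id.add continuous_const)) (by simpa using hz)
    (by rw [add_comm, hanti, hz, neg_zero])
  have e1 : ∫ t in (0:ℝ)..π, h (t + t₀) ^ 2 = ∫ t in (0:ℝ)..π, h t ^ 2 := by
    rw [intervalIntegral.integral_comp_add_right (fun t => h t ^ 2)]
    have := p1.intervalIntegral_add_eq t₀ 0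
    simpa [add_comm] using this
  have e2 : ∫ t in (0:ℝ)..π, h' (t + t₀) ^ 2 = ∫ t in (0:ℝ)..π, h' t ^ 2 := by
    rw [intervalIntegral.integral_comp_add_right (fun t => h' t ^ 2)]
    have := p2.intervalIntegral_add_eq t₀ 0
    simpa [add_comm] using this
  rw [e1, e2] at key
  exact key

end Pool.Agent.MP85963d
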