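import Mathlib
import Pool.Agent.Lib.MP_85963d_gt.Wirtinger

/-!
# Right rotations on the quaternions

We use the quaternions (minus the origin) as a model of the group of rotations.  Right
multiplication by unit quaternions preserves Lebesgue measure; its infinitesimal generators
satisfy the `so(3)` commutation relations.  We prove the integral identity of Pestov and
Mukhometov type that is used for the injectivity of weighted great circle transforms.
-/

set_option autoImplicit false

open MeasureTheory Set Filter Topology Quaternion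
open scoped Real

namespace Pool.Agent.MP85963d

noncomputable scoped instance instMeasurableSpaceQuat : MeasurableSpace ℍ := borel ℍ
scoped instance instBorelSpaceQuat : BorelSpace ℍ := ⟨rfl⟩

/-- imaginary units -/
def qI : ℍ := ⟨0, 1, 0, 0⟩
def qJ : ℍ := ⟨0, 0, 1, 0⟩
def qK : ℍ := ⟨0, 0, 0, 1⟩

/-- `a` is an imaginary unit. -/
structure IsImUnit (a : ℍ) : Prop where
  sq : a * a = -1
  star_eq : star a = -a

theorem isImUnit_I : IsImUnit qI where
  sq := by
    apply Quaternion.ext <;> simp [Quaternion.re_mul, Quaternion.imI_mul, Quaternion.imJ_mul,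
      Quaternion.imK_mul] <;> simp [qI]
  star_eq := by
    apply Quaternion.ext <;> simp [Quaternion.re_star]; simp [qI]
theorem isImUnit_J : IsImUnit qJ where
  sq := by
    apply Quaternion.ext <;> simp [Quaternion.re_mul, Quaternion.imI_mul, Quaternion.imJ_mul,
      Quaternion.imK_mul] <;> simp [qJ]
  star_eq := by
    apply Quaternion.ext <;> simp [Quaternion.re_star]; simp [qJ]
theorem isImUnit_K : IsImUnit qK where
  sq := by
    apply Quaternion.ext <;> simp [Quaternion.re_mul, Quaternion.imI_mul, Quaternion.imJ_mul,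
      Quaternion.imK_mul] <;> simp [qK]
  star_eq := by
    apply Quaternion.ext <;> simp [Quaternion.re_star]; simp [qK]
theorem IsImUnit.neg {a : ℍ} (h : IsImUnit a) : IsImUnit (-a) :=
  ⟨by simpa using h.sq, by simp [h.star_eq]⟩

theorem qI_mul_qJ : qI * qJ = qK := by
  apply Quaternion.ext <;> simp [Quaternion.re_mul, Quaternion.imI_mul, Quaternion.imJ_mul,
      Quaternion.imK_mul] <;> simp [qI, qJ, qK]
theorem qJ_mul_qI : qJ * qI = -qK := by
  apply Quaternion.ext <;> simp [Quaternion.re_mul, Quaternion.imI_mul, Quaternion.imJ_mul,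
      Quaternion.imK_mul] <;> simp [qI, qJ, qK]
theorem qJ_mul_qK : qJ * qK = qI := by
  apply Quaternion.ext <;> simp [Quaternion.re_mul, Quaternion.imI_mul, Quaternion.imJ_mul,
      Quaternion.imK_mul] <;> simp [qI, qJ, qK]
theorem qK_mul_qJ : qK * qJ = -qI := by
  apply Quaternion.ext <;> simp [Quaternion.re_mul, Quaternion.imI_mul, Quaternion.imJ_mul,
      Quaternion.imK_mul] <;> simp [qI, qJ, qK]
theorem qK_mul_qI : qK * qI = qJ := by
  apply Quaternion.ext <;> simp [Quaternion.re_mul, Quaternion.imI_mul, Quaternion.imJ_mul,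
      Quaternion.imK_mul] <;> simp [qI, qJ, qK]
theorem qI_mul_qK : qI * qK = -qJ := by
  apply Quaternion.ext <;> simp [Quaternion.re_mul, Quaternion.imI_mul, Quaternion.imJ_mul,
      Quaternion.imK_mul] <;> simp [qI, qJ, qK]

/-- rotation by the angle `t` (double cover: half angle) about `a` -/
noncomputable def rot (a : ℍ) (t : ℝ) : ℍ := Real.cos (t / 2) • (1 : ℍ) + Real.sin (t / 2) • a

theorem rot_zero (a : ℍ) : rot a 0 = 1 := by simp [rot]

theorem rot_pi (a : ℍ) : rot a π = a := by simp [rot]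

theorem rot_mul_comm (a : ℍ) (t : ℝ) : a * rot a t = rot a t * a := by
  simp only [rot, mul_add, add_mul, mul_smul_comm, smul_mul_assoc, mul_one, one_mul]

theorem rot_add {a : ℍ} (h : IsImUnit a) (s t : ℝ) : rot a (s + t) = rot a s * rot a t := by
  have e : (s + t) / 2 = s / 2 + t / 2 := by ring
  simp only [rot, e, Real.cos_add, Real.sin_add]
  simp only [add_mul, mul_add, smul_mul_smul_comm, one_mul, mul_one, h.sq]
  module

theorem norm_rot {a : ℍ} (h : IsImUnit a) (t : ℝ) : ‖rot a t‖ = 1 := by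
  have h0 : star (rot a t) = Real.cos (t / 2) • (1 : ℍ) - Real.sin (t / 2) • a := by
    simp only [rot, star_add, Quaternion.star_smul, h.star_eq, star_one, smul_neg, sub_eq_add_neg]
  have h1 : rot a t * star (rot a t) = 1 := by
    rw [h0]
    simp only [rot, add_mul, mul_sub, smul_mul_smul_comm, one_mul, mul_one, h.sq]
    have e2 : Real.cos (t/2) * Real.cos (t/2) + Real.sin (t/2) * Real.sin (t/2) = 1 := by
      have := Real.sin_sq_add_cos_sq (t/2); nlinarith
    calc _ = (Real.cos (t/2) * Real.cos (t/2) + Real.sin (t/2) * Real.sin (t/2)) • (1:ℍ) := by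
          module
      _ = 1 := by rw [e2, one_smul]
  have h2 : ‖rot a t‖ * ‖rot a t‖ = 1 := by
    calc ‖rot a t‖ * ‖rot a t‖ = ‖rot a t‖ * ‖star (rot a t)‖ := by rw [Quaternion.norm_star]
      _ = ‖rot a t * star (rot a t)‖ := (norm_mul _ _).symm
      _ = 1 := by rw [h1, norm_one]
  nlinarith [norm_nonneg (rot a t)]

theorem IsImUnit.norm_eq {a : ℍ} (h : IsImUnit a) : ‖a‖ = 1 := by
  have := norm_rot h π
  rwa [rot_pi] at this

theorem hasDerivAt_rot {a : ℍ} (h : IsImUnit a) (t : ℝ) :
    HasDerivAt (rot a) (rot a t * ((1 / 2 : ℝ) • a)) t := by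
  have h0 : HasDerivAt (fun t : ℝ => t / 2) (1 / 2) t := (hasDerivAt_id t).div_const 2
  have h1' : HasDerivAt (fun t : ℝ => Real.cos (t / 2) • (1 : ℍ))
      ((-Real.sin (t / 2) * (1 / 2)) • (1 : ℍ)) t := (h0.cos).smul_const 1
  have h2' : HasDerivAt (fun t : ℝ => Real.sin (t / 2) • a)
      ((Real.cos (t / 2) * (1 / 2)) • a) t := (h0.sin).smul_const a
  have h3 := h1'.add h2'
  have e : (rot a) = (fun t : ℝ => Real.cos (t / 2) • (1 : ℍ)) + fun t => Real.sin (t / 2) • a := by
    funext t
    simp only [rot, Pi.add_apply]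
  rw [e]
  convert! h3 using 1
  simp only [Pi.add_apply, add_mul, smul_mul_smul_comm, one_mul, h.sq]
  module

theorem continuous_rot (a : ℍ) : Continuous (rot a) := by
  unfold rot
  fun_prop

/-- right multiplication by a unit quaternion -/
noncomputable def rmul (ρ : ℍ) (h : ‖ρ‖ = 1) : ℍ ≃ₗᵢ[ℝ] ℍ where
  toFun x := x * ρ
  invFun x := x * ρ⁻¹
  map_add' x y := add_mul _ _ _
  map_smul' r x := smul_mul_assoc _ _ _
  left_inv x := by
    have : ρ ≠ 0 := fun h0 => by simp [h0] at h
    simp [this]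
  right_inv x := by
    have : ρ ≠ 0 := fun h0 => by simp [h0] at h
    simp [this]
  norm_map' x := by
    change ‖x * ρ‖ = ‖x‖
    rw [norm_mul, h, mul_one]

@[simp] theorem rmul_apply (ρ : ℍ) (h : ‖ρ‖ = 1) (x : ℍ) : rmul ρ h x = x * ρ := rfl

/-- the spherical shell -/
def shell : Set ℍ := {x | 1 ≤ ‖x‖ ∧ ‖x‖ ≤ 2}

theorem isCompact_shell : IsCompact shell := by
  have h1 : shell ⊆ Metric.closedBall 0 2 := fun x hx => by simpa using hx.2
  have h2 : IsClosed shell :=
    (isClosed_le continuous_const continuous_norm).inter (isClosed_le continuous_norm continuous_const)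
  exact (isCompact_closedBall (0:ℍ) 2).of_isClosed_subset h2 h1

theorem measurableSet_shell : MeasurableSet shell := isCompact_shell.isClosed.measurableSet

theorem ne_zero_of_mem_shell {x : ℍ} (hx : x ∈ shell) : x ≠ 0 := by
  rintro rfl
  have := hx.1
  norm_num at this

theorem shell_subset : shell ⊆ {0}ᶜ := fun _ hx => ne_zero_of_mem_shell hx

theorem mul_mem_shell {ρ : ℍ} (h : ‖ρ‖ = 1) {x : ℍ} : x * ρ ∈ shell ↔ x ∈ shell := by
  simp [shell, norm_mul, h]

/-- invariance of integrals over the shell under right multiplication -/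
theorem integral_shell_mul {ρ : ℍ} (h : ‖ρ‖ = 1) (f : ℍ → ℝ) :
    ∫ x in shell, f (x * ρ) = ∫ x in shell, f x := by
  have h1 := (rmul ρ h).measurePreserving
  have h2 := h1.setIntegral_preimage_emb (rmul ρ h).toMeasurableEquiv.measurableEmbedding f shell
  have h3 : (rmul ρ h) ⁻¹' shell = shell := by
    ext x; simp [mul_mem_shell h]
  rw [h3] at h2
  simpa using h2

/-- The derivative of `c` along the right-invariant (generator of right multiplication) field. -/
noncomputable def L (a : ℍ) (c : ℍ → ℝ) (x : ℍ) : ℝ := fderiv ℝ c x (x * a)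

theorem isOpen_ne : IsOpen ({0}ᶜ : Set ℍ) := isOpen_compl_singleton

theorem L_continuousOn (a : ℍ) {c : ℍ → ℝ} (hc : ContDiffOn ℝ 1 c {0}ᶜ) :
    ContinuousOn (L a c) {0}ᶜ := by
  have h1 : ContinuousOn (fderiv ℝ c) {0}ᶜ := hc.continuousOn_fderiv_of_isOpen isOpen_ne le_rfl
  exact h1.clm_apply (by fun_prop)

theorem L_contDiffOn (a : ℍ) {c : ℍ → ℝ} (hc : ContDiffOn ℝ 2 c {0}ᶜ) :
    ContDiffOn ℝ 1 (L a c) {0}ᶜ := by
  have h1 : ContDiffOn ℝ 1 (fderiv ℝ c) {0}ᶜ := hc.fderiv_of_isOpen isOpen_ne (by norm_num)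
  exact h1.clm_apply (by fun_prop)

theorem hasDerivAt_flow {a : ℍ} (h : IsImUnit a) {c : ℍ → ℝ} (hc : ContDiffOn ℝ 1 c {0}ᶜ)
    {x : ℍ} (hx : x ≠ 0) (t : ℝ) :
    HasDerivAt (fun t => c (x * rot a t)) (L ((1 / 2 : ℝ) • a) c (x * rot a t)) t := by
  have hne : x * rot a t ≠ 0 := by
    apply mul_ne_zero hx
    intro h0
    have := norm_rot h t
    simp [h0] at this
  have h1 : HasFDerivAt c (fderiv ℝ c (x * rot a t)) (x * rot a t) :=
    ((hc.differentiableOn (by norm_num)).differentiableAt (isOpen_ne.mem_nhds hne)).hasFDerivAt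
  have h2 : HasDerivAt (fun t => x * rot a t) (x * (rot a t * ((1 / 2 : ℝ) • a))) t :=
    (hasDerivAt_rot h t).const_mul x
  have h3 := h1.comp_hasDerivAt t h2
  rw [← mul_assoc] at h3
  exact h3

/-- Integrals over the shell of derivatives along right rotations vanish. -/
theorem integral_L_eq_zero {a : ℍ} (h : IsImUnit a) {c : ℍ → ℝ} (hc : ContDiffOn ℝ 1 c {0}ᶜ) :
    ∫ x in shell, L ((1 / 2 : ℝ) • a) c x = 0 := by
  have hcL := L_continuousOn ((1 / 2 : ℝ) • a) hc
  obtain ⟨M, hM⟩ := isCompact_shell.exists_bound_of_continuousOn (hcL.mono shell_subset)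
  have hfin : IsFiniteMeasure (volume.restrict shell) :=
    ⟨by simpa using isCompact_shell.measure_lt_top⟩
  have hcont : ∀ t, ContinuousOn (fun x => c (x * rot a t)) shell := by
    intro t
    apply hc.continuousOn.comp (by fun_prop)
    intro x hx
    exact shell_subset ((mul_mem_shell (norm_rot h t)).2 hx)
  have hcont' : ContinuousOn (fun x => L ((1 / 2 : ℝ) • a) c (x * rot a 0)) shell := by
    apply hcL.comp (by fun_prop)
    intro x hx
    exact shell_subset ((mul_mem_shell (norm_rot h 0)).2 hx)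
  have key := hasDerivAt_integral_of_dominated_loc_of_deriv_le
    (μ := volume.restrict shell) (F := fun t x => c (x * rot a t))
    (F' := fun t x => L ((1 / 2 : ℝ) • a) c (x * rot a t)) (x₀ := (0:ℝ)) (s := univ)
    (bound := fun _ => M) Filter.univ_mem
    (Eventually.of_forall fun t => (hcont t).aestronglyMeasurable measurableSet_shell)
    ((hcont 0).integrableOn_compact isCompact_shell)
    (hcont'.aestronglyMeasurable measurableSet_shell)
    (by
      rw [ae_restrict_iff' measurableSet_shell]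
      refine Eventually.of_forall fun x hx t _ => hM _ ?_
      exact (mul_mem_shell (norm_rot h t)).2 hx)
    (integrable_const M)
    (by
      rw [ae_restrict_iff' measurableSet_shell]
      exact Eventually.of_forall fun x hx t _ => hasDerivAt_flow h hc (ne_zero_of_mem_shell hx) t)
  have hconst : (fun t => ∫ x in shell, c (x * rot a t)) = fun _ => ∫ x in shell, c x := by
    funext t
    exact integral_shell_mul (norm_rot h t) c
  have h2 := key.2
  rw [hconst] at h2
  have h3 := h2.unique (hasDerivAt_const 0 _)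
  simpa [rot_zero] using h3

/-- Integration by parts on the shell. -/
theorem integral_L_mul {a : ℍ} (h : IsImUnit a) {A B : ℍ → ℝ} (hA : ContDiffOn ℝ 1 A {0}ᶜ)
    (hB : ContDiffOn ℝ 1 B {0}ᶜ) :
    ∫ x in shell, L ((1 / 2 : ℝ) • a) A x * B x
      = - ∫ x in shell, A x * L ((1 / 2 : ℝ) • a) B x := by
  have h1 := integral_L_eq_zero h (hA.mul hB)
  have h2 : ∀ x ∈ shell, L ((1 / 2 : ℝ) • a) (fun x => A x * B x) x
      = L ((1 / 2 : ℝ) • a) A x * B x + A x * L ((1 / 2 : ℝ) • a) B x := by
    intro x hx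
    have hne := ne_zero_of_mem_shell hx
    have dA : DifferentiableAt ℝ A x :=
      (hA.differentiableOn (by norm_num)).differentiableAt (isOpen_ne.mem_nhds hne)
    have dB : DifferentiableAt ℝ B x :=
      (hB.differentiableOn (by norm_num)).differentiableAt (isOpen_ne.mem_nhds hne)
    simp only [L]
    rw [fderiv_fun_mul dA dB]
    simp only [add_apply, smul_apply, smul_eq_mul]
    ring
  have h3 : ∫ x in shell, L ((1 / 2 : ℝ) • a) (fun x => A x * B x) x
      = ∫ x in shell, (L ((1 / 2 : ℝ) • a) A x * B x + A x * L ((1 / 2 : ℝ) • a) B x) :=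
    setIntegral_congr_fun measurableSet_shell h2
  have i1 : IntegrableOn (fun x => L ((1 / 2 : ℝ) • a) A x * B x) shell :=
    (((L_continuousOn _ hA).mono shell_subset).mul (hB.continuousOn.mono shell_subset)).integrableOn_compact
      isCompact_shell
  have i2 : IntegrableOn (fun x => A x * L ((1 / 2 : ℝ) • a) B x) shell :=
    ((hA.continuousOn.mono shell_subset).mul ((L_continuousOn _ hB).mono shell_subset)).integrableOn_compact
      isCompact_shell
  have h4 : ∫ x in shell, L ((1 / 2 : ℝ) • a) (fun x => A x * B x) x = 0 := h1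
  rw [h3, integral_add i1 i2] at h4
  linarith

/-- second derivatives along right rotations -/
theorem L_L_apply (a b : ℍ) {U : ℍ → ℝ} (hU : ContDiffOn ℝ 2 U {0}ᶜ) {x : ℍ} (hx : x ≠ 0) :
    L a (L b U) x = fderiv ℝ (fderiv ℝ U) x (x * a) (x * b) + fderiv ℝ U x (x * a * b) := by
  have h1 : ContDiffOn ℝ 1 (fderiv ℝ U) {0}ᶜ := hU.fderiv_of_isOpen isOpen_ne (by norm_num)
  have h2 : HasFDerivAt (fderiv ℝ U) (fderiv ℝ (fderiv ℝ U) x) x :=
    ((h1.differentiableOn (by norm_num)).differentiableAt (isOpen_ne.mem_nhds hx)).hasFDerivAt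
  have h3 : HasFDerivAt (fun y : ℍ => y * b) ((ContinuousLinearMap.mul ℝ ℍ).flip b) x := by
    exact ((ContinuousLinearMap.mul ℝ ℍ).flip b).hasFDerivAt
  have h4 := h2.clm_apply h3
  unfold L
  rw [h4.fderiv]
  simp [add_comm]

theorem L_comm (a b : ℍ) {U : ℍ → ℝ} (hU : ContDiffOn ℝ 2 U {0}ᶜ) {x : ℍ} (hx : x ≠ 0) :
    L a (L b U) x - L b (L a U) x = L (a * b - b * a) U x := by
  rw [L_L_apply a b hU hx, L_L_apply b a hU hx]
  have hsymm : IsSymmSndFDerivAt ℝ U x := by
    have hU' : ContDiffAt ℝ 2 U x := hU.contDiffAt (isOpen_ne.mem_nhds hx)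
    exact hU'.isSymmSndFDerivAt (by simp)
  have := hsymm (x * a) (x * b)
  rw [this]
  unfold L
  rw [mul_sub, map_sub, mul_assoc, mul_assoc]
  ring

end Pool.Agent.MP85963d
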