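import Mathlib
import Pool.Agent.Lib.MP_85963d_gt.QuatFlow

/-!
# The Pestov type inequality on the space of frames (smooth case)
-/

set_option autoImplicit false

open MeasureTheory Set Filter Topology Quaternion
open scoped Real

namespace Pool.Agent.MP85963d

theorem integral_shell_avg {a : ℍ} (h : IsImUnit a) {g : ℍ → ℝ} (hg : ContinuousOn g {0}ᶜ)
    {T : ℝ} (hT : 0 ≤ T) :
    ∫ x in shell, (∫ t in (0:ℝ)..T, g (x * rot a t)) = T * ∫ x in shell, g x := by
  have hcont : ContinuousOn (fun p : ℍ × ℝ => g (p.1 * rot a p.2)) (shell ×ˢ Icc 0 T) := by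
    apply hg.comp
    · exact (continuous_fst.mul ((continuous_rot a).comp continuous_snd)).continuousOn
    · rintro ⟨x, t⟩ ⟨hx, -⟩
      exact shell_subset ((mul_mem_shell (norm_rot h t)).2 hx)
  have hint : IntegrableOn (fun p : ℍ × ℝ => g (p.1 * rot a p.2)) (shell ×ˢ Icc 0 T)
      (volume.prod volume) :=
    hcont.integrableOn_compact (isCompact_shell.prod isCompact_Icc)
  have hint2 : Integrable (Function.uncurry fun (x : ℍ) (t : ℝ) => g (x * rot a t))
      ((volume.restrict shell).prod (volume.restrict (Ioc 0 T))) := by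
    rw [Measure.prod_restrict]
    exact hint.mono_set (Set.prod_mono le_rfl Ioc_subset_Icc_self)
  calc ∫ x in shell, (∫ t in (0:ℝ)..T, g (x * rot a t))
      = ∫ x in shell, (∫ t in Ioc (0:ℝ) T, g (x * rot a t)) := by
        simp_rw [intervalIntegral.integral_of_le hT]
    _ = ∫ t in Ioc (0:ℝ) T, (∫ x in shell, g (x * rot a t)) := integral_integral_swap hint2
    _ = ∫ t in Ioc (0:ℝ) T, (∫ x in shell, g x) := by
        congr 1
        funext t
        exact integral_shell_mul (norm_rot h t) g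
    _ = T * ∫ x in shell, g x := by
        simp [hT]

theorem integrableOn_shell {g : ℍ → ℝ} (hg : ContinuousOn g {0}ᶜ) : IntegrableOn g shell :=
  (hg.mono shell_subset).integrableOn_compact isCompact_shell

/-- Wirtinger's inequality on the shell. -/
theorem shell_wirtinger {a : ℍ} (h : IsImUnit a) {ξ : ℍ → ℝ} (hξ : ContDiffOn ℝ 1 ξ {0}ᶜ)
    (hanti : ∀ x, x ≠ 0 → ξ (x * a) = - ξ x) :
    ∫ x in shell, ξ x ^ 2 ≤ ∫ x in shell, (L ((1 / 2 : ℝ) • a) ξ x) ^ 2 := by
  have hc1 : ContinuousOn (fun x => ξ x ^ 2) {0}ᶜ := hξ.continuousOn.pow 2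
  have hc2 : ContinuousOn (fun x => (L ((1 / 2 : ℝ) • a) ξ x) ^ 2) {0}ᶜ :=
    (L_continuousOn _ hξ).pow 2
  have e1 := integral_shell_avg h hc1 Real.pi_pos.le
  have e2 := integral_shell_avg h hc2 Real.pi_pos.le
  have hmeas : ∀ {g : ℍ → ℝ}, ContinuousOn g {0}ᶜ →
      IntegrableOn (fun x => ∫ t in (0:ℝ)..π, g (x * rot a t)) shell := by
    intro g hg
    have hcont : ContinuousOn (fun p : ℍ × ℝ => g (p.1 * rot a p.2)) (shell ×ˢ Icc 0 π) := by
      apply hg.comp
      · exact (continuous_fst.mul ((continuous_rot a).comp continuous_snd)).continuousOn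
      · rintro ⟨x, t⟩ ⟨hx, -⟩
        exact shell_subset ((mul_mem_shell (norm_rot h t)).2 hx)
    have hint : IntegrableOn (fun p : ℍ × ℝ => g (p.1 * rot a p.2)) (shell ×ˢ Icc 0 π)
        (volume.prod volume) :=
      hcont.integrableOn_compact (isCompact_shell.prod isCompact_Icc)
    have hint2 : Integrable (Function.uncurry fun (x : ℍ) (t : ℝ) => g (x * rot a t))
        ((volume.restrict shell).prod (volume.restrict (Ioc 0 π))) := by
      rw [Measure.prod_restrict]
      exact hint.mono_set (Set.prod_mono le_rfl Ioc_subset_Icc_self)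
    have := hint2.integral_prod_left
    simp_rw [intervalIntegral.integral_of_le Real.pi_pos.le]
    exact this
  have e3 : ∫ x in shell, (∫ t in (0:ℝ)..π, ξ (x * rot a t) ^ 2)
      ≤ ∫ x in shell, (∫ t in (0:ℝ)..π, (L ((1 / 2 : ℝ) • a) ξ (x * rot a t)) ^ 2) := by
    apply setIntegral_mono_on (hmeas hc1) (hmeas hc2) measurableSet_shell
    intro x hx
    have hne := ne_zero_of_mem_shell hx
    have hrot : ∀ t, x * rot a t ≠ 0 := fun t =>
      ne_zero_of_mem_shell ((mul_mem_shell (norm_rot h t)).2 hx)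
    apply wirtinger_antiperiodic (fun t => ξ (x * rot a t))
      (fun t => L ((1 / 2 : ℝ) • a) ξ (x * rot a t))
    · intro t
      exact hasDerivAt_flow h hξ hne t
    · have : ContinuousOn (fun t => L ((1 / 2 : ℝ) • a) ξ (x * rot a t)) univ := by
        apply (L_continuousOn _ hξ).comp
        · exact (continuous_const.mul (continuous_rot a)).continuousOn
        · intro t _
          exact hrot t
      exact continuousOn_univ.1 this
    · intro t
      rw [rot_add h, rot_pi, ← mul_assoc]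
      exact hanti _ (hrot t)
  rw [e1, e2] at e3
  exact le_of_mul_le_mul_left e3 Real.pi_pos

theorem shell_int_sub {f g h : ℍ → ℝ} (hf : ContinuousOn f {0}ᶜ) (hg : ContinuousOn g {0}ᶜ)
    (hh : ∀ x ∈ shell, h x = f x - g x) :
    (∫ x in shell, h x) = (∫ x in shell, f x) - (∫ x in shell, g x) := by
  rw [← integral_sub (integrableOn_shell hf) (integrableOn_shell hg)]
  exact setIntegral_congr_fun measurableSet_shell hh

/-- **Pestov type inequality**: for a `C²` function `U` on frames which is invariant under the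
rotation by `π` along the geodesic flow, `‖X U‖ ≤ ‖V X U‖`. -/
theorem pestov_smooth {U : ℍ → ℝ} (hU : ContDiffOn ℝ 2 U {0}ᶜ)
    (hper : ∀ x, x ≠ 0 → U (x * qK) = U x) :
    (∫ x in shell, (L ((1 / 2 : ℝ) • qK) U x) ^ 2)
      ≤ ∫ x in shell, (L ((1 / 2 : ℝ) • qI) (L ((1 / 2 : ℝ) • qK) U) x) ^ 2 := by
  set X : (ℍ → ℝ) → ℍ → ℝ := L ((1 / 2 : ℝ) • qK) with hX
  set V : (ℍ → ℝ) → ℍ → ℝ := L ((1 / 2 : ℝ) • qI) with hV
  set H : (ℍ → ℝ) → ℍ → ℝ := L ((1 / 2 : ℝ) • (-qJ)) with hH
  have hU1 : ContDiffOn ℝ 1 U {0}ᶜ := hU.of_le (by norm_num)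
  have hF : ContDiffOn ℝ 1 (X U) {0}ᶜ := L_contDiffOn _ hU
  have hξ : ContDiffOn ℝ 1 (V U) {0}ᶜ := L_contDiffOn _ hU
  have hη : ContDiffOn ℝ 1 (H U) {0}ᶜ := L_contDiffOn _ hU
  have iJ := isImUnit_J.neg
  have iI := isImUnit_I
  have iK := isImUnit_K
  -- commutation relations
  have cXV : ∀ x ∈ shell, X (V U) x = V (X U) x - H U x := by
    intro x hx
    have := L_comm ((1 / 2 : ℝ) • qK) ((1 / 2 : ℝ) • qI) hU (ne_zero_of_mem_shell hx)
    have e : ((1 / 2 : ℝ) • qK) * ((1 / 2 : ℝ) • qI) - ((1 / 2 : ℝ) • qI) * ((1 / 2 : ℝ) • qK)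
        = - ((1 / 2 : ℝ) • (-qJ)) := by
      simp only [smul_mul_smul_comm, qK_mul_qI, qI_mul_qK]
      module
    rw [e] at this
    have e2 : L (-((1 / 2 : ℝ) • (-qJ))) U x = - H U x := by
      simp [hH, L]
    rw [e2] at this
    simp only [hX, hV]
    linarith
  have cXH : ∀ x ∈ shell, X (H U) x = H (X U) x + V U x := by
    intro x hx
    have := L_comm ((1 / 2 : ℝ) • qK) ((1 / 2 : ℝ) • (-qJ)) hU (ne_zero_of_mem_shell hx)
    have e : ((1 / 2 : ℝ) • qK) * ((1 / 2 : ℝ) • (-qJ)) - ((1 / 2 : ℝ) • (-qJ)) * ((1 / 2 : ℝ) • qK)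
        = ((1 / 2 : ℝ) • qI) := by
      simp only [smul_mul_smul_comm, mul_neg, neg_mul, qK_mul_qJ, qJ_mul_qK]
      module
    rw [e] at this
    simp only [hX, hV, hH]
    linarith
  have cVH : ∀ x ∈ shell, V (H U) x - H (V U) x = - X U x := by
    intro x hx
    have := L_comm ((1 / 2 : ℝ) • qI) ((1 / 2 : ℝ) • (-qJ)) hU (ne_zero_of_mem_shell hx)
    have e : ((1 / 2 : ℝ) • qI) * ((1 / 2 : ℝ) • (-qJ)) - ((1 / 2 : ℝ) • (-qJ)) * ((1 / 2 : ℝ) • qI)
        = - ((1 / 2 : ℝ) • qK) := by
      simp only [smul_mul_smul_comm, mul_neg, neg_mul, qI_mul_qJ, qJ_mul_qI]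
      module
    rw [e] at this
    have e2 : L (-((1 / 2 : ℝ) • qK)) U x = - X U x := by
      simp [hX, L]
    rw [e2] at this
    simp only [hV, hH]
    linarith
  -- continuity / integrability facts
  have cF := hF.continuousOn
  have cξ := hξ.continuousOn
  have cη := hη.continuousOn
  have cVF : ContinuousOn (V (X U)) {0}ᶜ := L_continuousOn _ hF
  have cHF : ContinuousOn (H (X U)) {0}ᶜ := L_continuousOn _ hF
  have cVη : ContinuousOn (V (H U)) {0}ᶜ := L_continuousOn _ hη
  have cHξ : ContinuousOn (H (V U)) {0}ᶜ := L_continuousOn _ hξ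
  have cXξ : ContinuousOn (X (V U)) {0}ᶜ := L_continuousOn _ hξ
  have cXη : ContinuousOn (X (H U)) {0}ᶜ := L_continuousOn _ hη
  -- (c)
  have s1 : (∫ x in shell, V (X U) x * H U x) = - ∫ x in shell, X U x * V (H U) x :=
    integral_L_mul iI hF hη
  have s2 : (∫ x in shell, H (X U) x * V U x) = - ∫ x in shell, X U x * H (V U) x :=
    integral_L_mul iJ hF hξ
  have s3 : (∫ x in shell, - (X U x) ^ 2)
      = (∫ x in shell, X U x * V (H U) x) - (∫ x in shell, X U x * H (V U) x) := by
    apply shell_int_sub (cF.mul cVη) (cF.mul cHξ)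
    intro x hx
    have := cVH x hx
    simp only [Pi.mul_apply]
    rw [← mul_sub, this]
    ring
  rw [integral_neg] at s3
  have s4 : (∫ x in shell, V (X U) x * H U x) - (∫ x in shell, H (X U) x * V U x)
      = ∫ x in shell, (X U x) ^ 2 := by
    rw [s1, s2]; linarith
  -- (d)
  have s5 : (∫ x in shell, H (X U) x * V U x)
      = (∫ x in shell, X (H U) x * V U x) - (∫ x in shell, (V U x) ^ 2) := by
    apply shell_int_sub (cXη.mul cξ) (cξ.pow 2)
    intro x hx
    have := cXH x hx
    simp only [Pi.mul_apply, Pi.pow_apply]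
    rw [this]
    ring
  have s6 : (∫ x in shell, X (H U) x * V U x) = - ∫ x in shell, H U x * X (V U) x :=
    integral_L_mul iK hη hξ
  have s7 : (∫ x in shell, H U x * X (V U) x)
      = (∫ x in shell, V (X U) x * H U x) - (∫ x in shell, (H U x) ^ 2) := by
    apply shell_int_sub (cVF.mul cη) (cη.pow 2)
    intro x hx
    have := cXV x hx
    simp only [Pi.mul_apply, Pi.pow_apply, Pi.add_apply]
    rw [this]
    ring
  -- (f)
  have hanti : ∀ x, x ≠ 0 → V U (x * qK) = - V U x := by
    intro x hx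
    have hne : x * qK ≠ 0 := by
      apply mul_ne_zero hx
      intro h0
      have := isImUnit_K.norm_eq
      simp [h0] at this
    -- differentiate `U (y * qK) = U y`
    have h1 : HasFDerivAt U (fderiv ℝ U (x * qK)) (x * qK) :=
      ((hU1.differentiableOn (by norm_num)).differentiableAt (isOpen_ne.mem_nhds hne)).hasFDerivAt
    have h2 : HasFDerivAt (fun y : ℍ => y * qK) ((ContinuousLinearMap.mul ℝ ℍ).flip qK) x :=
      ((ContinuousLinearMap.mul ℝ ℍ).flip qK).hasFDerivAt
    have h3 := h1.comp x h2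
    have h4 : HasFDerivAt U (fderiv ℝ U x) x :=
      ((hU1.differentiableOn (by norm_num)).differentiableAt (isOpen_ne.mem_nhds hx)).hasFDerivAt
    have h5 : (U ∘ fun y : ℍ => y * qK) =ᶠ[𝓝 x] U := by
      filter_upwards [isOpen_ne.mem_nhds hx] with y hy
      exact hper y hy
    have h6 := (h4.congr_of_eventuallyEq h5).unique h3
    simp only [hV, L]
    rw [h6]
    simp only [ContinuousLinearMap.comp_apply, ContinuousLinearMap.flip_apply,
      ContinuousLinearMap.mul_apply']
    rw [← map_neg]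
    congr 1
    simp only [mul_smul_comm, smul_mul_assoc, mul_assoc, qK_mul_qI, qI_mul_qK]
    simp
  have s8 : (∫ x in shell, (V U x) ^ 2) ≤ ∫ x in shell, (X (V U) x) ^ 2 :=
    shell_wirtinger iK hξ hanti
  have s9 : (∫ x in shell, (X (V U) x) ^ 2)
      = (∫ x in shell, ((V (X U) x) ^ 2 + (H U x) ^ 2))
        - (∫ x in shell, 2 * (V (X U) x * H U x)) := by
    apply shell_int_sub ((cVF.pow 2).add (cη.pow 2)) (continuousOn_const.mul (cVF.mul cη))
    intro x hx
    have := cXV x hx
    simp only [Pi.mul_apply, Pi.pow_apply, Pi.add_apply]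
    rw [this]
    ring
  have s10 : (∫ x in shell, ((V (X U) x) ^ 2 + (H U x) ^ 2))
      = (∫ x in shell, (V (X U) x) ^ 2) + ∫ x in shell, (H U x) ^ 2 :=
    integral_add (integrableOn_shell (cVF.pow 2)) (integrableOn_shell (cη.pow 2))
  rw [s10, integral_const_mul] at s9
  linarith

end Pool.Agent.MP85963d
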