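import Mathlib
import Pool.Agent.Lib.MP_85963d_gt.Pestov

/-!
# Mollification by left multiplication, and the Pestov type inequality for continuous functions
-/

set_option autoImplicit false

open MeasureTheory Set Filter Topology Quaternion
open scoped Real

namespace Pool.Agent.MP85963d

/-- average of `g` against the bump function `φ` (centred at `1`) transported to `x` -/
noncomputable def T (φ : ContDiffBump (1 : ℍ)) (g : ℍ → ℝ) (x : ℍ) : ℝ :=
  ∫ y, g y * φ (y * x⁻¹)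

theorem contDiffAt_inv_quat {x : ℍ} (hx : x ≠ 0) : ContDiffAt ℝ 2 (fun y : ℍ => y⁻¹) x := by
  have h := contDiffAt_ringInverse ℝ (n := 2) (Units.mk0 x hx)
  have e : (Ring.inverse : ℍ → ℍ) = fun y => y⁻¹ := by
    funext y
    exact Ring.inverse_eq_inv y
  rw [e] at h
  simpa using h

theorem T_contDiffOn (φ : ContDiffBump (1 : ℍ)) (hφ : φ.rOut ≤ 1) {g : ℍ → ℝ}
    (hg : Continuous g) : ContDiffOn ℝ 2 (T φ g) {0}ᶜ := by
  intro x₀ hx₀
  apply ContDiffAt.contDiffWithinAt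
  set R : ℝ := ‖x₀‖ + 1 with hR
  let s : Set ℍ := {0}ᶜ ∩ Metric.ball 0 R
  have hs : IsOpen s := isOpen_ne.inter Metric.isOpen_ball
  have hxs : x₀ ∈ s := ⟨hx₀, by simp [hR]⟩
  let κ : ℍ → ℍ → ℝ := fun p t => φ ((-t) * p⁻¹)
  have hk : IsCompact (Metric.closedBall (0 : ℍ) (2 * R)) := isCompact_closedBall _ _
  have hgs : ∀ p, ∀ x, p ∈ s → x ∉ Metric.closedBall (0 : ℍ) (2 * R) → κ p x = 0 := by
    intro p x hp hx
    apply φ.zero_of_le_dist
    have hp0 : p ≠ 0 := hp.1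
    have hpn : 0 < ‖p‖ := norm_pos_iff.2 hp0
    have hpR : ‖p‖ < R := by simpa using hp.2
    have hxn : 2 * R < ‖x‖ := by simpa using hx
    have h1 : ‖(-x) * p⁻¹‖ = ‖x‖ / ‖p‖ := by
      rw [norm_mul, norm_neg, norm_inv, div_eq_mul_inv]
    have h2 : 2 < ‖(-x) * p⁻¹‖ := by
      rw [h1, lt_div_iff₀ hpn]
      linarith
    have h3 : ‖(-x) * p⁻¹‖ - ‖(1:ℍ)‖ ≤ dist ((-x) * p⁻¹) 1 := by
      rw [dist_eq_norm]
      exact norm_sub_norm_le _ _
    rw [norm_one] at h3
    linarith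
  have hκ : ContDiffOn ℝ ((2 : ℕ∞) : WithTop ℕ∞) (Function.uncurry κ) (s ×ˢ univ) := by
    rintro ⟨p, t⟩ ⟨hp, -⟩
    apply ContDiffAt.contDiffWithinAt
    have h1 : ContDiffAt ℝ ((2 : ℕ∞) : WithTop ℕ∞) (fun q : ℍ × ℍ => (-q.2) * (q.1)⁻¹) (p, t) := by
      have h2 : ContDiffAt ℝ ((2 : ℕ∞) : WithTop ℕ∞) (fun q : ℍ × ℍ => (q.1)⁻¹) (p, t) := by
        have := contDiffAt_inv_quat (x := p) hp.1
        exact ContDiffAt.comp (p, t) this contDiffAt_fst
      exact (contDiffAt_snd.neg).mul h2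
    have h3 : ContDiffAt ℝ ((2 : ℕ∞) : WithTop ℕ∞) φ ((-t) * p⁻¹) := φ.contDiffAt
    exact ContDiffAt.comp (f := fun q : ℍ × ℍ => (-q.2) * (q.1)⁻¹) (g := (φ : ℍ → ℝ)) (p, t) h3 h1
  have key := contDiffOn_convolution_right_with_param_comp (𝕜 := ℝ) (μ := (volume : Measure ℍ))
    (n := 2) (ContinuousLinearMap.mul ℝ ℝ) (s := s) (v := fun _ : ℍ => (0 : ℍ))
    contDiffOn_const (f := g) (g := κ) hs hk hgs hg.locallyIntegrable hκ
  have e : (fun x => (convolution g (κ x) (ContinuousLinearMap.mul ℝ ℝ) volume) (0 : ℍ)) = T φ g := by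
    funext x
    simp only [convolution, T, κ, ContinuousLinearMap.mul_apply', zero_sub, neg_neg]
  rw [e] at key
  exact (key.contDiffAt (hs.mem_nhds hxs))

theorem T_kernel_continuous (φ : ContDiffBump (1 : ℍ)) (x : ℍ) :
    Continuous fun y : ℍ => φ (y * x⁻¹) :=
  φ.continuous.comp (continuous_id.mul continuous_const)

theorem T_kernel_zero (φ : ContDiffBump (1 : ℍ)) (hφ : φ.rOut ≤ 1) {x y : ℍ} (hx : x ≠ 0)
    (hy : 2 * ‖x‖ < ‖y‖) : φ (y * x⁻¹) = 0 := by
  apply φ.zero_of_le_dist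
  have hpn : 0 < ‖x‖ := norm_pos_iff.2 hx
  have h1 : ‖y * x⁻¹‖ = ‖y‖ / ‖x‖ := by
    rw [norm_mul, norm_inv, div_eq_mul_inv]
  have h2 : 2 < ‖y * x⁻¹‖ := by
    rw [h1, lt_div_iff₀ hpn]
    linarith
  have h3 : ‖y * x⁻¹‖ - ‖(1:ℍ)‖ ≤ dist (y * x⁻¹) 1 := by
    rw [dist_eq_norm]
    exact norm_sub_norm_le _ _
  rw [norm_one] at h3
  linarith

theorem T_kernel_compact (φ : ContDiffBump (1 : ℍ)) (hφ : φ.rOut ≤ 1) {x : ℍ} (hx : x ≠ 0) :
    HasCompactSupport fun y : ℍ => φ (y * x⁻¹) := by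
  apply HasCompactSupport.intro (isCompact_closedBall (0:ℍ) (2 * ‖x‖))
  intro y hy
  exact T_kernel_zero φ hφ hx (by simpa using hy)

theorem T_integrable (φ : ContDiffBump (1 : ℍ)) (hφ : φ.rOut ≤ 1) {g : ℍ → ℝ} (hg : Continuous g)
    {x : ℍ} (hx : x ≠ 0) : Integrable fun y => g y * φ (y * x⁻¹) :=
  (hg.mul (T_kernel_continuous φ x)).integrable_of_hasCompactSupport
    ((T_kernel_compact φ hφ hx).mul_left)

theorem T_mul (φ : ContDiffBump (1 : ℍ)) {ρ : ℍ} (hρ : ‖ρ‖ = 1) (g : ℍ → ℝ) (x : ℍ) :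
    T φ g (x * ρ) = ∫ y, g (y * ρ) * φ (y * x⁻¹) := by
  have h1 := (rmul ρ hρ).measurePreserving
  have h2 := h1.integral_comp (rmul ρ hρ).toMeasurableEquiv.measurableEmbedding
    (fun y => g y * φ (y * (x * ρ)⁻¹))
  have hρ0 : ρ ≠ 0 := fun h0 => by simp [h0] at hρ
  rw [T, ← h2]
  congr 1
  funext y
  simp only [rmul_apply]
  rw [mul_inv_rev, mul_assoc y ρ, ← mul_assoc ρ, mul_inv_cancel₀ hρ0, one_mul]

theorem T_one_pos (φ : ContDiffBump (1 : ℍ)) (hφ : φ.rOut ≤ 1) {x : ℍ} (hx : x ≠ 0) :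
    0 < T φ (fun _ => 1) x := by
  have h : T φ (fun _ => 1) x = ∫ y, φ (y * x⁻¹) := by simp [T]
  rw [h]
  apply (T_kernel_continuous φ x).integral_pos_of_hasCompactSupport_nonneg_nonzero
    (T_kernel_compact φ hφ hx) (x := x)
  · intro y; exact φ.nonneg
  · rw [mul_inv_cancel₀ hx]
    have : φ (1:ℍ) = 1 := φ.one_of_mem_closedBall (Metric.mem_closedBall_self φ.rIn_pos.le)
    rw [this]; exact one_ne_zero

/-- normalised average -/
noncomputable def P (φ : ContDiffBump (1 : ℍ)) (g : ℍ → ℝ) (x : ℍ) : ℝ :=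
  T φ g x / T φ (fun _ => 1) x

theorem P_contDiffOn (φ : ContDiffBump (1 : ℍ)) (hφ : φ.rOut ≤ 1) {g : ℍ → ℝ}
    (hg : Continuous g) : ContDiffOn ℝ 2 (P φ g) {0}ᶜ :=
  (T_contDiffOn φ hφ hg).div (T_contDiffOn φ hφ continuous_const)
    (fun _ hx => (T_one_pos φ hφ hx).ne')

theorem T_one_mul (φ : ContDiffBump (1 : ℍ)) {ρ : ℍ} (hρ : ‖ρ‖ = 1) (x : ℍ) :
    T φ (fun _ => 1) (x * ρ) = T φ (fun _ => 1) x := by
  rw [T_mul φ hρ]; rfl

theorem P_mul (φ : ContDiffBump (1 : ℍ)) {ρ : ℍ} (hρ : ‖ρ‖ = 1) {g : ℍ → ℝ}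
    (hg : ∀ x, g (x * ρ) = g x) (x : ℍ) : P φ g (x * ρ) = P φ g x := by
  rw [P, P, T_one_mul φ hρ, T_mul φ hρ]
  simp only [hg]
  rfl

/-- derivative of the mollification along right rotations -/
theorem L_P (φ : ContDiffBump (1 : ℍ)) (hφ : φ.rOut ≤ 1) {a : ℍ} (ha : IsImUnit a)
    {U F : ℍ → ℝ} (hU : Continuous U) (hF : Continuous F)
    (hd : ∀ z t, HasDerivAt (fun t => U (z * rot a t)) (F (z * rot a t)) t)
    {x : ℍ} (hx : x ≠ 0) : L ((1 / 2 : ℝ) • a) (P φ U) x = P φ F x := by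
  have h1 := hasDerivAt_flow ha ((P_contDiffOn φ hφ hU).of_le (by norm_num)) hx 0
  rw [rot_zero, mul_one] at h1
  -- bound of `F` on the ball
  obtain ⟨M, hM⟩ := (isCompact_closedBall (0:ℍ) (2 * ‖x‖)).exists_bound_of_continuousOn
    (f := F) hF.continuousOn
  have hker : Integrable fun y => φ (y * x⁻¹) :=
    (T_kernel_continuous φ x).integrable_of_hasCompactSupport (T_kernel_compact φ hφ hx)
  have h2 := hasDerivAt_integral_of_dominated_loc_of_deriv_le (μ := (volume : Measure ℍ))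
    (F := fun t y => U (y * rot a t) * φ (y * x⁻¹))
    (F' := fun t y => F (y * rot a t) * φ (y * x⁻¹)) (x₀ := (0:ℝ)) (s := univ)
    (bound := fun y => M * φ (y * x⁻¹)) Filter.univ_mem
    (Eventually.of_forall fun t =>
      ((hU.comp (continuous_id.mul continuous_const)).mul
        (T_kernel_continuous φ x)).aestronglyMeasurable)
    (by
      simp only [rot_zero, mul_one]
      exact T_integrable φ hφ hU hx)
    ((hF.comp (continuous_id.mul continuous_const)).mul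
        (T_kernel_continuous φ x)).aestronglyMeasurable
    (Eventually.of_forall fun y t _ => by
      rw [norm_mul, Real.norm_eq_abs (φ _), abs_of_nonneg φ.nonneg]
      by_cases hy : 2 * ‖x‖ < ‖y‖
      · rw [T_kernel_zero φ hφ hx hy]; simp
      · apply mul_le_mul_of_nonneg_right _ φ.nonneg
        apply hM
        simp only [Metric.mem_closedBall, dist_zero_right, norm_mul, norm_rot ha, mul_one]
        exact not_lt.1 hy)
    (hker.const_mul M)
    (Eventually.of_forall fun y t _ => (hd y t).mul_const _)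
  have h3 := h2.2
  simp only [rot_zero, mul_one] at h3
  have e : (fun t => P φ U (x * rot a t))
      = fun t => (∫ y, U (y * rot a t) * φ (y * x⁻¹)) / T φ (fun _ => 1) x := by
    funext t
    rw [P, T_one_mul φ (norm_rot ha t), T_mul φ (norm_rot ha t)]
  have h4 := h3.div_const (T φ (fun _ => 1) x)
  rw [← e] at h4
  have h5 := h1.unique h4
  rw [h5]
  rfl

/-- pointwise convergence of the averages -/
theorem tendsto_P {g : ℍ → ℝ} (hg : Continuous g) (φ : ℕ → ContDiffBump (1 : ℍ))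
    (hφ : ∀ n, (φ n).rOut ≤ 1) (hlim : Tendsto (fun n => (φ n).rOut) atTop (𝓝 0))
    {x : ℍ} (hx : x ≠ 0) : Tendsto (fun n => P (φ n) g x) atTop (𝓝 (g x)) := by
  rw [Metric.tendsto_atTop]
  intro ε hε
  have hxn : 0 < ‖x‖ := norm_pos_iff.2 hx
  obtain ⟨δ, hδ, hδ2⟩ := Metric.continuousAt_iff.1 (hg.continuousAt (x := x)) (ε / 2) (half_pos hε)
  obtain ⟨N, hN⟩ := Metric.tendsto_atTop.1 hlim (δ / ‖x‖) (by positivity)
  refine ⟨N, fun n hn => ?_⟩
  have hr : (φ n).rOut < δ / ‖x‖ := by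
    have := hN n hn
    rw [Real.dist_eq, sub_zero] at this
    exact (le_abs_self _).trans_lt this
  have hT := T_one_pos (φ n) (hφ n) hx
  have hker : Integrable fun y => (φ n) (y * x⁻¹) :=
    (T_kernel_continuous (φ n) x).integrable_of_hasCompactSupport
      (T_kernel_compact (φ n) (hφ n) hx)
  have hT1 : T (φ n) (fun _ => 1) x = ∫ y, (φ n) (y * x⁻¹) := by simp [T]
  have h1 : P (φ n) g x - g x = (∫ y, (g y - g x) * (φ n) (y * x⁻¹)) / T (φ n) (fun _ => 1) x := by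
    rw [P, eq_div_iff hT.ne', sub_mul, div_mul_cancel₀ _ hT.ne', T, hT1, ← integral_const_mul,
      ← integral_sub (T_integrable (φ n) (hφ n) hg hx) (hker.const_mul _)]
    congr 1
    funext y
    ring
  have h2 : ‖∫ y, (g y - g x) * (φ n) (y * x⁻¹)‖ ≤ ∫ y, (ε / 2) * (φ n) (y * x⁻¹) := by
    apply norm_integral_le_of_norm_le (hker.const_mul _)
    refine Eventually.of_forall fun y => ?_
    rw [norm_mul, Real.norm_eq_abs ((φ n) _), abs_of_nonneg (φ n).nonneg]
    by_cases hy : dist (y * x⁻¹) 1 < (φ n).rOut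
    · apply mul_le_mul_of_nonneg_right _ (φ n).nonneg
      have h3 : dist y x < δ := by
        have e : y - x = (y * x⁻¹ - 1) * x := by
          rw [sub_mul, one_mul, mul_assoc, inv_mul_cancel₀ hx, mul_one]
        rw [dist_eq_norm, e, norm_mul, ← dist_eq_norm]
        calc dist (y * x⁻¹) 1 * ‖x‖ < (δ / ‖x‖) * ‖x‖ := by
              apply mul_lt_mul_of_pos_right (hy.trans hr) hxn
          _ = δ := by field_simp
      have := hδ2 h3
      rw [Real.dist_eq] at this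
      exact this.le
    · rw [(φ n).zero_of_le_dist (not_lt.1 hy)]; simp
  rw [Real.dist_eq, h1, abs_div, abs_of_pos hT]
  rw [integral_const_mul, ← hT1] at h2
  calc |∫ y, (g y - g x) * (φ n) (y * x⁻¹)| / T (φ n) (fun _ => 1) x
      ≤ (ε / 2 * T (φ n) (fun _ => 1) x) / T (φ n) (fun _ => 1) x := by
        apply div_le_div_of_nonneg_right _ hT.le
        exact h2
    _ = ε / 2 := by field_simp
    _ < ε := half_lt_self hε

theorem P_bound {g : ℍ → ℝ} (hg : Continuous g) : ∃ M, ∀ (φ : ContDiffBump (1 : ℍ)),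
    φ.rOut ≤ 1 → ∀ x ∈ shell, |P φ g x| ≤ M := by
  obtain ⟨M, hM⟩ := (isCompact_closedBall (0:ℍ) 4).exists_bound_of_continuousOn
    (f := g) hg.continuousOn
  refine ⟨M, fun φ hφ x hx => ?_⟩
  have hx0 := ne_zero_of_mem_shell hx
  have hT := T_one_pos φ hφ hx0
  have hker : Integrable fun y => φ (y * x⁻¹) :=
    (T_kernel_continuous φ x).integrable_of_hasCompactSupport (T_kernel_compact φ hφ hx0)
  have hT1 : T φ (fun _ => 1) x = ∫ y, φ (y * x⁻¹) := by simp [T]
  have h2 : ‖∫ y, g y * φ (y * x⁻¹)‖ ≤ ∫ y, M * φ (y * x⁻¹) := by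
    apply norm_integral_le_of_norm_le (hker.const_mul _)
    refine Eventually.of_forall fun y => ?_
    rw [norm_mul, Real.norm_eq_abs (φ _), abs_of_nonneg φ.nonneg]
    by_cases hy : 2 * ‖x‖ < ‖y‖
    · rw [T_kernel_zero φ hφ hx0 hy]; simp
    · apply mul_le_mul_of_nonneg_right _ φ.nonneg
      apply hM
      simp only [Metric.mem_closedBall, dist_zero_right]
      have := hx.2
      linarith [not_lt.1 hy]
  rw [integral_const_mul, ← hT1] at h2
  rw [P, abs_div, abs_of_pos hT, div_le_iff₀ hT]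
  exact h2

/-- **Pestov type inequality**, continuous version. -/
theorem pestov_continuous {U F G : ℍ → ℝ} (hU : Continuous U) (hF : Continuous F)
    (hG : Continuous G)
    (hUF : ∀ z t, HasDerivAt (fun t => U (z * rot qK t)) (F (z * rot qK t)) t)
    (hFG : ∀ z t, HasDerivAt (fun t => F (z * rot qI t)) (G (z * rot qI t)) t)
    (hper : ∀ z, U (z * qK) = U z) :
    (∫ x in shell, F x ^ 2) ≤ ∫ x in shell, G x ^ 2 := by
  let φ : ℕ → ContDiffBump (1 : ℍ) := fun n =>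
    ⟨1 / (2 * ((n : ℝ) + 1)), 1 / ((n : ℝ) + 1), by positivity, by
      apply one_div_lt_one_div_of_lt <;> nlinarith [Nat.cast_nonneg (α := ℝ) n]⟩
  have hφ : ∀ n, (φ n).rOut ≤ 1 := by
    intro n
    change 1 / ((n : ℝ) + 1) ≤ 1
    rw [div_le_one (by positivity)]
    linarith [Nat.cast_nonneg (α := ℝ) n]
  have hlim : Tendsto (fun n => (φ n).rOut) atTop (𝓝 0) :=
    tendsto_one_div_add_atTop_nhds_zero_nat
  have step : ∀ n, (∫ x in shell, P (φ n) F x ^ 2) ≤ ∫ x in shell, P (φ n) G x ^ 2 := by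
    intro n
    have h := pestov_smooth (U := P (φ n) U) (P_contDiffOn (φ n) (hφ n) hU)
      (fun x _ => P_mul (φ n) isImUnit_K.norm_eq hper x)
    have e1 : (∫ x in shell, (L ((1 / 2 : ℝ) • qK) (P (φ n) U) x) ^ 2)
        = ∫ x in shell, P (φ n) F x ^ 2 := by
      apply setIntegral_congr_fun measurableSet_shell
      intro x hx
      simp only []
      rw [L_P (φ n) (hφ n) isImUnit_K hU hF hUF (ne_zero_of_mem_shell hx)]
    have e2 : (∫ x in shell, (L ((1 / 2 : ℝ) • qI) (L ((1 / 2 : ℝ) • qK) (P (φ n) U)) x) ^ 2)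
        = ∫ x in shell, P (φ n) G x ^ 2 := by
      apply setIntegral_congr_fun measurableSet_shell
      intro x hx
      simp only []
      rw [← L_P (φ n) (hφ n) isImUnit_I hF hG hFG (ne_zero_of_mem_shell hx)]
      congr 1
      unfold L
      have : (L ((1 / 2 : ℝ) • qK) (P (φ n) U)) =ᶠ[𝓝 x] P (φ n) F := by
        filter_upwards [isOpen_ne.mem_nhds (ne_zero_of_mem_shell hx)] with y hy
        exact L_P (φ n) (hφ n) isImUnit_K hU hF hUF hy
      have h3 := this.fderiv_eq (𝕜 := ℝ)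
      unfold L at h3
      rw [h3]
    rw [e1, e2] at h
    exact h
  have lim : ∀ {g : ℍ → ℝ}, Continuous g →
      Tendsto (fun n => ∫ x in shell, P (φ n) g x ^ 2) atTop (𝓝 (∫ x in shell, g x ^ 2)) := by
    intro g hg
    obtain ⟨M, hM⟩ := P_bound hg
    have hfin : IsFiniteMeasure (volume.restrict shell) :=
      ⟨by simpa using isCompact_shell.measure_lt_top⟩
    apply tendsto_integral_of_dominated_convergence (fun _ => M ^ 2)
    · intro n
      exact (((P_contDiffOn (φ n) (hφ n) hg).continuousOn.mono shell_subset).pow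
        2).aestronglyMeasurable measurableSet_shell
    · exact integrable_const _
    · intro n
      rw [ae_restrict_iff' measurableSet_shell]
      refine Eventually.of_forall fun x hx => ?_
      have := hM (φ n) (hφ n) x hx
      rw [norm_pow, Real.norm_eq_abs]
      exact pow_le_pow_left₀ (abs_nonneg _) this 2
    · rw [ae_restrict_iff' measurableSet_shell]
      refine Eventually.of_forall fun x hx => ?_
      exact (tendsto_P hg φ hφ hlim (ne_zero_of_mem_shell hx)).pow 2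
  exact le_of_tendsto_of_tendsto' (lim hF) (lim hG) step

end Pool.Agent.MP85963d
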