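import Mathlib
import Pool.Agent.Lib.MP_85963d_gt.Mollify

/-!
# The basic inequality for functions on frames with vanishing integrals over geodesics
-/

set_option autoImplicit false

open MeasureTheory Set Filter Topology Quaternion
open scoped Real

namespace Pool.Agent.MP85963d

/-- If `f` is continuous and `π`-periodic with mean zero, then
`t ↦ ∫₀^π (s/π) f (t+s) ds` is a primitive of `f`. -/
theorem hasDerivAt_primitive {f : ℝ → ℝ} (hf : Continuous f) (hper : ∀ t, f (t + π) = f t)
    (hint : ∫ s in (0:ℝ)..π, f s = 0) (t : ℝ) :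
    HasDerivAt (fun t => ∫ s in (0:ℝ)..π, (s / π) * f (t + s)) (f t) t := by
  have hpi : (π : ℝ) ≠ 0 := Real.pi_ne_zero
  have hfp : Function.Periodic f π := hper
  have hint' : ∀ t, ∫ s in t..(t + π), f s = 0 := by
    intro t
    have := hfp.intervalIntegral_add_eq t 0
    rw [this]
    simpa using hint
  have hg : Continuous fun σ : ℝ => σ * f σ := continuous_id.mul hf
  have e : (fun t => ∫ s in (0:ℝ)..π, (s / π) * f (t + s))
      = fun t => (1 / π) * ((∫ σ in (0:ℝ)..(t + π), σ * f σ) - ∫ σ in (0:ℝ)..t, σ * f σ) := by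
    funext t
    have h1 : ∫ s in (0:ℝ)..π, (s / π) * f (t + s)
        = ∫ σ in t..(t + π), ((σ - t) / π) * f σ := by
      have := intervalIntegral.integral_comp_add_left (a := (0:ℝ)) (b := π)
        (fun σ => ((σ - t) / π) * f σ) t
      simp only [add_zero, add_sub_cancel_left] at this
      exact this
    rw [h1]
    have h2 : ∫ σ in t..(t + π), ((σ - t) / π) * f σ
        = (1 / π) * (∫ σ in t..(t + π), σ * f σ) - (t / π) * ∫ σ in t..(t + π), f σ := by
      rw [← intervalIntegral.integral_const_mul, ← intervalIntegral.integral_const_mul,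
        ← intervalIntegral.integral_sub]
      · congr 1
        funext σ
        ring
      · exact (hg.const_mul _).intervalIntegrable _ _
      · exact (hf.const_mul _).intervalIntegrable _ _
    rw [h2, hint' t, mul_zero, sub_zero]
    congr 1
    rw [intervalIntegral.integral_interval_sub_left (hg.intervalIntegrable _ _)
      (hg.intervalIntegrable _ _)]
  rw [e]
  have d1 : HasDerivAt (fun t => ∫ σ in (0:ℝ)..(t + π), σ * f σ) ((t + π) * f (t + π)) t := by
    have h1 : HasDerivAt (fun u => ∫ σ in (0:ℝ)..u, σ * f σ) ((t + π) * f (t + π)) (t + π) :=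
      intervalIntegral.integral_hasDerivAt_right (hg.intervalIntegrable _ _)
        (hg.stronglyMeasurableAtFilter _ _) hg.continuousAt
    exact h1.comp_add_const t π
  have d2 : HasDerivAt (fun t => ∫ σ in (0:ℝ)..t, σ * f σ) (t * f t) t :=
    intervalIntegral.integral_hasDerivAt_right (hg.intervalIntegrable _ _)
        (hg.stronglyMeasurableAtFilter _ _) hg.continuousAt
  have d3 := (d1.sub d2).const_mul (1 / π)
  convert! d3 using 1
  rw [hper t]
  field_simp
  ring

/-- The inequality `‖F‖ ≤ ‖V F‖` for functions on frames with vanishing geodesic integrals. -/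
theorem frame_inequality {F G : ℍ → ℝ} (hF : Continuous F) (hG : Continuous G)
    (hFG : ∀ z t, HasDerivAt (fun t => F (z * rot qI t)) (G (z * rot qI t)) t)
    (hper : ∀ z, F (z * qK) = F z)
    (hint : ∀ z, ∫ s in (0:ℝ)..π, F (z * rot qK s) = 0) :
    (∫ x in shell, F x ^ 2) ≤ ∫ x in shell, G x ^ 2 := by
  let U : ℍ → ℝ := fun z => ∫ s in (0:ℝ)..π, (s / π) * F (z * rot qK s)
  have hU : Continuous U := by
    apply intervalIntegral.continuous_parametric_intervalIntegral_of_continuous'
    apply Continuous.mul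
    · exact (continuous_snd.div_const _)
    · exact hF.comp (continuous_fst.mul ((continuous_rot qK).comp continuous_snd))
  apply pestov_continuous hU hF hG _ hFG
  · intro z
    simp only [U]
    congr 1
    funext s
    rw [mul_assoc, rot_mul_comm, ← mul_assoc, hper]
  · intro z t
    have hf : Continuous fun t => F (z * rot qK t) :=
      hF.comp (continuous_const.mul (continuous_rot qK))
    have := hasDerivAt_primitive hf (fun t => by
      rw [rot_add isImUnit_K, rot_pi, ← mul_assoc, hper]) (hint z) t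
    convert! this using 1
    funext t
    simp only [U]
    congr 1
    funext s
    rw [rot_add isImUnit_K, ← mul_assoc]

/-- Consequence: if moreover `|V F| ≤ c |F|` with `c < 1` on the shell then `F = 0` there. -/
theorem frame_vanishing {F G : ℍ → ℝ} (hF : Continuous F) (hG : Continuous G)
    (hFG : ∀ z t, HasDerivAt (fun t => F (z * rot qI t)) (G (z * rot qI t)) t)
    (hper : ∀ z, F (z * qK) = F z)
    (hint : ∀ z, ∫ s in (0:ℝ)..π, F (z * rot qK s) = 0)
    {c : ℝ} (hc0 : 0 ≤ c) (hc : c < 1) (hb : ∀ x ∈ shell, |G x| ≤ c * |F x|) :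
    ∀ x, 1 < ‖x‖ → ‖x‖ < 2 → F x = 0 := by
  have h1 := frame_inequality hF hG hFG hper hint
  have iF : IntegrableOn (fun x => F x ^ 2) shell :=
    (hF.pow 2).continuousOn.integrableOn_compact isCompact_shell
  have iG : IntegrableOn (fun x => G x ^ 2) shell :=
    (hG.pow 2).continuousOn.integrableOn_compact isCompact_shell
  have h2 : (∫ x in shell, G x ^ 2) ≤ ∫ x in shell, c ^ 2 * F x ^ 2 := by
    apply setIntegral_mono_on iG (iF.const_mul _) measurableSet_shell
    intro x hx
    have := hb x hx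
    calc G x ^ 2 = |G x| ^ 2 := (sq_abs _).symm
      _ ≤ (c * |F x|) ^ 2 := pow_le_pow_left₀ (abs_nonneg _) this 2
      _ = c ^ 2 * F x ^ 2 := by rw [mul_pow, sq_abs]
  rw [integral_const_mul] at h2
  have h3 : 0 ≤ ∫ x in shell, F x ^ 2 :=
    setIntegral_nonneg measurableSet_shell fun x _ => sq_nonneg _
  have hc2 : c ^ 2 < 1 := by nlinarith
  have h4 : (∫ x in shell, F x ^ 2) = 0 := by nlinarith
  -- the open shell
  intro x hx1 hx2
  by_contra hne
  have hopen : IsOpen {y : ℍ | 1 < ‖y‖ ∧ ‖y‖ < 2} :=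
    (isOpen_lt continuous_const continuous_norm).inter (isOpen_lt continuous_norm continuous_const)
  have h5 : (fun x => F x ^ 2) =ᵐ[volume.restrict shell] 0 := by
    rw [← setIntegral_eq_zero_iff_of_nonneg_ae (Eventually.of_forall fun x => sq_nonneg (F x)) iF]
    exact h4
  have h6 : (fun x => F x ^ 2) =ᵐ[volume.restrict {y : ℍ | 1 < ‖y‖ ∧ ‖y‖ < 2}] 0 :=
    ae_restrict_of_ae_restrict_of_subset
      (fun y (hy : 1 < ‖y‖ ∧ ‖y‖ < 2) => (⟨hy.1.le, hy.2.le⟩ : 1 ≤ ‖y‖ ∧ ‖y‖ ≤ 2)) h5
  have h7 := Measure.eqOn_open_of_ae_eq h6 hopen ((hF.pow 2).continuousOn)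
    continuousOn_const
  have h8 := h7 (show x ∈ {y : ℍ | 1 < ‖y‖ ∧ ‖y‖ < 2} from ⟨hx1, hx2⟩)
  apply hne
  simpa using h8

end Pool.Agent.MP85963d
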