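import Mathlib
import Pool.Agent.Lib.MP_85963d_gt.FrameIneq

/-!
# Orthonormal frames of `ℝ³` from quaternions
-/

set_option autoImplicit false

open MeasureTheory Set Filter Topology Quaternion
open scoped Real

namespace Pool.Agent.MP85963d

/-- Euclidean three-space -/
abbrev E3 : Type := EuclideanSpace ℝ (Fin 3)

/-- imaginary part of a quaternion as a vector of `ℝ³` -/
noncomputable def im3 : ℍ →L[ℝ] E3 :=
  LinearMap.toContinuousLinearMap
    { toFun := fun q => !₂[q.imI, q.imJ, q.imK]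
      map_add' := by
        intro a b; ext i; fin_cases i <;> simp
      map_smul' := by
        intro r a; ext i; fin_cases i <;> simp }

@[simp] theorem im3_apply (q : ℍ) : im3 q = !₂[q.imI, q.imJ, q.imK] := rfl

theorem inner_im3 (a b : ℍ) (ha : a.re = 0) :
    inner ℝ (im3 a) (im3 b) = inner ℝ a b := by
  rw [Quaternion.inner_def]
  simp only [im3_apply, PiLp.inner_apply, Fin.sum_univ_three]
  simp [Quaternion.re_mul, ha]
  ring

/-- conjugation by `x` -/
noncomputable def conjQ (x a : ℍ) : ℍ := x * a * x⁻¹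

theorem conjQ_add (x a b : ℍ) : conjQ x (a + b) = conjQ x a + conjQ x b := by
  simp [conjQ, mul_add, add_mul]

theorem conjQ_smul (x a : ℍ) (r : ℝ) : conjQ x (r • a) = r • conjQ x a := by
  simp [conjQ]

theorem norm_conjQ {x : ℍ} (hx : x ≠ 0) (a : ℍ) : ‖conjQ x a‖ = ‖a‖ := by
  have : ‖x‖ ≠ 0 := norm_ne_zero_iff.2 hx
  rw [conjQ, norm_mul, norm_mul, norm_inv]
  field_simp

/-- conjugation as a linear isometry -/
noncomputable def conjIso {x : ℍ} (hx : x ≠ 0) : ℍ →ₗᵢ[ℝ] ℍ where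
  toFun := conjQ x
  map_add' := conjQ_add x
  map_smul' r a := conjQ_smul x a r
  norm_map' := norm_conjQ hx

theorem inner_conjQ {x : ℍ} (hx : x ≠ 0) (a b : ℍ) :
    inner ℝ (conjQ x a) (conjQ x b) = inner ℝ a b :=
  (conjIso hx).inner_map_map a b

theorem re_conjQ {x : ℍ} (hx : x ≠ 0) (a : ℍ) : (conjQ x a).re = a.re := by
  have h := inner_conjQ hx a 1
  have e1 : conjQ x 1 = 1 := by simp [conjQ, hx]
  rw [e1, Quaternion.inner_def, Quaternion.inner_def] at h
  simpa using h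

/-- frame vectors -/
noncomputable def fr (a x : ℍ) : E3 := im3 (conjQ x a)

theorem inner_fr {x : ℍ} (hx : x ≠ 0) {a b : ℍ} (ha : a.re = 0) :
    inner ℝ (fr a x) (fr b x) = inner ℝ a b := by
  rw [fr, fr, inner_im3 _ _ (by rw [re_conjQ hx, ha]), inner_conjQ hx]

theorem fr_add (x a b : ℍ) : fr (a + b) x = fr a x + fr b x := by
  simp only [fr, conjQ_add, map_add]

theorem fr_smul (x a : ℍ) (r : ℝ) : fr (r • a) x = r • fr a x := by
  simp only [fr, conjQ_smul, map_smul]

theorem fr_neg (x a : ℍ) : fr (-a) x = - fr a x := by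
  have := fr_smul x a (-1)
  simpa using this

theorem norm_fr {x : ℍ} (hx : x ≠ 0) {a : ℍ} (ha : a.re = 0) : ‖fr a x‖ = ‖a‖ := by
  have h := inner_fr hx ha (b := a)
  rw [real_inner_self_eq_norm_sq, real_inner_self_eq_norm_sq] at h
  exact (sq_eq_sq₀ (norm_nonneg _) (norm_nonneg _)).1 h

theorem continuousOn_fr (a : ℍ) : ContinuousOn (fr a) {0}ᶜ := by
  have : ContinuousOn (fun x : ℍ => x * a * x⁻¹) {0}ᶜ := by
    apply ContinuousOn.mul (by fun_prop)
    exact continuousOn_inv₀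
  exact im3.continuous.comp_continuousOn this

theorem conjQ_mul (x ρ a : ℍ) : conjQ (x * ρ) a = conjQ x (conjQ ρ a) := by
  simp only [conjQ, mul_inv_rev, mul_assoc]

theorem fr_mul (x ρ a : ℍ) : fr a (x * ρ) = fr (conjQ ρ a) x := by
  rw [fr, conjQ_mul]; rfl

theorem rot_ne_zero {a : ℍ} (h : IsImUnit a) (t : ℝ) : rot a t ≠ 0 := by
  intro h0
  have := norm_rot h t
  simp [h0] at this

theorem qI_re : qI.re = 0 := rfl
theorem qJ_re : qJ.re = 0 := rfl
theorem qK_re : qK.re = 0 := rfl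

theorem cos_eq_half (t : ℝ) : Real.cos t = Real.cos (t/2) * Real.cos (t/2)
    - Real.sin (t/2) * Real.sin (t/2) := by
  have := Real.cos_add (t/2) (t/2)
  rwa [add_halves] at this

theorem sin_eq_half (t : ℝ) : Real.sin t = Real.sin (t/2) * Real.cos (t/2)
    + Real.cos (t/2) * Real.sin (t/2) := by
  have := Real.sin_add (t/2) (t/2)
  rwa [add_halves] at this

/-- conjugation of `b` by `rot a t` when `a * b = c`, `b * a = -c` etc. -/
theorem conj_rot_gen {a b c : ℍ} (ha : IsImUnit a) (hab : a * b = c) (hba : b * a = -c)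
    (hca : c * a = b) (t : ℝ) :
    conjQ (rot a t) b = Real.cos t • b + Real.sin t • c := by
  have h0 := rot_ne_zero ha t
  rw [conjQ, mul_inv_eq_iff_eq_mul₀ h0, cos_eq_half t, sin_eq_half t]
  have h := Real.sin_sq_add_cos_sq (t/2)
  simp only [rot]
  generalize Real.cos (t/2) = C at *
  generalize Real.sin (t/2) = S at *
  have e1 : (C • (1:ℍ) + S • a) * b = C • b + S • c := by
    simp only [add_mul, smul_mul_assoc, one_mul, hab]
  have e2 : ((C * C - S * S) • b + (S * C + C * S) • c) * (C • (1:ℍ) + S • a)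
      = ((C * C - S * S) * C + (S * C + C * S) * S) • b
        + ((S * C + C * S) * C - (C * C - S * S) * S) • c := by
    simp only [add_mul, mul_add, smul_mul_smul_comm, mul_one, hba, hca]
    module
  rw [e1, e2]
  have f1 : (C * C - S * S) * C + (S * C + C * S) * S = C := by
    linear_combination C * h
  have f2 : (S * C + C * S) * C - (C * C - S * S) * S = S := by
    linear_combination S * h
  rw [f1, f2]

theorem conj_rot_self {a : ℍ} (ha : IsImUnit a) (t : ℝ) : conjQ (rot a t) a = a := by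
  have h0 := rot_ne_zero ha t
  rw [conjQ, mul_inv_eq_iff_eq_mul₀ h0, rot_mul_comm]

theorem conj_rotK_I (t : ℝ) : conjQ (rot qK t) qI = Real.cos t • qI + Real.sin t • qJ :=
  conj_rot_gen isImUnit_K qK_mul_qI qI_mul_qK qJ_mul_qK t

theorem conj_rotK_J (t : ℝ) : conjQ (rot qK t) qJ = Real.cos t • qJ - Real.sin t • qI := by
  have := conj_rot_gen (a := qK) (b := qJ) (c := -qI) isImUnit_K qK_mul_qJ
    (by rw [neg_neg, qJ_mul_qK]) (by rw [neg_mul, qI_mul_qK, neg_neg]) t
  rw [this]; module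

theorem conj_rotI_J (t : ℝ) : conjQ (rot qI t) qJ = Real.cos t • qJ + Real.sin t • qK :=
  conj_rot_gen isImUnit_I qI_mul_qJ qJ_mul_qI qK_mul_qI t

theorem conj_rotI_K (t : ℝ) : conjQ (rot qI t) qK = Real.cos t • qK - Real.sin t • qJ := by
  have := conj_rot_gen (a := qI) (b := qK) (c := -qJ) isImUnit_I qI_mul_qK
    (by rw [neg_neg, qK_mul_qI]) (by rw [neg_mul, qJ_mul_qI, neg_neg]) t
  rw [this]; module

/-- the three frame vectors -/
noncomputable def fu (x : ℍ) : E3 := fr qI x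
noncomputable def fv (x : ℍ) : E3 := fr qJ x
noncomputable def fe (x : ℍ) : E3 := fr qK x

theorem fu_rotK (x : ℍ) (t : ℝ) :
    fu (x * rot qK t) = Real.cos t • fu x + Real.sin t • fv x := by
  rw [fu, fr_mul, conj_rotK_I, fr_add, fr_smul, fr_smul]; rfl

theorem fv_rotK (x : ℍ) (t : ℝ) :
    fv (x * rot qK t) = Real.cos t • fv x - Real.sin t • fu x := by
  rw [fv, fr_mul, conj_rotK_J, sub_eq_add_neg, ← neg_smul, fr_add, fr_smul, fr_smul,
    neg_smul, ← sub_eq_add_neg]
  rfl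

theorem fu_rotI (x : ℍ) (t : ℝ) : fu (x * rot qI t) = fu x := by
  rw [fu, fr_mul, conj_rot_self isImUnit_I]; rfl

theorem fv_rotI (x : ℍ) (t : ℝ) :
    fv (x * rot qI t) = Real.cos t • fv x + Real.sin t • fe x := by
  rw [fv, fr_mul, conj_rotI_J, fr_add, fr_smul, fr_smul]; rfl

theorem fe_rotI (x : ℍ) (t : ℝ) :
    fe (x * rot qI t) = Real.cos t • fe x - Real.sin t • fv x := by
  rw [fe, fr_mul, conj_rotI_K, sub_eq_add_neg, ← neg_smul, fr_add, fr_smul, fr_smul,
    neg_smul, ← sub_eq_add_neg]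
  rfl

theorem inner_II : inner ℝ qI qI = (1:ℝ) := by
  rw [real_inner_self_eq_norm_sq, isImUnit_I.norm_eq]; norm_num
theorem inner_JJ : inner ℝ qJ qJ = (1:ℝ) := by
  rw [real_inner_self_eq_norm_sq, isImUnit_J.norm_eq]; norm_num
theorem inner_KK : inner ℝ qK qK = (1:ℝ) := by
  rw [real_inner_self_eq_norm_sq, isImUnit_K.norm_eq]; norm_num
theorem inner_IJ : inner ℝ qI qJ = (0:ℝ) := by
  rw [Quaternion.inner_def, isImUnit_J.star_eq, mul_neg, qI_mul_qJ, Quaternion.re_neg, qK_re,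
    neg_zero]
theorem inner_IK : inner ℝ qI qK = (0:ℝ) := by
  rw [Quaternion.inner_def, isImUnit_K.star_eq, mul_neg, qI_mul_qK, neg_neg, qJ_re]
theorem inner_JK : inner ℝ qJ qK = (0:ℝ) := by
  rw [Quaternion.inner_def, isImUnit_K.star_eq, mul_neg, qJ_mul_qK, Quaternion.re_neg, qI_re,
    neg_zero]

theorem norm_fu {x : ℍ} (hx : x ≠ 0) : ‖fu x‖ = 1 := by
  rw [fu, norm_fr hx qI_re, isImUnit_I.norm_eq]
theorem norm_fv {x : ℍ} (hx : x ≠ 0) : ‖fv x‖ = 1 := by
  rw [fv, norm_fr hx qJ_re, isImUnit_J.norm_eq]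
theorem norm_fe {x : ℍ} (hx : x ≠ 0) : ‖fe x‖ = 1 := by
  rw [fe, norm_fr hx qK_re, isImUnit_K.norm_eq]
theorem inner_fu_fv {x : ℍ} (hx : x ≠ 0) : inner ℝ (fu x) (fv x) = (0:ℝ) := by
  rw [fu, fv, inner_fr hx qI_re, inner_IJ]
theorem inner_fu_fe {x : ℍ} (hx : x ≠ 0) : inner ℝ (fu x) (fe x) = (0:ℝ) := by
  rw [fu, fe, inner_fr hx qI_re, inner_IK]
theorem inner_fv_fe {x : ℍ} (hx : x ≠ 0) : inner ℝ (fv x) (fe x) = (0:ℝ) := by
  rw [fv, fe, inner_fr hx qJ_re, inner_JK]

theorem fu_K (x : ℍ) : fu (x * qK) = - fu x := by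
  have := fu_rotK x π
  rw [rot_pi] at this
  simpa using this
theorem fv_K (x : ℍ) : fv (x * qK) = - fv x := by
  have := fv_rotK x π
  rw [rot_pi] at this
  simpa using this
theorem fe_K (x : ℍ) : fe (x * qK) = fe x := by
  have h : conjQ qK qK = qK := by
    have := conj_rot_self isImUnit_K π
    rwa [rot_pi] at this
  rw [fe, fr_mul, h]; rfl

/-- every unit vector occurs as first vector of a frame, with `x` in the open shell -/
theorem exists_fu {u : E3} (hu : ‖u‖ = 1) : ∃ x : ℍ, 1 < ‖x‖ ∧ ‖x‖ < 2 ∧ fu x = u := by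
  -- the quaternion corresponding to `u`
  let p : ℍ := ⟨0, u 0, u 1, u 2⟩
  have hp3 : im3 p = u := by
    rw [im3_apply]
    ext i
    fin_cases i <;> rfl
  have hpn : ‖p‖ = 1 := by
    have h1 := inner_im3 p p rfl
    rw [hp3, real_inner_self_eq_norm_sq, real_inner_self_eq_norm_sq, hu] at h1
    have h2 := norm_nonneg p
    nlinarith
  have hpp : p * p = -1 := by
    have h1 : p * star p = 1 := by
      rw [Quaternion.self_mul_star, Quaternion.normSq_eq_norm_mul_self, hpn]; simp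
    have h2 : star p = -p := by
      apply Quaternion.ext <;> simp [Quaternion.re_star]; simp [p]
    rw [h2, mul_neg] at h1
    rw [← h1, neg_neg]
  -- find a nonzero `y` with `y * I = p * y`
  obtain ⟨y, hy0, hy⟩ : ∃ y : ℍ, y ≠ 0 ∧ y * qI = p * y := by
    by_cases h : p + qI = 0
    · refine ⟨qJ, ?_, ?_⟩
      · intro h0
        have := isImUnit_J.norm_eq
        simp [h0] at this
      · have : p = -qI := by rwa [← add_eq_zero_iff_eq_neg]
        rw [this, neg_mul, qI_mul_qJ, qJ_mul_qI]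
    · refine ⟨p + qI, h, ?_⟩
      rw [add_mul, mul_add, isImUnit_I.sq, hpp, add_comm]
  have hyn : 0 < ‖y‖ := norm_pos_iff.2 hy0
  refine ⟨(3 / 2 / ‖y‖) • y, ?_, ?_, ?_⟩
  · rw [norm_smul, Real.norm_eq_abs, abs_of_pos (by positivity)]
    field_simp; norm_num
  · rw [norm_smul, Real.norm_eq_abs, abs_of_pos (by positivity)]
    field_simp; norm_num
  · have h1 : conjQ ((3 / 2 / ‖y‖) • y) qI = p := by
      have hne : (3 / 2 / ‖y‖) • y ≠ 0 := smul_ne_zero (by positivity) hy0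
      rw [conjQ, mul_inv_eq_iff_eq_mul₀ hne, smul_mul_assoc, mul_smul_comm, hy]
    rw [fu, fr, h1, hp3]

end Pool.Agent.MP85963d
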