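import Mathlib
import Pool.Agent.Lib.MP_85963d_gt.Frames

/-!
# The algebra of smooth even 0-homogeneous functions on the quaternions without the origin

Common definitions of the project.
-/

set_option autoImplicit false

open MeasureTheory Set Filter Topology Quaternion
open scoped Real ContDiff

namespace Pool.Agent.MP85963d

/-- the non-zero quaternions -/
abbrev Q0 : Type := {x : ℍ // x ≠ 0}

/-- extension by zero at the origin -/
noncomputable def ext0 (F : Q0 → ℝ) (x : ℍ) : ℝ := by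
  classical exact if h : x ≠ 0 then F ⟨x, h⟩ else 0

theorem ext0_of_ne {F : Q0 → ℝ} {x : ℍ} (h : x ≠ 0) : ext0 F x = F ⟨x, h⟩ := by
  simp [ext0, h]

theorem ext0_zero (F : Q0 → ℝ) : ext0 F 0 = 0 := by
  simp [ext0]

theorem ext0_coe (F : Q0 → ℝ) (x : Q0) : ext0 F x.1 = F x := ext0_of_ne x.2

theorem smul_ne0 {r : ℝ} {x : ℍ} (hr : r ≠ 0) (hx : x ≠ 0) : r • x ≠ 0 := smul_ne_zero hr hx

/-- smooth functions on the non-zero quaternions, invariant under `x ↦ r x` for real `r ≠ 0` -/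
def SFalg : Subalgebra ℝ (Q0 → ℝ) where
  carrier := {F | ContDiffOn ℝ ∞ (ext0 F) {0}ᶜ ∧
    ∀ (r : ℝ) (x : ℍ), r ≠ 0 → ext0 F (r • x) = ext0 F x}
  mul_mem' := by
    rintro F G ⟨hF, hF'⟩ ⟨hG, hG'⟩
    have e : ext0 (F * G) = ext0 F * ext0 G := by
      funext x
      by_cases hx : x = 0
      · subst hx; simp [ext0_zero]
      · simp [ext0_of_ne hx]
    refine ⟨by rw [e]; exact hF.mul hG, fun r x hr => ?_⟩
    rw [e]; simp [hF' r x hr, hG' r x hr]
  add_mem' := by
    rintro F G ⟨hF, hF'⟩ ⟨hG, hG'⟩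
    have e : ext0 (F + G) = ext0 F + ext0 G := by
      funext x
      by_cases hx : x = 0
      · subst hx; simp [ext0_zero]
      · simp [ext0_of_ne hx]
    refine ⟨by rw [e]; exact hF.add hG, fun r x hr => ?_⟩
    rw [e]; simp [hF' r x hr, hG' r x hr]
  algebraMap_mem' := by
    intro c
    refine ⟨?_, fun r x hr => ?_⟩
    · have : ContDiffOn ℝ ∞ (fun _ : ℍ => c) {0}ᶜ := contDiffOn_const
      refine this.congr fun x hx => ?_
      rw [ext0_of_ne hx]; rfl
    · by_cases hx : x = 0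
      · subst hx; simp
      · rw [ext0_of_ne hx, ext0_of_ne (smul_ne0 hr hx)]; rfl

/-- smooth even 0-homogeneous functions -/
abbrev SF : Type := SFalg

/-- the function on `ℍ` (with value `0` at `0`) given by an element of `SF` -/
noncomputable def SF.ev (F : SF) (x : ℍ) : ℝ := ext0 F.1 x

noncomputable instance : CoeFun SF (fun _ => ℍ → ℝ) := ⟨SF.ev⟩

namespace SF

theorem ev_of_ne (F : SF) {x : ℍ} (hx : x ≠ 0) : F x = F.1 ⟨x, hx⟩ := ext0_of_ne hx

theorem smooth (F : SF) : ContDiffOn ℝ ∞ F {0}ᶜ := F.2.1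

theorem hom (F : SF) {r : ℝ} (hr : r ≠ 0) (x : ℍ) : F (r • x) = F x := F.2.2 r x hr

theorem map_zero' (F : SF) : F (0 : ℍ) = 0 := ext0_zero _

theorem even (F : SF) (x : ℍ) : F (-x) = F x := by
  have := F.hom (r := -1) (by norm_num) x
  simpa using this

theorem contDiffOn (F : SF) (n : ℕ) : ContDiffOn ℝ n F {0}ᶜ :=
  F.smooth.of_le (by exact_mod_cast le_top)

theorem continuousOn (F : SF) : ContinuousOn F {0}ᶜ := F.smooth.continuousOn

theorem differentiableAt (F : SF) {x : ℍ} (hx : x ≠ 0) : DifferentiableAt ℝ F x :=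
  (F.smooth.differentiableOn (by simp)).differentiableAt (isOpen_ne.mem_nhds hx)

theorem hasFDerivAt (F : SF) {x : ℍ} (hx : x ≠ 0) : HasFDerivAt F (fderiv ℝ F x) x :=
  (F.differentiableAt hx).hasFDerivAt

@[ext] theorem ext' {F G : SF} (h : ∀ x : ℍ, x ≠ 0 → F x = G x) : F = G := by
  apply Subtype.ext
  funext x
  have := h x.1 x.2
  rwa [ev_of_ne F x.2, ev_of_ne G x.2] at this

@[simp] theorem add_apply (F G : SF) (x : ℍ) : (F + G) x = F x + G x := by
  by_cases hx : x = 0
  · subst hx; simp [map_zero']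
  · rw [ev_of_ne _ hx, ev_of_ne _ hx, ev_of_ne _ hx]; rfl

@[simp] theorem mul_apply (F G : SF) (x : ℍ) : (F * G) x = F x * G x := by
  by_cases hx : x = 0
  · subst hx; simp [map_zero']
  · rw [ev_of_ne _ hx, ev_of_ne _ hx, ev_of_ne _ hx]; rfl

@[simp] theorem neg_apply (F : SF) (x : ℍ) : (-F) x = - F x := by
  by_cases hx : x = 0
  · subst hx; simp [map_zero']
  · rw [ev_of_ne _ hx, ev_of_ne _ hx]; rfl

@[simp] theorem sub_apply (F G : SF) (x : ℍ) : (F - G) x = F x - G x := by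
  rw [sub_eq_add_neg, add_apply, neg_apply, sub_eq_add_neg]

@[simp] theorem smul_apply (c : ℝ) (F : SF) (x : ℍ) : (c • F) x = c * F x := by
  by_cases hx : x = 0
  · subst hx; simp [map_zero']
  · rw [ev_of_ne _ hx, ev_of_ne _ hx]; rfl

@[simp] theorem zero_apply (x : ℍ) : (0 : SF) x = 0 := by
  by_cases hx : x = 0
  · subst hx; simp [map_zero']
  · rw [ev_of_ne _ hx]; rfl

theorem one_apply {x : ℍ} (hx : x ≠ 0) : (1 : SF) x = 1 := by
  rw [ev_of_ne _ hx]; rfl

theorem algebraMap_apply (c : ℝ) {x : ℍ} (hx : x ≠ 0) : (algebraMap ℝ SF c) x = c := by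
  rw [ev_of_ne _ hx]; rfl

theorem pow_apply (F : SF) (n : ℕ) {x : ℍ} (hx : x ≠ 0) : (F ^ n) x = F x ^ n := by
  induction n with
  | zero => simp [one_apply hx]
  | succ n ih => rw [pow_succ, mul_apply, ih, pow_succ]

theorem sum_apply {ι : Type*} (s : Finset ι) (F : ι → SF) (x : ℍ) :
    (∑ i ∈ s, F i) x = ∑ i ∈ s, F i x := by
  classical
  induction s using Finset.induction_on with
  | empty => simp [zero_apply]
  | insert a s ha ih => rw [Finset.sum_insert ha, add_apply, ih, Finset.sum_insert ha]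

/-- constructor: a smooth 0-homogeneous even function off the origin -/
noncomputable def of (f : ℍ → ℝ) (hs : ContDiffOn ℝ ∞ f {0}ᶜ)
    (hh : ∀ (r : ℝ) (x : ℍ), r ≠ 0 → x ≠ 0 → f (r • x) = f x) : SF :=
  ⟨fun x => f x.1, by
    refine ⟨hs.congr fun x hx => by rw [ext0_of_ne hx], fun r x hr => ?_⟩
    by_cases hx : x = 0
    · subst hx; simp
    · rw [ext0_of_ne hx, ext0_of_ne (smul_ne0 hr hx)]
      exact hh r x hr hx⟩

theorem of_apply {f : ℍ → ℝ} {hs : ContDiffOn ℝ ∞ f {0}ᶜ}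
    {hh : ∀ (r : ℝ) (x : ℍ), r ≠ 0 → x ≠ 0 → f (r • x) = f x} {x : ℍ} (hx : x ≠ 0) :
    (of f hs hh) x = f x := by
  rw [of, ev_of_ne _ hx]

/-- the derivative of a homogeneous function -/
theorem fderiv_smul (F : SF) {r : ℝ} (hr : r ≠ 0) {x : ℍ} (hx : x ≠ 0) (v : ℍ) :
    fderiv ℝ F (r • x) (r • v) = fderiv ℝ F x v := by
  have h1 : HasFDerivAt F (fderiv ℝ F (r • x)) (r • x) := F.hasFDerivAt (smul_ne0 hr hx)
  have h2 : HasFDerivAt (fun y : ℍ => r • y) (r • ContinuousLinearMap.id ℝ ℍ) x :=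
    (hasFDerivAt_id x).const_smul r
  have h3 := h1.comp x h2
  have e : (F : ℍ → ℝ) ∘ (fun y : ℍ => r • y) = F := by
    funext y; exact F.hom hr y
  rw [e] at h3
  rw [h3.fderiv]
  simp

theorem fderiv_contDiffOn (F : SF) : ContDiffOn ℝ ∞ (fderiv ℝ F) {0}ᶜ :=
  F.smooth.fderiv_of_isOpen isOpen_ne (by simp)

/-- Euler's relation -/
theorem fderiv_self (F : SF) {x : ℍ} (hx : x ≠ 0) : fderiv ℝ F x x = 0 := by
  have h1 : HasFDerivAt F (fderiv ℝ F x) ((1:ℝ) • x) := by
    rw [one_smul]; exact F.hasFDerivAt hx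
  have h2 : HasDerivAt (fun r : ℝ => r • x) ((1:ℝ) • x) 1 := (hasDerivAt_id (1:ℝ)).smul_const x
  have h3 : HasDerivAt (fun r : ℝ => F (r • x)) (fderiv ℝ F x ((1:ℝ) • x)) 1 :=
    HasFDerivAt.comp_hasDerivAt (1:ℝ) h1 h2
  have h4 : HasDerivAt (fun r : ℝ => F (r • x)) 0 1 := by
    apply (hasDerivAt_const (1:ℝ) (F x)).congr_of_eventuallyEq
    filter_upwards [(isOpen_compl_singleton (x := (0:ℝ))).mem_nhds
      (show (1:ℝ) ∈ ({0}ᶜ : Set ℝ) by simp)] with r hr
    exact F.hom hr x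
  have := h3.unique h4
  simpa using this

/-- right derivation: `(R a F)(x) = dF_x (x a)` -/
noncomputable def R (a : ℍ) : Derivation ℝ SF SF :=
  Derivation.mk'
    { toFun := fun F => of (fun x => fderiv ℝ F x (x * a))
        (F.fderiv_contDiffOn.clm_apply (by fun_prop))
        (fun r x hr hx => by rw [smul_mul_assoc]; exact F.fderiv_smul hr hx _)
      map_add' := fun F G => by
        apply ext'
        intro x hx
        have e : ((F + G : SF) : ℍ → ℝ) = (F : ℍ → ℝ) + (G : ℍ → ℝ) := by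
          funext y; exact add_apply F G y
        rw [add_apply, of_apply hx, of_apply hx, of_apply hx, e,
          fderiv_add (F.differentiableAt hx) (G.differentiableAt hx)]
        rfl
      map_smul' := fun c F => by
        apply ext'
        intro x hx
        have e : ((c • F : SF) : ℍ → ℝ) = c • (F : ℍ → ℝ) := by
          funext y; exact smul_apply c F y
        rw [RingHom.id_apply, smul_apply, of_apply hx, of_apply hx, e,
          fderiv_const_smul (F.differentiableAt hx)]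
        rfl }
    (fun F G => by
      apply ext'
      intro x hx
      have e : ((F * G : SF) : ℍ → ℝ) = (F : ℍ → ℝ) * (G : ℍ → ℝ) := by
        funext y; exact mul_apply F G y
      simp only [LinearMap.coe_mk, AddHom.coe_mk, smul_eq_mul]
      rw [add_apply, mul_apply, mul_apply, of_apply hx, of_apply hx, of_apply hx, e,
        fderiv_mul (F.differentiableAt hx) (G.differentiableAt hx)]
      rfl)

/-- left derivation: `(Z a F)(x) = dF_x (a x)` -/
noncomputable def Z (a : ℍ) : Derivation ℝ SF SF :=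
  Derivation.mk'
    { toFun := fun F => of (fun x => fderiv ℝ F x (a * x))
        (F.fderiv_contDiffOn.clm_apply (by fun_prop))
        (fun r x hr hx => by rw [mul_smul_comm]; exact F.fderiv_smul hr hx _)
      map_add' := fun F G => by
        apply ext'
        intro x hx
        have e : ((F + G : SF) : ℍ → ℝ) = (F : ℍ → ℝ) + (G : ℍ → ℝ) := by
          funext y; exact add_apply F G y
        rw [add_apply, of_apply hx, of_apply hx, of_apply hx, e,
          fderiv_add (F.differentiableAt hx) (G.differentiableAt hx)]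
        rfl
      map_smul' := fun c F => by
        apply ext'
        intro x hx
        have e : ((c • F : SF) : ℍ → ℝ) = c • (F : ℍ → ℝ) := by
          funext y; exact smul_apply c F y
        rw [RingHom.id_apply, smul_apply, of_apply hx, of_apply hx, e,
          fderiv_const_smul (F.differentiableAt hx)]
        rfl }
    (fun F G => by
      apply ext'
      intro x hx
      have e : ((F * G : SF) : ℍ → ℝ) = (F : ℍ → ℝ) * (G : ℍ → ℝ) := by
        funext y; exact mul_apply F G y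
      simp only [LinearMap.coe_mk, AddHom.coe_mk, smul_eq_mul]
      rw [add_apply, mul_apply, mul_apply, of_apply hx, of_apply hx, of_apply hx, e,
        fderiv_mul (F.differentiableAt hx) (G.differentiableAt hx)]
      rfl)

theorem R_apply (a : ℍ) (F : SF) (x : ℍ) : (R a F) x = fderiv ℝ F x (x * a) := by
  by_cases hx : x = 0
  · subst hx; rw [map_zero', zero_mul, map_zero]
  · exact of_apply hx

theorem Z_apply (a : ℍ) (F : SF) (x : ℍ) : (Z a F) x = fderiv ℝ F x (a * x) := by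
  by_cases hx : x = 0
  · subst hx; rw [map_zero', mul_zero, map_zero]
  · exact of_apply hx

/-! ### commutation relations -/

theorem coe_R (a : ℍ) (F : SF) : ((R a F : SF) : ℍ → ℝ) = L a F := funext (R_apply a F)

theorem R_comm (a b : ℍ) (F : SF) : R a (R b F) - R b (R a F) = R (a * b - b * a) F := by
  apply ext'
  intro x hx
  rw [sub_apply, coe_R a, coe_R b, coe_R b, coe_R a, coe_R (a * b - b * a)]
  exact L_comm a b (F.contDiffOn 2) hx

/-- second derivatives along two linear fields -/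
theorem second_apply (F : SF) (A B : ℍ →L[ℝ] ℍ) {x : ℍ} (hx : x ≠ 0) :
    fderiv ℝ (fun y => fderiv ℝ F y (B y)) x (A x)
      = fderiv ℝ (fderiv ℝ F) x (A x) (B x) + fderiv ℝ F x (B (A x)) := by
  have h1 : ContDiffOn ℝ 1 (fderiv ℝ F) {0}ᶜ :=
    (F.fderiv_contDiffOn).of_le (by exact_mod_cast le_top)
  have h2 : HasFDerivAt (fderiv ℝ F) (fderiv ℝ (fderiv ℝ F) x) x :=
    ((h1.differentiableOn (by norm_num)).differentiableAt (isOpen_ne.mem_nhds hx)).hasFDerivAt
  have h4 := h2.clm_apply (B.hasFDerivAt (x := x))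
  rw [h4.fderiv]
  simp [add_comm]

theorem second_symm (F : SF) {x : ℍ} (hx : x ≠ 0) (v w : ℍ) :
    fderiv ℝ (fderiv ℝ F) x v w = fderiv ℝ (fderiv ℝ F) x w v := by
  have hU' : ContDiffAt ℝ 2 F x := (F.contDiffOn 2).contDiffAt (isOpen_ne.mem_nhds hx)
  exact hU'.isSymmSndFDerivAt (by simp) v w

/-- right multiplication as a continuous linear map -/
noncomputable def rm (a : ℍ) : ℍ →L[ℝ] ℍ := (ContinuousLinearMap.mul ℝ ℍ).flip a

/-- left multiplication as a continuous linear map -/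
noncomputable def lm (a : ℍ) : ℍ →L[ℝ] ℍ := ContinuousLinearMap.mul ℝ ℍ a

@[simp] theorem rm_apply (a x : ℍ) : rm a x = x * a := rfl
@[simp] theorem lm_apply (a x : ℍ) : lm a x = a * x := rfl

theorem coe_Z (a : ℍ) (F : SF) : ((Z a F : SF) : ℍ → ℝ) = fun x => fderiv ℝ F x (lm a x) :=
  funext (Z_apply a F)

theorem coe_R' (a : ℍ) (F : SF) : ((R a F : SF) : ℍ → ℝ) = fun x => fderiv ℝ F x (rm a x) :=
  funext (R_apply a F)

theorem Z_Z_apply (a b : ℍ) (F : SF) {x : ℍ} (hx : x ≠ 0) :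
    (Z a (Z b F)) x = fderiv ℝ (fderiv ℝ F) x (a * x) (b * x) + fderiv ℝ F x (b * (a * x)) := by
  rw [Z_apply, coe_Z]
  exact second_apply F (lm a) (lm b) hx

theorem R_R_apply (a b : ℍ) (F : SF) {x : ℍ} (hx : x ≠ 0) :
    (R a (R b F)) x = fderiv ℝ (fderiv ℝ F) x (x * a) (x * b) + fderiv ℝ F x (x * a * b) := by
  rw [R_apply, coe_R']
  exact second_apply F (rm a) (rm b) hx

theorem Z_comm (a b : ℍ) (F : SF) : Z a (Z b F) - Z b (Z a F) = Z (b * a - a * b) F := by
  apply ext'
  intro x hx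
  rw [sub_apply, Z_Z_apply a b F hx, Z_Z_apply b a F hx, Z_apply, second_symm F hx (b * x) (a * x),
    sub_mul, map_sub, mul_assoc, mul_assoc]
  ring

theorem R_Z_comm (a b : ℍ) (F : SF) : R a (Z b F) = Z b (R a F) := by
  apply ext'
  intro x hx
  have h1 : (R a (Z b F)) x = fderiv ℝ (fderiv ℝ F) x (x * a) (b * x)
      + fderiv ℝ F x (b * (x * a)) := by
    rw [R_apply, coe_Z]
    exact second_apply F (rm a) (lm b) hx
  have h2 : (Z b (R a F)) x = fderiv ℝ (fderiv ℝ F) x (b * x) (x * a)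
      + fderiv ℝ F x (b * x * a) := by
    rw [Z_apply, coe_R']
    exact second_apply F (lm b) (rm a) hx
  rw [h1, h2, second_symm F hx (x * a) (b * x), mul_assoc]

theorem R_add (a b : ℍ) (F : SF) : R (a + b) F = R a F + R b F := by
  apply ext'; intro x _
  simp only [add_apply, R_apply, mul_add, map_add]

theorem R_smul (r : ℝ) (a : ℍ) (F : SF) : R (r • a) F = r • R a F := by
  apply ext'; intro x _
  simp only [smul_apply, R_apply, mul_smul_comm, map_smul, smul_eq_mul]

theorem R_neg (a : ℍ) (F : SF) : R (-a) F = - R a F := by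
  apply ext'; intro x _
  simp only [neg_apply, R_apply, mul_neg, map_neg]

theorem Z_add (a b : ℍ) (F : SF) : Z (a + b) F = Z a F + Z b F := by
  apply ext'; intro x _
  simp only [add_apply, Z_apply, add_mul, map_add]

theorem Z_smul (r : ℝ) (a : ℍ) (F : SF) : Z (r • a) F = r • Z a F := by
  apply ext'; intro x _
  simp only [smul_apply, Z_apply, smul_mul_assoc, map_smul, smul_eq_mul]

theorem Z_neg (a : ℍ) (F : SF) : Z (-a) F = - Z a F := by
  apply ext'; intro x _
  simp only [neg_apply, Z_apply, neg_mul, map_neg]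

/-! ### the named fields -/

/-- `X = d/dt F(x rot(k,t))` : `X u = v`, `X v = -u`, `X e = 0` -/
noncomputable def DX : Derivation ℝ SF SF := R ((1 / 2 : ℝ) • qK)
/-- `V = d/dt F(x rot(i,t))` : `V v = e`, `V e = -v`, `V u = 0` -/
noncomputable def DV : Derivation ℝ SF SF := R ((1 / 2 : ℝ) • qI)
/-- `H = d/dt F(x rot(-j,t))` : `H u = e`, `H e = -u`, `H v = 0` -/
noncomputable def DH : Derivation ℝ SF SF := R (-((1 / 2 : ℝ) • qJ))

/-- the three imaginary units -/
def qU : Fin 3 → ℍ := ![qI, qJ, qK]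

/-- left fields `Z_a F(x) = d/dt F(rot(a,t) x)`, `a = i, j, k` -/
noncomputable def DZ (a : Fin 3) : Derivation ℝ SF SF := Z ((1 / 2 : ℝ) • qU a)

theorem DX_DV (F : SF) : DX (DV F) - DV (DX F) = - DH F := by
  rw [DX, DV, DH, R_comm, ← R_neg]
  congr 2
  simp only [smul_mul_smul_comm, qK_mul_qI, qI_mul_qK]
  module

theorem DX_DH (F : SF) : DX (DH F) - DH (DX F) = DV F := by
  rw [DX, DV, DH, R_comm]
  congr 2
  simp only [mul_neg, neg_mul, smul_mul_smul_comm, qK_mul_qJ, qJ_mul_qK]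
  module

theorem DV_DH (F : SF) : DV (DH F) - DH (DV F) = - DX F := by
  rw [DX, DV, DH, R_comm, ← R_neg]
  congr 2
  simp only [mul_neg, neg_mul, smul_mul_smul_comm, qI_mul_qJ, qJ_mul_qI]
  module

theorem DX_DZ (a : Fin 3) (F : SF) : DX (DZ a F) = DZ a (DX F) := R_Z_comm _ _ _
theorem DV_DZ (a : Fin 3) (F : SF) : DV (DZ a F) = DZ a (DV F) := R_Z_comm _ _ _
theorem DH_DZ (a : Fin 3) (F : SF) : DH (DZ a F) = DZ a (DH F) := R_Z_comm _ _ _

theorem DZ_01 (F : SF) : DZ 0 (DZ 1 F) - DZ 1 (DZ 0 F) = - DZ 2 F := by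
  simp only [DZ]
  rw [Z_comm, ← Z_neg]
  congr 2
  simp only [qU, Matrix.cons_val_zero, Matrix.cons_val_one, Matrix.cons_val_two,
    Matrix.tail_cons, Matrix.head_cons, smul_mul_smul_comm, qI_mul_qJ, qJ_mul_qI]
  module

theorem DZ_12 (F : SF) : DZ 1 (DZ 2 F) - DZ 2 (DZ 1 F) = - DZ 0 F := by
  simp only [DZ]
  rw [Z_comm, ← Z_neg]
  congr 2
  simp only [qU, Matrix.cons_val_zero, Matrix.cons_val_one, Matrix.cons_val_two,
    Matrix.tail_cons, Matrix.head_cons, smul_mul_smul_comm, qJ_mul_qK, qK_mul_qJ]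
  module

theorem DZ_20 (F : SF) : DZ 2 (DZ 0 F) - DZ 0 (DZ 2 F) = - DZ 1 F := by
  simp only [DZ]
  rw [Z_comm, ← Z_neg]
  congr 2
  simp only [qU, Matrix.cons_val_zero, Matrix.cons_val_one, Matrix.cons_val_two,
    Matrix.tail_cons, Matrix.head_cons, smul_mul_smul_comm, qK_mul_qI, qI_mul_qK]
  module

/-- the Casimir operator `Δ = Z_i² + Z_j² + Z_k²` -/
noncomputable def Lap : SF →ₗ[ℝ] SF :=
  ∑ a : Fin 3, (DZ a : SF →ₗ[ℝ] SF) ∘ₗ (DZ a : SF →ₗ[ℝ] SF)

theorem Lap_eq (F : SF) : Lap F = DZ 0 (DZ 0 F) + DZ 1 (DZ 1 F) + DZ 2 (DZ 2 F) := by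
  simp [Lap, Fin.sum_univ_three]

end SF

end Pool.Agent.MP85963d
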