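import Mathlib
import Pool.Agent.Lib.MP_85963d_gt.Defs

/-!
# Integration over the shell, skew-symmetry of the fields, function spaces
-/

set_option autoImplicit false

open MeasureTheory Set Filter Topology Quaternion
open scoped Real ContDiff

namespace Pool.Agent.MP85963d

/-- left multiplication by a unit quaternion -/
noncomputable def lmul (ρ : ℍ) (h : ‖ρ‖ = 1) : ℍ ≃ₗᵢ[ℝ] ℍ where
  toFun x := ρ * x
  invFun x := ρ⁻¹ * x
  map_add' x y := mul_add _ _ _
  map_smul' r x := mul_smul_comm _ _ _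
  left_inv x := by
    have : ρ ≠ 0 := fun h0 => by simp [h0] at h
    simp [this]
  right_inv x := by
    have : ρ ≠ 0 := fun h0 => by simp [h0] at h
    simp [this]
  norm_map' x := by
    change ‖ρ * x‖ = ‖x‖
    rw [norm_mul, h, one_mul]

theorem lmul_mem_shell {ρ : ℍ} (h : ‖ρ‖ = 1) {x : ℍ} : ρ * x ∈ shell ↔ x ∈ shell := by
  simp [shell, norm_mul, h]

/-- invariance of integrals over the shell under left multiplication -/
theorem integral_shell_lmul {ρ : ℍ} (h : ‖ρ‖ = 1) (f : ℍ → ℝ) :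
    ∫ x in shell, f (ρ * x) = ∫ x in shell, f x := by
  have h1 := (lmul ρ h).measurePreserving
  have h2 := h1.setIntegral_preimage_emb (lmul ρ h).toMeasurableEquiv.measurableEmbedding f shell
  have h3 : (lmul ρ h) ⁻¹' shell = shell := by
    ext x; exact lmul_mem_shell h
  rw [h3] at h2
  exact h2

theorem hasDerivAt_rot_left {a : ℍ} (h : IsImUnit a) (t : ℝ) :
    HasDerivAt (rot a) (((1 / 2 : ℝ) • a) * rot a t) t := by
  have := hasDerivAt_rot h t
  rwa [mul_smul_comm, ← rot_mul_comm, ← smul_mul_assoc] at this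

theorem lrot_ne_zero {a : ℍ} (h : IsImUnit a) {x : ℍ} (hx : x ≠ 0) (t : ℝ) : rot a t * x ≠ 0 :=
  mul_ne_zero (rot_ne_zero h t) hx

theorem rrot_ne_zero {a : ℍ} (h : IsImUnit a) {x : ℍ} (hx : x ≠ 0) (t : ℝ) : x * rot a t ≠ 0 :=
  mul_ne_zero hx (rot_ne_zero h t)

namespace SF

/-- the right fields are the derivatives along right rotations -/
theorem hasDerivAt_R {a : ℍ} (h : IsImUnit a) (F : SF) {x : ℍ} (hx : x ≠ 0) (t : ℝ) :
    HasDerivAt (fun t => F (x * rot a t)) ((R ((1 / 2 : ℝ) • a) F) (x * rot a t)) t := by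
  rw [R_apply]
  exact hasDerivAt_flow h (F.contDiffOn 1) hx t

/-- the left fields are the derivatives along left rotations -/
theorem hasDerivAt_Z {a : ℍ} (h : IsImUnit a) (F : SF) {x : ℍ} (hx : x ≠ 0) (t : ℝ) :
    HasDerivAt (fun t => F (rot a t * x)) ((Z ((1 / 2 : ℝ) • a) F) (rot a t * x)) t := by
  have h1 : HasFDerivAt F (fderiv ℝ F (rot a t * x)) (rot a t * x) :=
    F.hasFDerivAt (lrot_ne_zero h hx t)
  have h2 : HasDerivAt (fun t => rot a t * x) ((((1 / 2 : ℝ) • a) * rot a t) * x) t :=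
    (hasDerivAt_rot_left h t).mul_const x
  have h3 := HasFDerivAt.comp_hasDerivAt t h1 h2
  rw [Z_apply, ← mul_assoc]
  exact h3

theorem hasDerivAt_DX (F : SF) {x : ℍ} (hx : x ≠ 0) (t : ℝ) :
    HasDerivAt (fun t => F (x * rot qK t)) ((DX F) (x * rot qK t)) t :=
  hasDerivAt_R isImUnit_K F hx t

theorem hasDerivAt_DV (F : SF) {x : ℍ} (hx : x ≠ 0) (t : ℝ) :
    HasDerivAt (fun t => F (x * rot qI t)) ((DV F) (x * rot qI t)) t :=
  hasDerivAt_R isImUnit_I F hx t

theorem isImUnit_qU (a : Fin 3) : IsImUnit (qU a) := by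
  fin_cases a
  · exact isImUnit_I
  · exact isImUnit_J
  · exact isImUnit_K

theorem hasDerivAt_DZ (a : Fin 3) (F : SF) {x : ℍ} (hx : x ≠ 0) (t : ℝ) :
    HasDerivAt (fun t => F (rot (qU a) t * x)) ((DZ a F) (rot (qU a) t * x)) t :=
  hasDerivAt_Z (isImUnit_qU a) F hx t

theorem integrableOn (F : SF) : IntegrableOn F shell := integrableOn_shell F.continuousOn

end SF

/-- the bilinear pairing -/
noncomputable def ip (f g : ℍ → ℝ) : ℝ := ∫ x in shell, f x * g x

/-- the `L²` norm -/
noncomputable def nrm (f : ℍ → ℝ) : ℝ := Real.sqrt (∫ x in shell, f x ^ 2)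

theorem ip_comm (f g : ℍ → ℝ) : ip f g = ip g f := by
  simp only [ip, mul_comm]

theorem nrm_nonneg (f : ℍ → ℝ) : 0 ≤ nrm f := Real.sqrt_nonneg _

theorem nrm_sq (f : ℍ → ℝ) : nrm f ^ 2 = ∫ x in shell, f x ^ 2 :=
  Real.sq_sqrt (setIntegral_nonneg measurableSet_shell fun _ _ => sq_nonneg _)

theorem nrm_sq' (f : ℍ → ℝ) : nrm f ^ 2 = ip f f := by
  rw [nrm_sq, ip]; congr 1; funext x; ring

/-- Cauchy-Schwarz for functions continuous off the origin -/
theorem abs_ip_le {f g : ℍ → ℝ} (hf : ContinuousOn f {0}ᶜ) (hg : ContinuousOn g {0}ᶜ) :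
    |ip f g| ≤ nrm f * nrm g := by
  have i1 : IntegrableOn (fun x => f x ^ 2) shell := integrableOn_shell (hf.pow 2)
  have i2 : IntegrableOn (fun x => g x ^ 2) shell := integrableOn_shell (hg.pow 2)
  have i3 : IntegrableOn (fun x => f x * g x) shell := integrableOn_shell (hf.mul hg)
  have key : ∀ s : ℝ, 0 ≤ nrm f ^ 2 + s * (2 * ip f g) + s ^ 2 * nrm g ^ 2 := by
    intro s
    have h0 : 0 ≤ ∫ x in shell, (f x + s * g x) ^ 2 :=
      setIntegral_nonneg measurableSet_shell fun _ _ => sq_nonneg _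
    have h1 : ∫ x in shell, (f x + s * g x) ^ 2
        = (∫ x in shell, f x ^ 2) + s * (2 * ∫ x in shell, f x * g x)
          + s ^ 2 * ∫ x in shell, g x ^ 2 := by
      have j3 : IntegrableOn (fun x => s * (2 * (f x * g x))) shell :=
        (i3.const_mul 2).const_mul s
      have j2 : IntegrableOn (fun x => s ^ 2 * g x ^ 2) shell := i2.const_mul _
      have j1 : IntegrableOn (fun x => f x ^ 2 + s * (2 * (f x * g x))) shell := i1.add j3
      have e : (fun x => (f x + s * g x) ^ 2)
          = fun x => (f x ^ 2 + s * (2 * (f x * g x))) + s ^ 2 * g x ^ 2 := by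
        funext x; ring
      rw [e, integral_add j1 j2, integral_add i1 j3, integral_const_mul, integral_const_mul,
        integral_const_mul]
    rw [h1] at h0
    rw [nrm_sq, nrm_sq]
    exact h0
  have hd := discrim_le_zero (a := nrm g ^ 2) (b := 2 * ip f g) (c := nrm f ^ 2)
    (fun s => by have := key s; nlinarith)
  rw [discrim] at hd
  have h4 : (ip f g) ^ 2 ≤ (nrm f * nrm g) ^ 2 := by nlinarith
  exact abs_le_of_sq_le_sq h4 (mul_nonneg (nrm_nonneg _) (nrm_nonneg _))

namespace SF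

/-- integrals of left derivatives vanish -/
theorem integral_Z_eq_zero {a : ℍ} (h : IsImUnit a) (F : SF) :
    ∫ x in shell, (Z ((1 / 2 : ℝ) • a) F) x = 0 := by
  set G : SF := Z ((1 / 2 : ℝ) • a) F with hG
  obtain ⟨M, hM⟩ := isCompact_shell.exists_bound_of_continuousOn (G.continuousOn.mono shell_subset)
  have hfin : IsFiniteMeasure (volume.restrict shell) :=
    ⟨by simpa using isCompact_shell.measure_lt_top⟩
  have hcont : ∀ (F : SF) (t : ℝ), ContinuousOn (fun x => F (rot a t * x)) shell := by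
    intro F t
    apply F.continuousOn.comp (by fun_prop)
    intro x hx
    exact shell_subset ((lmul_mem_shell (norm_rot h t)).2 hx)
  have key := hasDerivAt_integral_of_dominated_loc_of_deriv_le
    (μ := volume.restrict shell) (F := fun t x => F (rot a t * x))
    (F' := fun t x => G (rot a t * x)) (x₀ := (0:ℝ)) (s := univ)
    (bound := fun _ => M) Filter.univ_mem
    (Eventually.of_forall fun t => (hcont F t).aestronglyMeasurable measurableSet_shell)
    ((hcont F 0).integrableOn_compact isCompact_shell)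
    ((hcont G 0).aestronglyMeasurable measurableSet_shell)
    (by
      rw [ae_restrict_iff' measurableSet_shell]
      refine Eventually.of_forall fun x hx t _ => hM _ ?_
      exact (lmul_mem_shell (norm_rot h t)).2 hx)
    (integrable_const M)
    (by
      rw [ae_restrict_iff' measurableSet_shell]
      exact Eventually.of_forall fun x hx t _ => hasDerivAt_Z h F (ne_zero_of_mem_shell hx) t)
  have hconst : (fun t => ∫ x in shell, F (rot a t * x)) = fun _ => ∫ x in shell, F x := by
    funext t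
    exact integral_shell_lmul (norm_rot h t) F
  have h2 := key.2
  rw [hconst] at h2
  have h3 := h2.unique (hasDerivAt_const 0 _)
  simpa [rot_zero] using h3

theorem integral_R_eq_zero {a : ℍ} (h : IsImUnit a) (F : SF) :
    ∫ x in shell, (R ((1 / 2 : ℝ) • a) F) x = 0 := by
  have := integral_L_eq_zero h (F.contDiffOn 1)
  rw [coe_R]; exact this

theorem ip_of_deriv (D : Derivation ℝ SF SF) (hD : ∀ F : SF, ∫ x in shell, (D F) x = 0)
    (F G : SF) : ip (D F) G = - ip F (D G) := by
  have h1 := hD (F * G)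
  have h2 : ((D (F * G) : SF) : ℍ → ℝ) = fun x => (D F) x * G x + F x * (D G) x := by
    funext x
    rw [Derivation.leibniz]
    simp only [add_apply, smul_eq_mul, mul_apply]
    ring
  rw [h2, integral_add] at h1
  · simp only [ip]; linarith
  · exact integrableOn_shell ((D F).continuousOn.mul G.continuousOn)
  · exact integrableOn_shell (F.continuousOn.mul (D G).continuousOn)

theorem integral_DX (F : SF) : ∫ x in shell, (DX F) x = 0 := integral_R_eq_zero isImUnit_K F
theorem integral_DV (F : SF) : ∫ x in shell, (DV F) x = 0 := integral_R_eq_zero isImUnit_I F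
theorem integral_DH (F : SF) : ∫ x in shell, (DH F) x = 0 := by
  have h := integral_R_eq_zero isImUnit_J F
  have e : ((DH F : SF) : ℍ → ℝ) = fun x => - (R ((1 / 2 : ℝ) • qJ) F) x := by
    funext x; rw [DH, R_neg, neg_apply]
  rw [e, integral_neg, h, neg_zero]
theorem integral_DZ (a : Fin 3) (F : SF) : ∫ x in shell, (DZ a F) x = 0 :=
  integral_Z_eq_zero (isImUnit_qU a) F

theorem ip_DX (F G : SF) : ip (DX F) G = - ip F (DX G) := ip_of_deriv _ integral_DX F G
theorem ip_DV (F G : SF) : ip (DV F) G = - ip F (DV G) := ip_of_deriv _ integral_DV F G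
theorem ip_DH (F G : SF) : ip (DH F) G = - ip F (DH G) := ip_of_deriv _ integral_DH F G
theorem ip_DZ (a : Fin 3) (F G : SF) : ip (DZ a F) G = - ip F (DZ a G) :=
  ip_of_deriv _ (integral_DZ a) F G

theorem ip_add_left (F G K : SF) : ip (F + G : SF) K = ip F K + ip G K := by
  simp only [ip, add_apply, add_mul]
  exact integral_add (integrableOn_shell (F.continuousOn.mul K.continuousOn))
    (integrableOn_shell (G.continuousOn.mul K.continuousOn))

theorem ip_smul_left (c : ℝ) (F K : SF) : ip (c • F : SF) K = c * ip F K := by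
  simp only [ip, smul_apply, mul_assoc]
  exact integral_const_mul _ _

theorem ip_neg_left (F K : SF) : ip (-F : SF) K = - ip F K := by
  simp only [ip, neg_apply, neg_mul, integral_neg]

theorem ip_add_right (F G K : SF) : ip K (F + G : SF) = ip K F + ip K G := by
  rw [ip_comm, ip_add_left, ip_comm F, ip_comm G]

theorem ip_smul_right (c : ℝ) (F K : SF) : ip K (c • F : SF) = c * ip K F := by
  rw [ip_comm, ip_smul_left, ip_comm F]

theorem ip_neg_right (F K : SF) : ip K (-F : SF) = - ip K F := by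
  rw [ip_comm, ip_neg_left, ip_comm F]

/-- the `L²` norm is definite on `SF` -/
theorem eq_zero_of_nrm {F : SF} (h : nrm F = 0) : F = 0 := by
  have h0 : ∫ x in shell, F x ^ 2 = 0 := by rw [← nrm_sq, h]; ring
  have iF : IntegrableOn (fun x => F x ^ 2) shell := integrableOn_shell (F.continuousOn.pow 2)
  have h5 : (fun x => F x ^ 2) =ᵐ[volume.restrict shell] 0 := by
    rw [← setIntegral_eq_zero_iff_of_nonneg_ae (Eventually.of_forall fun x => sq_nonneg (F x)) iF]
    exact h0
  have hopen : IsOpen {y : ℍ | 1 < ‖y‖ ∧ ‖y‖ < 2} :=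
    (isOpen_lt continuous_const continuous_norm).inter (isOpen_lt continuous_norm continuous_const)
  have h6 : (fun x => F x ^ 2) =ᵐ[volume.restrict {y : ℍ | 1 < ‖y‖ ∧ ‖y‖ < 2}] 0 :=
    ae_restrict_of_ae_restrict_of_subset
      (fun y (hy : 1 < ‖y‖ ∧ ‖y‖ < 2) => (⟨hy.1.le, hy.2.le⟩ : 1 ≤ ‖y‖ ∧ ‖y‖ ≤ 2)) h5
  have hsub : {y : ℍ | 1 < ‖y‖ ∧ ‖y‖ < 2} ⊆ {0}ᶜ := by
    rintro y ⟨hy, _⟩ rfl
    simp at hy
    linarith
  have h7 := Measure.eqOn_open_of_ae_eq h6 hopen ((F.continuousOn.mono hsub).pow 2)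
    continuousOn_const
  apply ext'
  intro x hx
  have hn : ‖x‖ ≠ 0 := norm_ne_zero_iff.2 hx
  have hr : (3 / 2 / ‖x‖ : ℝ) ≠ 0 := by positivity
  have hmem : ((3 / 2 / ‖x‖ : ℝ) • x) ∈ {y : ℍ | 1 < ‖y‖ ∧ ‖y‖ < 2} := by
    have : ‖(3 / 2 / ‖x‖ : ℝ) • x‖ = 3 / 2 := by
      rw [norm_smul, Real.norm_of_nonneg (by positivity)]
      field_simp
    constructor <;> rw [this] <;> norm_num
  have h8 := h7 hmem
  have h9 : F ((3 / 2 / ‖x‖ : ℝ) • x) = 0 := by simpa using h8
  rw [zero_apply, ← h9, F.hom hr]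

end SF

end Pool.Agent.MP85963d
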