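import Mathlib
import Pool.Agent.Lib.MP_85963d_gt.Defs2

/-!
# Function spaces, modes, weights
-/

set_option autoImplicit false

open MeasureTheory Set Filter Topology Quaternion
open scoped Real ContDiff

namespace Pool.Agent.MP85963d

/-! ### symmetry classes of plain functions -/

/-- even functions of the frame vector `u` -/
structure IsU (f : ℍ → ℝ) : Prop where
  rotI : ∀ (x : ℍ) (t : ℝ), f (x * rot qI t) = f x
  mulK : ∀ x : ℍ, f (x * qK) = f x

/-- even functions of the frame vector `e` -/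
structure IsE (f : ℍ → ℝ) : Prop where
  rotK : ∀ (x : ℍ) (t : ℝ), f (x * rot qK t) = f x
  mulI : ∀ x : ℍ, f (x * qI) = f x

/-- invariance under right multiplication with `i`, `j`, `k` -/
structure IsKlein (f : ℍ → ℝ) : Prop where
  mulI : ∀ x : ℍ, f (x * qI) = f x
  mulK : ∀ x : ℍ, f (x * qK) = f x

/-- continuous 0-homogeneous even functions off the origin -/
structure Cts (f : ℍ → ℝ) : Prop where
  cont : ContinuousOn f {0}ᶜ
  hom : ∀ (r : ℝ) (x : ℍ), r ≠ 0 → x ≠ 0 → f (r • x) = f x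

/-- averages over the circles `x rot(k,t)` -/
noncomputable def avgK (f : ℍ → ℝ) (x : ℍ) : ℝ :=
  (1 / (2 * π)) * ∫ t in (0:ℝ)..(2 * π), f (x * rot qK t)

/-- averages over the circles `x rot(i,t)` -/
noncomputable def avgI (f : ℍ → ℝ) (x : ℍ) : ℝ :=
  (1 / (2 * π)) * ∫ t in (0:ℝ)..(2 * π), f (x * rot qI t)

/-- mode `k` with respect to rotations about the third axis, symmetric under the rotation by `π`
about the second axis -/
structure Mode (k : ℕ) (y : ℍ → ℝ) : Prop where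
  rot : ∀ (α : ℝ) (x : ℍ), y (rot qK α * x) + y (rot qK (-α) * x) = 2 * Real.cos (k * α) * y x
  mulJ : ∀ x : ℍ, y (qJ * x) = y x

/-- invariance under all left rotations about the third axis and under left multiplication by `j` -/
structure RotInv (y : ℍ → ℝ) : Prop where
  rot : ∀ (α : ℝ) (x : ℍ), y (rot qK α * x) = y x
  mulJ : ∀ x : ℍ, y (qJ * x) = y x

/-- the sector with the antisymmetry of angle `π/m` -/
structure InSec (m : ℕ) (y : ℍ → ℝ) : Prop where
  rot : ∀ x : ℍ, y (rot qK (π / m) * x) = - y x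
  mulJ : ∀ x : ℍ, y (qJ * x) = y x

/-! ### finite-dimensional spaces -/

/-- coordinates of a quaternion -/
def qc (x : ℍ) : Fin 4 → ℝ := ![x.re, x.imI, x.imJ, x.imK]

/-- `P(x)/|x|^{2n}` with `P` homogeneous of degree `2n` -/
def MN (n : ℕ) : Submodule ℝ SF where
  carrier := {F | ∃ P : MvPolynomial (Fin 4) ℝ, P.IsHomogeneous (2 * n) ∧
    ∀ x : ℍ, x ≠ 0 → F x = MvPolynomial.eval (qc x) P / ‖x‖ ^ (2 * n)}
  add_mem' := by
    rintro F G ⟨P, hP, hF⟩ ⟨Q, hQ, hG⟩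
    refine ⟨P + Q, hP.add hQ, fun x hx => ?_⟩
    rw [SF.add_apply, hF x hx, hG x hx, map_add, add_div]
  zero_mem' := ⟨0, MvPolynomial.isHomogeneous_zero _ _ _, fun x _ => by simp⟩
  smul_mem' := by
    rintro c F ⟨P, hP, hF⟩
    refine ⟨MvPolynomial.C c * P, by simpa using (MvPolynomial.isHomogeneous_C _ c).mul hP,
      fun x hx => ?_⟩
    rw [SF.smul_apply, hF x hx, map_mul, MvPolynomial.eval_C, mul_div_assoc]

theorem mem_MN {n : ℕ} {F : SF} : F ∈ MN n ↔ ∃ P : MvPolynomial (Fin 4) ℝ,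
    P.IsHomogeneous (2 * n) ∧
    ∀ x : ℍ, x ≠ 0 → F x = MvPolynomial.eval (qc x) P / ‖x‖ ^ (2 * n) := Iff.rfl

/-- u-functions in `MN n` -/
def UN (n : ℕ) : Submodule ℝ SF where
  carrier := {F | F ∈ MN n ∧ IsU F}
  add_mem' := by
    rintro F G ⟨hF, hF'⟩ ⟨hG, hG'⟩
    refine ⟨(MN n).add_mem hF hG, ⟨fun x t => ?_, fun x => ?_⟩⟩
    · simp only [SF.add_apply, hF'.rotI x t, hG'.rotI x t]
    · simp only [SF.add_apply, hF'.mulK x, hG'.mulK x]
  zero_mem' := ⟨(MN n).zero_mem, ⟨fun x t => by simp, fun x => by simp⟩⟩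
  smul_mem' := by
    rintro c F ⟨hF, hF'⟩
    refine ⟨(MN n).smul_mem c hF, ⟨fun x t => ?_, fun x => ?_⟩⟩
    · simp only [SF.smul_apply, hF'.rotI x t]
    · simp only [SF.smul_apply, hF'.mulK x]

/-- e-functions in `MN n` -/
def EN (n : ℕ) : Submodule ℝ SF where
  carrier := {F | F ∈ MN n ∧ IsE F}
  add_mem' := by
    rintro F G ⟨hF, hF'⟩ ⟨hG, hG'⟩
    refine ⟨(MN n).add_mem hF hG, ⟨fun x t => ?_, fun x => ?_⟩⟩
    · simp only [SF.add_apply, hF'.rotK x t, hG'.rotK x t]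
    · simp only [SF.add_apply, hF'.mulI x, hG'.mulI x]
  zero_mem' := ⟨(MN n).zero_mem, ⟨fun x t => by simp, fun x => by simp⟩⟩
  smul_mem' := by
    rintro c F ⟨hF, hF'⟩
    refine ⟨(MN n).smul_mem c hF, ⟨fun x t => ?_, fun x => ?_⟩⟩
    · simp only [SF.smul_apply, hF'.rotK x t]
    · simp only [SF.smul_apply, hF'.mulI x]

/-- mode `k` part of `UN n` -/
def SNk (k n : ℕ) : Submodule ℝ SF where
  carrier := {F | F ∈ UN n ∧ Mode k F}
  add_mem' := by
    rintro F G ⟨hF, hF'⟩ ⟨hG, hG'⟩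
    refine ⟨(UN n).add_mem hF hG, ⟨fun α x => ?_, fun x => ?_⟩⟩
    · have h1 := hF'.rot α x
      have h2 := hG'.rot α x
      simp only [SF.add_apply]; linarith
    · simp only [SF.add_apply, hF'.mulJ x, hG'.mulJ x]
  zero_mem' := ⟨(UN n).zero_mem, ⟨fun α x => by simp, fun x => by simp⟩⟩
  smul_mem' := by
    rintro c F ⟨hF, hF'⟩
    refine ⟨(UN n).smul_mem c hF, ⟨fun α x => ?_, fun x => ?_⟩⟩
    · have h1 := hF'.rot α x
      simp only [SF.smul_apply]
      rw [← mul_add, h1]; ring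
    · simp only [SF.smul_apply, hF'.mulJ x]

/-- sector part of `UN n` -/
def SecN (m n : ℕ) : Submodule ℝ SF where
  carrier := {F | F ∈ UN n ∧ InSec m F}
  add_mem' := by
    rintro F G ⟨hF, hF'⟩ ⟨hG, hG'⟩
    refine ⟨(UN n).add_mem hF hG, ⟨fun x => ?_, fun x => ?_⟩⟩
    · simp only [SF.add_apply, hF'.rot x, hG'.rot x]; ring
    · simp only [SF.add_apply, hF'.mulJ x, hG'.mulJ x]
  zero_mem' := ⟨(UN n).zero_mem, ⟨fun x => by simp, fun x => by simp⟩⟩
  smul_mem' := by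
    rintro c F ⟨hF, hF'⟩
    refine ⟨(UN n).smul_mem c hF, ⟨fun x => ?_, fun x => ?_⟩⟩
    · simp only [SF.smul_apply, hF'.rot x]; ring
    · simp only [SF.smul_apply, hF'.mulJ x]

theorem mem_UN {n : ℕ} {F : SF} : F ∈ UN n ↔ F ∈ MN n ∧ IsU F := Iff.rfl
theorem mem_EN {n : ℕ} {F : SF} : F ∈ EN n ↔ F ∈ MN n ∧ IsE F := Iff.rfl
theorem mem_SNk {k n : ℕ} {F : SF} : F ∈ SNk k n ↔ F ∈ UN n ∧ Mode k F := Iff.rfl
theorem mem_SecN {m n : ℕ} {F : SF} : F ∈ SecN m n ↔ F ∈ UN n ∧ InSec m F := Iff.rfl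

/-- `psi η` is the e-function of some `EN n` whose average over the circles `x rot(i,t)` is `η`
(if there is one; it is then unique) -/
noncomputable def psi (η : SF) : SF := by
  classical
  exact if h : ∃ ψ : SF, (∃ n, ψ ∈ EN n) ∧ ∀ x : ℍ, x ≠ 0 → avgI ψ x = η x then h.choose else 0

/-- the bilinear form of the weight `w` -/
noncomputable def Bil (w : ℍ → ℝ) (y η : SF) : ℝ := ∫ x in shell, w x * y x * (psi η) x

/-- determinant of the bilinear form on `W` with respect to a basis -/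
noncomputable def detW {W : Submodule ℝ SF} {d : ℕ} (b : Module.Basis (Fin d) ℝ W) (w : ℍ → ℝ) : ℝ :=
  Matrix.det (Matrix.of fun i j : Fin d => Bil w (b j : SF) (b i : SF))

/-- the determinant is negative for some basis (equivalently for all bases) -/
def NegDet (W : Submodule ℝ SF) (w : ℍ → ℝ) : Prop :=
  ∃ (d : ℕ) (b : Module.Basis (Fin d) ℝ W), detW b w < 0

/-- the determinant is positive for some basis (equivalently for all bases) -/
def PosDet (W : Submodule ℝ SF) (w : ℍ → ℝ) : Prop :=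
  ∃ (d : ℕ) (b : Module.Basis (Fin d) ℝ W), 0 < detW b w

/-! ### words in the fields -/

/-- the six fields `X, V, H, Z_i, Z_j, Z_k` -/
noncomputable def Dlet : Fin 6 → Derivation ℝ SF SF :=
  ![SF.DX, SF.DV, SF.DH, SF.DZ 0, SF.DZ 1, SF.DZ 2]

/-- iterated derivatives, all six fields -/
noncomputable def word (l : List (Fin 6)) (F : SF) : SF := l.foldr (fun i G => Dlet i G) F

/-- iterated left derivatives -/
noncomputable def wordZ (l : List (Fin 3)) (F : SF) : SF := l.foldr (fun i G => SF.DZ i G) F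

/-- all words of length at most `N` in the six fields are bounded by `B` -/
def Bd (N : ℕ) (B : ℝ) (F : SF) : Prop :=
  ∀ l : List (Fin 6), l.length ≤ N → ∀ x : ℍ, |(word l F) x| ≤ B

/-- the norm `‖Δ² y‖ + ‖y‖` -/
noncomputable def ener (y : SF) : ℝ := nrm (SF.Lap (SF.Lap y)) + nrm y

/-- the norm `‖y‖₁ = (-<Δ y, y>)^{1/2}` -/
noncomputable def nrm1 (y : SF) : ℝ := Real.sqrt (-(ip (SF.Lap y) y))

/-! ### admissible functions and weights -/

/-- length integrand -/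
noncomputable def Lg (P Q : ℝ) : ℝ := Real.sqrt (P ^ 2 + Q ^ 2) / P ^ 2

/-- admissible functions: smooth gauges with positively curved sections -/
structure Adm (p : SF) : Prop where
  isU : IsU p
  pos : ∀ x : ℍ, x ≠ 0 → 0 < p x
  conv : ∀ x : ℍ, x ≠ 0 → 0 < p x + (SF.DX (SF.DX p)) x

/-- the weight of an admissible function -/
noncomputable def wf (p : SF) (x : ℍ) : ℝ :=
  (p x + (SF.DX (SF.DX p)) x) / Real.sqrt (p x ^ 2 + (SF.DX p) x ^ 2) ^ 3

/-- the equation `A_X (w y) = 0` -/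
def KerK (w y : ℍ → ℝ) : Prop := ∀ x : ℍ, x ≠ 0 → avgK (fun z => w z * y z) x = 0

/-- the mode `k` kernel is trivial on continuous functions -/
def KerTriv (k : ℕ) (w : ℍ → ℝ) : Prop :=
  ∀ y : ℍ → ℝ, Cts y → IsU y → Mode k y → KerK w y → ∀ x : ℍ, x ≠ 0 → y x = 0

/-- the sector kernel is trivial on continuous functions -/
def SecKerTriv (m : ℕ) (w : ℍ → ℝ) : Prop :=
  ∀ y : ℍ → ℝ, Cts y → IsU y → InSec m y → KerK w y → ∀ x : ℍ, x ≠ 0 → y x = 0

/-- segment between two functions -/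
noncomputable def seg (p₀ p₁ : SF) (s : ℝ) : SF := (1 - s) • p₀ + s • p₁

/-- data of a gauge on frames: `p` the gauge, `q` its derivative along `x rot(k,t)` -/
structure Gaugeable (p q : ℍ → ℝ) : Prop where
  cts : Cts p
  ctsq : Cts q
  isU : IsU p
  pos : ∀ x : ℍ, x ≠ 0 → 0 < p x
  deriv : ∀ x : ℍ, x ≠ 0 → ∀ t : ℝ,
    HasDerivAt (fun t => p (x * rot qK t)) (q (x * rot qK t)) t
  sine : ∀ x : ℍ, x ≠ 0 → ∀ θ₁ θ₂ θ₃ : ℝ, θ₁ < θ₂ → θ₂ < θ₃ → θ₃ < θ₁ + π →
    p (x * rot qK θ₂) * Real.sin (θ₃ - θ₁) ≤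
      p (x * rot qK θ₁) * Real.sin (θ₃ - θ₂) + p (x * rot qK θ₃) * Real.sin (θ₂ - θ₁)

/-- the text of the frozen statement -/
def NonUniqueness : Prop :=
    ¬ (∀ K₁ K₂ : Set (EuclideanSpace ℝ (Fin 3)),
      IsCompact K₁ → Convex ℝ K₁ → (interior K₁).Nonempty → (∀ x ∈ K₁, -x ∈ K₁) →
      IsCompact K₂ → Convex ℝ K₂ → (interior K₂).Nonempty → (∀ x ∈ K₂, -x ∈ K₂) →
      (∀ e : EuclideanSpace ℝ (Fin 3), e ≠ 0 →
        MeasureTheory.Measure.hausdorffMeasure (1 : ℝ)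
            (intrinsicFrontier ℝ (K₁ ∩ {x : EuclideanSpace ℝ (Fin 3) | inner ℝ x e = (0 : ℝ)})) =
          MeasureTheory.Measure.hausdorffMeasure (1 : ℝ)
            (intrinsicFrontier ℝ (K₂ ∩ {x : EuclideanSpace ℝ (Fin 3) | inner ℝ x e = (0 : ℝ)}))) →
      K₁ = K₂)

end Pool.Agent.MP85963d
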