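import Mathlib

/-!
# The weight in the first variation of the perimeter: algebra and one-variable calculus
-/

set_option autoImplicit false

namespace Pool.Agent.MP85963d

/-- `√(q² + p²)` -/
noncomputable def sN (q p : ℝ) : ℝ := Real.sqrt (q ^ 2 + p ^ 2)

theorem sN_sq (q p : ℝ) : sN q p ^ 2 = q ^ 2 + p ^ 2 := Real.sq_sqrt (by positivity)

theorem sN_pos {q : ℝ} (hq : 0 < q) (p : ℝ) : 0 < sN q p := Real.sqrt_pos.2 (by positivity)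

theorem sN_nonneg (q p : ℝ) : 0 ≤ sN q p := Real.sqrt_nonneg _

/-- denominator -/
noncomputable def dN (q₁ p₁ q₂ p₂ : ℝ) : ℝ := sN q₁ p₁ * sN q₂ p₂ + q₁ * q₂ + p₁ * p₂

theorem dN_pos {q₁ q₂ : ℝ} (h₁ : 0 < q₁) (h₂ : 0 < q₂) (p₁ p₂ : ℝ) : 0 < dN q₁ p₁ q₂ p₂ := by
  have a := sN_sq q₁ p₁
  have b := sN_sq q₂ p₂
  have c : |p₁ * p₂| ≤ sN q₁ p₁ * sN q₂ p₂ := by
    apply abs_le_of_sq_le_sq _ (mul_nonneg (sN_nonneg _ _) (sN_nonneg _ _))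
    rw [mul_pow, mul_pow, a, b]
    nlinarith [sq_nonneg (q₁ * q₂), sq_nonneg (q₁ * p₂), sq_nonneg (p₁ * q₂)]
  have d := (abs_le.1 c).1
  have e : 0 < q₁ * q₂ := mul_pos h₁ h₂
  unfold dN
  linarith

/-- the weight -/
noncomputable def W (q₁ p₁ Q₁ q₂ p₂ Q₂ : ℝ) : ℝ :=
  (Q₁ / sN q₁ p₁ + Q₂ / sN q₂ p₂) / dN q₁ p₁ q₂ p₂

/-- the fibre derivative of the denominator -/
noncomputable def dV (q₁ p₁ r₁ q₂ p₂ r₂ : ℝ) : ℝ :=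
  (p₁ * r₁ / sN q₁ p₁) * sN q₂ p₂ + sN q₁ p₁ * (p₂ * r₂ / sN q₂ p₂) + (r₁ * p₂ + p₁ * r₂)

/-- the fibre derivative of the weight -/
noncomputable def WV (q₁ p₁ Q₁ r₁ R₁ q₂ p₂ Q₂ r₂ R₂ : ℝ) : ℝ :=
  ((2 * R₁ * sN q₁ p₁ - Q₁ * (p₁ * r₁ / sN q₁ p₁)) / sN q₁ p₁ ^ 2
    + (2 * R₂ * sN q₂ p₂ - Q₂ * (p₂ * r₂ / sN q₂ p₂)) / sN q₂ p₂ ^ 2) / dN q₁ p₁ q₂ p₂
    - (Q₁ / sN q₁ p₁ + Q₂ / sN q₂ p₂) * dV q₁ p₁ r₁ q₂ p₂ r₂ / dN q₁ p₁ q₂ p₂ ^ 2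

theorem abs_dV_le {q₁ p₁ r₁ q₂ p₂ r₂ τ : ℝ} (h₁ : 0 < q₁) (h₂ : 0 < q₂) (hτ : 0 ≤ τ)
    (b₁ : p₁ ^ 2 + r₁ ^ 2 ≤ τ ^ 2 * q₁ ^ 2) (b₂ : p₂ ^ 2 + r₂ ^ 2 ≤ τ ^ 2 * q₂ ^ 2) :
    |dV q₁ p₁ r₁ q₂ p₂ r₂| ≤ τ ^ 2 * dN q₁ p₁ q₂ p₂ := by
  have s1 := sN_pos h₁ p₁
  have s2 := sN_pos h₂ p₂
  have a1 := sN_sq q₁ p₁
  have a2 := sN_sq q₂ p₂
  have hD := dN_pos h₁ h₂ p₁ p₂
  unfold dV
  unfold dN at hD ⊢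
  set S₁ := sN q₁ p₁
  set S₂ := sN q₂ p₂
  set M := p₁ * S₂ + p₂ * S₁ with hM
  set N := r₁ * S₂ + r₂ * S₁ with hN
  have e1 : (p₁ * r₁ / S₁) * S₂ + S₁ * (p₂ * r₂ / S₂) + (r₁ * p₂ + p₁ * r₂)
      = M * N / (S₁ * S₂) := by
    rw [hM, hN]; field_simp; ring
  rw [e1, abs_div, abs_of_pos (mul_pos s1 s2), div_le_iff₀ (mul_pos s1 s2)]
  have e2 : |M * N| ≤ (M ^ 2 + N ^ 2) / 2 := by
    rw [abs_le]; constructor <;> nlinarith [sq_nonneg (M + N), sq_nonneg (M - N)]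
  have cs : p₁ * p₂ + r₁ * r₂ ≤ τ ^ 2 * (q₁ * q₂) := by
    have h0 : 0 ≤ τ ^ 2 * (q₁ * q₂) := by positivity
    have h1 : (p₁ * p₂ + r₁ * r₂) ^ 2 ≤ (τ ^ 2 * (q₁ * q₂)) ^ 2 := by
      calc (p₁ * p₂ + r₁ * r₂) ^ 2 ≤ (p₁ ^ 2 + r₁ ^ 2) * (p₂ ^ 2 + r₂ ^ 2) := by
            nlinarith [sq_nonneg (p₁ * r₂ - p₂ * r₁)]
        _ ≤ (τ ^ 2 * q₁ ^ 2) * (τ ^ 2 * q₂ ^ 2) := by
            apply mul_le_mul b₁ b₂ (by positivity) (by positivity)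
        _ = (τ ^ 2 * (q₁ * q₂)) ^ 2 := by ring
    exact (abs_le.1 (abs_le_of_sq_le_sq h1 h0)).2
  have e3 : M ^ 2 + N ^ 2 ≤ τ ^ 2 * (q₁ * S₂ + q₂ * S₁) ^ 2 := by
    have t1 : M ^ 2 + N ^ 2 = (p₁ ^ 2 + r₁ ^ 2) * S₂ ^ 2 + (p₂ ^ 2 + r₂ ^ 2) * S₁ ^ 2
        + 2 * (S₁ * S₂) * (p₁ * p₂ + r₁ * r₂) := by rw [hM, hN]; ring
    have t2 : τ ^ 2 * (q₁ * S₂ + q₂ * S₁) ^ 2 = (τ ^ 2 * q₁ ^ 2) * S₂ ^ 2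
        + (τ ^ 2 * q₂ ^ 2) * S₁ ^ 2 + 2 * (S₁ * S₂) * (τ ^ 2 * (q₁ * q₂)) := by ring
    rw [t1, t2]
    have u1 := mul_le_mul_of_nonneg_right b₁ (sq_nonneg S₂)
    have u2 := mul_le_mul_of_nonneg_right b₂ (sq_nonneg S₁)
    have u3 := mul_le_mul_of_nonneg_left cs (show 0 ≤ 2 * (S₁ * S₂) by positivity)
    linarith
  have e4 : (q₁ * S₂ + q₂ * S₁) ^ 2 + M ^ 2 = 2 * (S₁ * S₂) * (S₁ * S₂ + q₁ * q₂ + p₁ * p₂) := by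
    rw [hM]
    linear_combination (-S₂ ^ 2) * a1 + (-S₁ ^ 2) * a2
  have e5 : (q₁ * S₂ + q₂ * S₁) ^ 2 ≤ 2 * (S₁ * S₂) * (S₁ * S₂ + q₁ * q₂ + p₁ * p₂) := by
    nlinarith [sq_nonneg M]
  have e6 := mul_le_mul_of_nonneg_left e5 (sq_nonneg τ)
  nlinarith

theorem abs_WV_le {q₁ p₁ Q₁ r₁ R₁ q₂ p₂ Q₂ r₂ R₂ τ κ : ℝ} (h₁ : 0 < q₁) (h₂ : 0 < q₂)
    (hτ : 0 ≤ τ) (hQ₁ : 0 ≤ Q₁) (hQ₂ : 0 ≤ Q₂)
    (b₁ : p₁ ^ 2 + r₁ ^ 2 ≤ τ ^ 2 * q₁ ^ 2) (b₂ : p₂ ^ 2 + r₂ ^ 2 ≤ τ ^ 2 * q₂ ^ 2)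
    (c₁ : 2 * |R₁| ≤ κ * Q₁) (c₂ : 2 * |R₂| ≤ κ * Q₂) :
    |WV q₁ p₁ Q₁ r₁ R₁ q₂ p₂ Q₂ r₂ R₂| ≤ (κ + 3 / 2 * τ ^ 2) * W q₁ p₁ Q₁ q₂ p₂ Q₂ := by
  have s1 := sN_pos h₁ p₁
  have s2 := sN_pos h₂ p₂
  have a1 := sN_sq q₁ p₁
  have a2 := sN_sq q₂ p₂
  have hD := dN_pos h₁ h₂ p₁ p₂
  have hdV := abs_dV_le h₁ h₂ hτ b₁ b₂
  unfold WV W
  set S₁ := sN q₁ p₁
  set S₂ := sN q₂ p₂
  set D := dN q₁ p₁ q₂ p₂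
  set E := dV q₁ p₁ r₁ q₂ p₂ r₂
  -- rewrite the derivative
  have e1 : ((2 * R₁ * S₁ - Q₁ * (p₁ * r₁ / S₁)) / S₁ ^ 2
      + (2 * R₂ * S₂ - Q₂ * (p₂ * r₂ / S₂)) / S₂ ^ 2) / D
      - (Q₁ / S₁ + Q₂ / S₂) * E / D ^ 2
      = (2 * R₁ - Q₁ * (p₁ * r₁ / S₁ ^ 2 + E / D)) / (S₁ * D)
        + (2 * R₂ - Q₂ * (p₂ * r₂ / S₂ ^ 2 + E / D)) / (S₂ * D) := by
    field_simp
    ring
  rw [e1]
  have hE : |E / D| ≤ τ ^ 2 := by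
    rw [abs_div, abs_of_pos hD, div_le_iff₀ hD]; exact hdV
  have bound : ∀ {q p r Q R S : ℝ}, 0 < q → 0 < S → S ^ 2 = q ^ 2 + p ^ 2 → 0 ≤ Q →
      p ^ 2 + r ^ 2 ≤ τ ^ 2 * q ^ 2 → 2 * |R| ≤ κ * Q →
      |(2 * R - Q * (p * r / S ^ 2 + E / D)) / (S * D)| ≤ (κ + 3 / 2 * τ ^ 2) * (Q / (S * D)) := by
    intro q p r Q R S hq hS hSq hQ hb hc
    have f1 : |p * r / S ^ 2| ≤ τ ^ 2 / 2 := by
      rw [abs_div, abs_of_pos (by positivity : (0:ℝ) < S ^ 2), div_le_iff₀ (by positivity)]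
      have g1 : |p * r| ≤ (p ^ 2 + r ^ 2) / 2 := by
        rw [abs_le]; constructor <;> nlinarith [sq_nonneg (p + r), sq_nonneg (p - r)]
      have g2 : τ ^ 2 * q ^ 2 ≤ τ ^ 2 * S ^ 2 := by
        apply mul_le_mul_of_nonneg_left _ (sq_nonneg τ)
        rw [hSq]; nlinarith [sq_nonneg p]
      linarith
    have f2 : |p * r / S ^ 2 + E / D| ≤ 3 / 2 * τ ^ 2 := by
      calc |p * r / S ^ 2 + E / D| ≤ |p * r / S ^ 2| + |E / D| := abs_add_le _ _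
        _ ≤ τ ^ 2 / 2 + τ ^ 2 := add_le_add f1 hE
        _ = 3 / 2 * τ ^ 2 := by ring
    have f3 : |2 * R - Q * (p * r / S ^ 2 + E / D)| ≤ (κ + 3 / 2 * τ ^ 2) * Q := by
      calc |2 * R - Q * (p * r / S ^ 2 + E / D)|
          ≤ |2 * R| + |Q * (p * r / S ^ 2 + E / D)| := abs_sub _ _
        _ = 2 * |R| + Q * |p * r / S ^ 2 + E / D| := by
            rw [abs_mul, abs_mul, abs_of_nonneg hQ, abs_two]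
        _ ≤ κ * Q + Q * (3 / 2 * τ ^ 2) :=
            add_le_add hc (mul_le_mul_of_nonneg_left f2 hQ)
        _ = (κ + 3 / 2 * τ ^ 2) * Q := by ring
    rw [abs_div, abs_of_pos (mul_pos hS hD), ← mul_div_assoc]
    exact div_le_div_of_nonneg_right f3 (mul_pos hS hD).le
  have k1 := bound (R := R₁) h₁ s1 a1 hQ₁ b₁ c₁
  have k2 := bound (R := R₂) h₂ s2 a2 hQ₂ b₂ c₂
  calc _ ≤ |(2 * R₁ - Q₁ * (p₁ * r₁ / S₁ ^ 2 + E / D)) / (S₁ * D)|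
        + |(2 * R₂ - Q₂ * (p₂ * r₂ / S₂ ^ 2 + E / D)) / (S₂ * D)| := abs_add_le _ _
    _ ≤ (κ + 3 / 2 * τ ^ 2) * (Q₁ / (S₁ * D)) + (κ + 3 / 2 * τ ^ 2) * (Q₂ / (S₂ * D)) :=
        add_le_add k1 k2
    _ = (κ + 3 / 2 * τ ^ 2) * ((Q₁ / S₁ + Q₂ / S₂) / D) := by
        field_simp

theorem W_pos {q₁ p₁ Q₁ q₂ p₂ Q₂ : ℝ} (h₁ : 0 < q₁) (h₂ : 0 < q₂) (hQ₁ : 0 < Q₁)
    (hQ₂ : 0 < Q₂) : 0 < W q₁ p₁ Q₁ q₂ p₂ Q₂ := by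
  have s1 := sN_pos h₁ p₁
  have s2 := sN_pos h₂ p₂
  have hD := dN_pos h₁ h₂ p₁ p₂
  unfold W
  positivity

theorem hasDerivAt_sN {q p : ℝ → ℝ} {q' p' t : ℝ} (hq : HasDerivAt q q' t)
    (hp : HasDerivAt p p' t) (hpos : 0 < q t) :
    HasDerivAt (fun t => sN (q t) (p t)) ((q t * q' + p t * p') / sN (q t) (p t)) t := by
  have h1 : HasDerivAt (fun t => q t ^ 2 + p t ^ 2) (2 * q t * q' + 2 * p t * p') t := by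
    have := (hq.fun_pow 2).fun_add (hp.fun_pow 2)
    simpa using this
  have h2 := h1.sqrt (by positivity)
  unfold sN
  convert! h2 using 1
  field_simp

/-- derivative of the weight along a rotation of the frame about its first vector -/
theorem hasDerivAt_W {q₁ q₂ : ℝ} {p₁ Q₁ p₂ Q₂ : ℝ → ℝ} {r₁ R₁ r₂ R₂ t : ℝ}
    (h₁ : 0 < q₁) (h₂ : 0 < q₂)
    (dp₁ : HasDerivAt p₁ r₁ t) (dQ₁ : HasDerivAt Q₁ (2 * R₁) t)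
    (dp₂ : HasDerivAt p₂ r₂ t) (dQ₂ : HasDerivAt Q₂ (2 * R₂) t) :
    HasDerivAt (fun t => W q₁ (p₁ t) (Q₁ t) q₂ (p₂ t) (Q₂ t))
      (WV q₁ (p₁ t) (Q₁ t) r₁ R₁ q₂ (p₂ t) (Q₂ t) r₂ R₂) t := by
  have s1 := sN_pos h₁ (p₁ t)
  have s2 := sN_pos h₂ (p₂ t)
  have hD := dN_pos h₁ h₂ (p₁ t) (p₂ t)
  have ds1 : HasDerivAt (fun t => sN q₁ (p₁ t)) (p₁ t * r₁ / sN q₁ (p₁ t)) t := by
    have := hasDerivAt_sN (hasDerivAt_const t q₁) dp₁ h₁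
    simpa using this
  have ds2 : HasDerivAt (fun t => sN q₂ (p₂ t)) (p₂ t * r₂ / sN q₂ (p₂ t)) t := by
    have := hasDerivAt_sN (hasDerivAt_const t q₂) dp₂ h₂
    simpa using this
  have dD : HasDerivAt (fun t => dN q₁ (p₁ t) q₂ (p₂ t))
      (dV q₁ (p₁ t) r₁ q₂ (p₂ t) r₂) t := by
    have := ((ds1.mul ds2).add_const (q₁ * q₂)).add (dp₁.mul dp₂)
    exact this
  have dZ := (dQ₁.div ds1 s1.ne').add (dQ₂.div ds2 s2.ne')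
  have dW := dZ.div dD hD.ne'
  convert! dW using 1
  unfold WV
  simp only [Pi.add_apply, Pi.div_apply]
  field_simp

/-- the boundary term of the first variation -/
noncomputable def Bdry (q₁ p₁ q₂ p₂ : ℝ) : ℝ :=
  (1 / q₂ - 1 / q₁) * ((p₁ * sN q₂ p₂ + p₂ * sN q₁ p₁) / dN q₁ p₁ q₂ p₂)

/-- **First variation formula** for the length element, in exact (non-infinitesimal) form. -/
theorem hasDerivAt_Bd {q₁ p₁ q₂ p₂ : ℝ → ℝ} {Q₁ Q₂ t : ℝ}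
    (h₁ : 0 < q₁ t) (h₂ : 0 < q₂ t)
    (dq₁ : HasDerivAt q₁ (p₁ t) t) (dp₁ : HasDerivAt p₁ (Q₁ - q₁ t) t)
    (dq₂ : HasDerivAt q₂ (p₂ t) t) (dp₂ : HasDerivAt p₂ (Q₂ - q₂ t) t) :
    HasDerivAt (fun t => Bdry (q₁ t) (p₁ t) (q₂ t) (p₂ t))
      ((q₁ t - q₂ t) * W (q₁ t) (p₁ t) Q₁ (q₂ t) (p₂ t) Q₂
        + (sN (q₁ t) (p₁ t) / q₁ t ^ 2 - sN (q₂ t) (p₂ t) / q₂ t ^ 2)) t := by
  have s1 := sN_pos h₁ (p₁ t)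
  have s2 := sN_pos h₂ (p₂ t)
  have a1 := sN_sq (q₁ t) (p₁ t)
  have a2 := sN_sq (q₂ t) (p₂ t)
  have hD := dN_pos h₁ h₂ (p₁ t) (p₂ t)
  have ds1 : HasDerivAt (fun t => sN (q₁ t) (p₁ t)) (p₁ t * Q₁ / sN (q₁ t) (p₁ t)) t := by
    have := hasDerivAt_sN dq₁ dp₁ h₁
    convert! this using 1
    congr 1
    ring
  have ds2 : HasDerivAt (fun t => sN (q₂ t) (p₂ t)) (p₂ t * Q₂ / sN (q₂ t) (p₂ t)) t := by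
    have := hasDerivAt_sN dq₂ dp₂ h₂
    convert! this using 1
    congr 1
    ring
  have hDd : dN (q₁ t) (p₁ t) (q₂ t) (p₂ t) = sN (q₁ t) (p₁ t) * sN (q₂ t) (p₂ t)
      + q₁ t * q₂ t + p₁ t * p₂ t := rfl
  have dD : HasDerivAt (fun t => dN (q₁ t) (p₁ t) (q₂ t) (p₂ t))
      ((p₁ t * sN (q₂ t) (p₂ t) + p₂ t * sN (q₁ t) (p₁ t))
        * (Q₁ / sN (q₁ t) (p₁ t) + Q₂ / sN (q₂ t) (p₂ t))) t := by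
    have := ((ds1.fun_mul ds2).fun_add (dq₁.fun_mul dq₂)).fun_add (dp₁.fun_mul dp₂)
    convert! this using 1
    field_simp
    ring
  have dM : HasDerivAt (fun t => p₁ t * sN (q₂ t) (p₂ t) + p₂ t * sN (q₁ t) (p₁ t))
      ((sN (q₁ t) (p₁ t) * sN (q₂ t) (p₂ t) + p₁ t * p₂ t)
        * (Q₁ / sN (q₁ t) (p₁ t) + Q₂ / sN (q₂ t) (p₂ t))
        - (q₁ t * sN (q₂ t) (p₂ t) + q₂ t * sN (q₁ t) (p₁ t))) t := by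
    have := (dp₁.fun_mul ds2).fun_add (dp₂.fun_mul ds1)
    convert! this using 1
    field_simp
    ring
  have dMD : HasDerivAt (fun t => (p₁ t * sN (q₂ t) (p₂ t) + p₂ t * sN (q₁ t) (p₁ t))
        / dN (q₁ t) (p₁ t) (q₂ t) (p₂ t))
      ((q₁ t * q₂ t * (Q₁ / sN (q₁ t) (p₁ t) + Q₂ / sN (q₂ t) (p₂ t))
        - (q₁ t * sN (q₂ t) (p₂ t) + q₂ t * sN (q₁ t) (p₁ t)))
        / dN (q₁ t) (p₁ t) (q₂ t) (p₂ t)) t := by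
    have := dM.fun_div dD hD.ne'
    convert! this using 1
    generalize (Q₁ / sN (q₁ t) (p₁ t) + Q₂ / sN (q₂ t) (p₂ t)) = Z
    rw [div_eq_div_iff hD.ne' (pow_ne_zero 2 hD.ne')]
    rw [hDd]
    generalize sN (q₁ t) (p₁ t) = S₁ at *
    generalize sN (q₂ t) (p₂ t) = S₂ at *
    generalize q₁ t = x₁ at *
    generalize q₂ t = x₂ at *
    generalize p₁ t = y₁ at *
    generalize p₂ t = y₂ at *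
    linear_combination (-(S₁ * S₂ + x₁ * x₂ + y₁ * y₂) * Z * (S₂ ^ 2 - y₂ ^ 2)) * a1
      + (-(S₁ * S₂ + x₁ * x₂ + y₁ * y₂) * Z * x₁ ^ 2) * a2
  have d1 : HasDerivAt (fun t => 1 / q₂ t - 1 / q₁ t) (p₁ t / q₁ t ^ 2 - p₂ t / q₂ t ^ 2) t := by
    have := ((hasDerivAt_const t (1:ℝ)).fun_div dq₂ h₂.ne').fun_sub
      ((hasDerivAt_const t (1:ℝ)).fun_div dq₁ h₁.ne')
    convert! this using 1
    ring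
  have dB := d1.fun_mul dMD
  unfold Bdry
  convert! dB using 1
  unfold W
  rw [hDd] at hD ⊢
  generalize (Q₁ / sN (q₁ t) (p₁ t) + Q₂ / sN (q₂ t) (p₂ t)) = Z
  generalize sN (q₁ t) (p₁ t) = S₁ at *
  generalize sN (q₂ t) (p₂ t) = S₂ at *
  generalize q₁ t = x₁ at *
  generalize q₂ t = x₂ at *
  generalize p₁ t = y₁ at *
  generalize p₂ t = y₂ at *
  have key : (y₁ / x₁ ^ 2 - y₂ / x₂ ^ 2) * (y₁ * S₂ + y₂ * S₁)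
      - (1 / x₂ - 1 / x₁) * (x₁ * S₂ + x₂ * S₁)
      = (S₁ / x₁ ^ 2 - S₂ / x₂ ^ 2) * (S₁ * S₂ + x₁ * x₂ + y₁ * y₂) := by
    field_simp
    linear_combination (-S₂ * x₂ ^ 2) * a1 + (S₁ * x₁ ^ 2) * a2
  generalize S₁ * S₂ + x₁ * x₂ + y₁ * y₂ = D at *
  have e1 : (y₁ / x₁ ^ 2 - y₂ / x₂ ^ 2) * ((y₁ * S₂ + y₂ * S₁) / D)
      + (1 / x₂ - 1 / x₁) * ((x₁ * x₂ * Z - (x₁ * S₂ + x₂ * S₁)) / D)
      = ((y₁ / x₁ ^ 2 - y₂ / x₂ ^ 2) * (y₁ * S₂ + y₂ * S₁)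
      - (1 / x₂ - 1 / x₁) * (x₁ * S₂ + x₂ * S₁)) / D + (1 / x₂ - 1 / x₁) * (x₁ * x₂ * Z) / D := by
    ring
  rw [e1, key]
  field_simp
  ring

end Pool.Agent.MP85963d
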