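import Mathlib
import Pool.Agent.Lib.MP_85963d_gt.Frames
import Pool.Agent.Lib.MP_85963d_gt.Weight

/-!
# Even gauge functions on `ℝ³` and the vanishing of their difference
-/

set_option autoImplicit false

open MeasureTheory Set Filter Topology Quaternion
open scoped Real

namespace Pool.Agent.MP85963d

/-- regular, positive, even, positively homogeneous function -/
structure IsGauge (Φ : E3 → ℝ) : Prop where
  smooth : ContDiffOn ℝ 2 Φ {0}ᶜ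
  pos : ∀ x, x ≠ 0 → 0 < Φ x
  even : ∀ x, Φ (-x) = Φ x
  hom : ∀ (t : ℝ) (x : E3), 0 < t → Φ (t • x) = t * Φ x

/-- first derivative -/
noncomputable def D1 (Φ : E3 → ℝ) (u v : E3) : ℝ := fderiv ℝ Φ u v

/-- second derivative -/
noncomputable def D2 (Φ : E3 → ℝ) (u v w : E3) : ℝ := fderiv ℝ (fderiv ℝ Φ) u v w

theorem isOpen_ne3 : IsOpen ({0}ᶜ : Set E3) := isOpen_compl_singleton

theorem fderiv_comp_neg3 {F : Type*} [NormedAddCommGroup F] [NormedSpace ℝ F] (f : E3 → F)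
    (x v : E3) : fderiv ℝ (fun y => f (-y)) x v = - fderiv ℝ f (-x) v := by
  have h := (ContinuousLinearEquiv.neg ℝ (M := E3)).comp_right_fderiv (f := f) (x := x)
  have e : (f ∘ (ContinuousLinearEquiv.neg ℝ (M := E3))) = fun y => f (-y) := by
    funext y; simp
  rw [e] at h
  rw [h]
  simp

namespace IsGauge

variable {Φ : E3 → ℝ}

theorem contDiffAt (h : IsGauge Φ) {x : E3} (hx : x ≠ 0) : ContDiffAt ℝ 2 Φ x :=
  h.smooth.contDiffAt (isOpen_ne3.mem_nhds hx)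

theorem hasFDerivAt (h : IsGauge Φ) {x : E3} (hx : x ≠ 0) :
    HasFDerivAt Φ (fderiv ℝ Φ x) x :=
  ((h.contDiffAt hx).differentiableAt (by norm_num)).hasFDerivAt

theorem smooth1 (h : IsGauge Φ) : ContDiffOn ℝ 1 (fderiv ℝ Φ) {0}ᶜ :=
  h.smooth.fderiv_of_isOpen isOpen_ne3 (by norm_num)

theorem hasFDerivAt1 (h : IsGauge Φ) {x : E3} (hx : x ≠ 0) :
    HasFDerivAt (fderiv ℝ Φ) (fderiv ℝ (fderiv ℝ Φ) x) x :=
  ((h.smooth1.contDiffAt (isOpen_ne3.mem_nhds hx)).differentiableAt (by norm_num)).hasFDerivAt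

theorem continuousOn (h : IsGauge Φ) : ContinuousOn Φ {0}ᶜ := h.smooth.continuousOn

theorem continuousOn1 (h : IsGauge Φ) : ContinuousOn (fderiv ℝ Φ) {0}ᶜ := h.smooth1.continuousOn

theorem continuousOn2 (h : IsGauge Φ) : ContinuousOn (fderiv ℝ (fderiv ℝ Φ)) {0}ᶜ :=
  h.smooth1.continuousOn_fderiv_of_isOpen isOpen_ne3 (by norm_num)

theorem D1_neg (h : IsGauge Φ) (u v : E3) : D1 Φ (-u) v = - D1 Φ u v := by
  have e : (fun x => Φ (-x)) = Φ := funext h.even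
  have h1 := fderiv_comp_neg3 Φ u v
  rw [e] at h1
  unfold D1
  rw [h1, neg_neg]

theorem fderiv_neg' (h : IsGauge Φ) (u : E3) : fderiv ℝ Φ (-u) = - fderiv ℝ Φ u := by
  ext v
  exact h.D1_neg u v

theorem D2_neg (h : IsGauge Φ) (u v w : E3) : D2 Φ (-u) v w = D2 Φ u v w := by
  have h1 := fderiv_comp_neg3 (fderiv ℝ Φ) u v
  have e : (fun x => fderiv ℝ Φ (-x)) = fun x => -fderiv ℝ Φ x := funext h.fderiv_neg'
  rw [e, fderiv_fun_neg, neg_apply, neg_inj] at h1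
  unfold D2
  rw [h1]

theorem D2_symm (h : IsGauge Φ) {u : E3} (hu : u ≠ 0) (v w : E3) :
    D2 Φ u v w = D2 Φ u w v := by
  have := (h.contDiffAt hu).isSymmSndFDerivAt (by simp)
  exact this v w

theorem euler (h : IsGauge Φ) {u : E3} (hu : u ≠ 0) : D1 Φ u u = Φ u := by
  have h1 : HasDerivAt (fun t : ℝ => Φ (t • u)) (D1 Φ u u) 1 := by
    have h2 : HasDerivAt (fun t : ℝ => t • u) u 1 := by
      simpa using (hasDerivAt_id (1:ℝ)).smul_const u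
    have h3 : HasFDerivAt Φ (fderiv ℝ Φ ((1:ℝ) • u)) ((1:ℝ) • u) := by
      apply h.hasFDerivAt; simpa using hu
    have := h3.comp_hasDerivAt (1:ℝ) h2
    simpa [D1, Function.comp_def] using this
  have h4 : HasDerivAt (fun t : ℝ => t * Φ u) (Φ u) 1 := by
    simpa using (hasDerivAt_id (1:ℝ)).mul_const (Φ u)
  have h5 : (fun t : ℝ => Φ (t • u)) =ᶠ[𝓝 1] fun t => t * Φ u := by
    filter_upwards [lt_mem_nhds (show (0:ℝ) < 1 by norm_num)] with t ht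
    exact h.hom t u ht
  exact (h1.congr_of_eventuallyEq h5.symm).unique h4

end IsGauge

theorem fu_ne_zero {x : ℍ} (hx : x ≠ 0) : fu x ≠ 0 := by
  intro h0
  have := norm_fu hx
  simp [h0] at this

theorem mul_rot_ne_zero {a : ℍ} (h : IsImUnit a) {x : ℍ} (hx : x ≠ 0) (t : ℝ) :
    x * rot a t ≠ 0 := mul_ne_zero hx (rot_ne_zero h t)

theorem hasDerivAt_fuK (x : ℍ) (t : ℝ) :
    HasDerivAt (fun t => fu (x * rot qK t)) (fv (x * rot qK t)) t := by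
  simp only [fu_rotK, fv_rotK]
  have := ((Real.hasDerivAt_cos t).smul_const (fu x)).fun_add
    ((Real.hasDerivAt_sin t).smul_const (fv x))
  convert! this using 1
  module

theorem hasDerivAt_fvK (x : ℍ) (t : ℝ) :
    HasDerivAt (fun t => fv (x * rot qK t)) (-fu (x * rot qK t)) t := by
  simp only [fu_rotK, fv_rotK]
  have := ((Real.hasDerivAt_cos t).smul_const (fv x)).fun_sub
    ((Real.hasDerivAt_sin t).smul_const (fu x))
  convert! this using 1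
  module

theorem hasDerivAt_fvI (x : ℍ) (t : ℝ) :
    HasDerivAt (fun t => fv (x * rot qI t)) (fe (x * rot qI t)) t := by
  simp only [fe_rotI, fv_rotI]
  have := ((Real.hasDerivAt_cos t).smul_const (fv x)).fun_add
    ((Real.hasDerivAt_sin t).smul_const (fe x))
  convert! this using 1
  module

section frame

variable {Φ : E3 → ℝ}

/-- frame versions of the gauge and its derivatives -/
noncomputable def gq (Φ : E3 → ℝ) (x : ℍ) : ℝ := Φ (fu x)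
noncomputable def gp (Φ : E3 → ℝ) (x : ℍ) : ℝ := D1 Φ (fu x) (fv x)
noncomputable def gr (Φ : E3 → ℝ) (x : ℍ) : ℝ := D1 Φ (fu x) (fe x)
noncomputable def gQ (Φ : E3 → ℝ) (x : ℍ) : ℝ := D2 Φ (fu x) (fv x) (fv x)
noncomputable def gR (Φ : E3 → ℝ) (x : ℍ) : ℝ := D2 Φ (fu x) (fv x) (fe x)

theorem gq_pos (h : IsGauge Φ) {x : ℍ} (hx : x ≠ 0) : 0 < gq Φ x := h.pos _ (fu_ne_zero hx)

theorem gq_K (h : IsGauge Φ) (x : ℍ) : gq Φ (x * qK) = gq Φ x := by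
  rw [gq, fu_K, h.even]; rfl
theorem gp_K (h : IsGauge Φ) (x : ℍ) : gp Φ (x * qK) = gp Φ x := by
  rw [gp, fu_K, fv_K, h.D1_neg, D1, map_neg, neg_neg]; rfl
theorem gQ_K (h : IsGauge Φ) (x : ℍ) : gQ Φ (x * qK) = gQ Φ x := by
  rw [gQ, fu_K, fv_K, h.D2_neg, D2, map_neg, map_neg]
  simp [gQ, D2]

theorem mapsTo_fu : MapsTo fu ({0}ᶜ : Set ℍ) ({0}ᶜ : Set E3) := fun _ hx => fu_ne_zero hx

theorem continuousOn_gq (h : IsGauge Φ) : ContinuousOn (gq Φ) {0}ᶜ :=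
  h.continuousOn.comp (continuousOn_fr qI) mapsTo_fu

theorem continuousOn_gp (h : IsGauge Φ) : ContinuousOn (gp Φ) {0}ᶜ :=
  (h.continuousOn1.comp (continuousOn_fr qI) mapsTo_fu).clm_apply (continuousOn_fr qJ)

theorem continuousOn_gr (h : IsGauge Φ) : ContinuousOn (gr Φ) {0}ᶜ :=
  (h.continuousOn1.comp (continuousOn_fr qI) mapsTo_fu).clm_apply (continuousOn_fr qK)

theorem continuousOn_gQ (h : IsGauge Φ) : ContinuousOn (gQ Φ) {0}ᶜ :=
  ((h.continuousOn2.comp (continuousOn_fr qI) mapsTo_fu).clm_apply (continuousOn_fr qJ)).clm_apply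
    (continuousOn_fr qJ)

theorem continuousOn_gR (h : IsGauge Φ) : ContinuousOn (gR Φ) {0}ᶜ :=
  ((h.continuousOn2.comp (continuousOn_fr qI) mapsTo_fu).clm_apply (continuousOn_fr qJ)).clm_apply
    (continuousOn_fr qK)

theorem hasDerivAt_gqK (h : IsGauge Φ) {x : ℍ} (hx : x ≠ 0) (t : ℝ) :
    HasDerivAt (fun t => gq Φ (x * rot qK t)) (gp Φ (x * rot qK t)) t :=
  (h.hasFDerivAt (fu_ne_zero (mul_rot_ne_zero isImUnit_K hx t))).comp_hasDerivAt t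
    (hasDerivAt_fuK x t)

theorem hasDerivAt_gpK (h : IsGauge Φ) {x : ℍ} (hx : x ≠ 0) (t : ℝ) :
    HasDerivAt (fun t => gp Φ (x * rot qK t)) (gQ Φ (x * rot qK t) - gq Φ (x * rot qK t)) t := by
  have hne := fu_ne_zero (mul_rot_ne_zero isImUnit_K hx t)
  have h1 := (h.hasFDerivAt1 hne).comp_hasDerivAt t (hasDerivAt_fuK x t)
  have h2 := h1.clm_apply (hasDerivAt_fvK x t)
  convert! h2 using 1
  rw [map_neg]
  have := h.euler hne
  unfold D1 at this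
  simp only [gQ, gq, D2, ← this]
  rfl

theorem hasDerivAt_gpI {x : ℍ} (t : ℝ) :
    HasDerivAt (fun t => gp Φ (x * rot qI t)) (gr Φ (x * rot qI t)) t := by
  have h1 := (fderiv ℝ Φ (fu x)).hasFDerivAt.comp_hasDerivAt t (hasDerivAt_fvI x t)
  convert! h1 using 1
  · funext s
    simp [gp, D1, fu_rotI]
  · simp [gr, D1, fu_rotI]

theorem hasDerivAt_gQI (h : IsGauge Φ) {x : ℍ} (hx : x ≠ 0) (t : ℝ) :
    HasDerivAt (fun t => gQ Φ (x * rot qI t)) (2 * gR Φ (x * rot qI t)) t := by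
  have h0 := (fderiv ℝ (fderiv ℝ Φ) (fu x)).hasFDerivAt.comp_hasDerivAt t (hasDerivAt_fvI x t)
  have h1 := h0.clm_apply (hasDerivAt_fvI x t)
  have h2 := h.D2_symm (fu_ne_zero hx) (fv (x * rot qI t)) (fe (x * rot qI t))
  convert! h1 using 1
  · funext s
    simp [gQ, D2, fu_rotI]
  · unfold D2 at h2
    simp only [gR, D2, fu_rotI, Function.comp]
    rw [← h2]; ring

end frame

/-- radial cutoff -/
noncomputable def cut (r : ℝ) : ℝ := max 0 (min 1 (2 * r - 1))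

theorem cut_nonneg (r : ℝ) : 0 ≤ cut r := le_max_left _ _

theorem cut_continuous : Continuous cut := by unfold cut; fun_prop

theorem cut_eq_zero {r : ℝ} (h : r ≤ 1 / 2) : cut r = 0 := by
  unfold cut
  apply max_eq_left
  apply (min_le_right _ _).trans
  linarith

theorem cut_eq_one {r : ℝ} (h : 1 ≤ r) : cut r = 1 := by
  unfold cut
  rw [min_eq_left (by linarith), max_eq_right zero_le_one]

theorem continuous_cut_mul {H : ℍ → ℝ} (hH : ContinuousOn H {0}ᶜ) :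
    Continuous fun x => cut ‖x‖ * H x := by
  rw [continuous_iff_continuousAt]
  intro x
  by_cases hx : x = 0
  · subst hx
    have : (fun x : ℍ => cut ‖x‖ * H x) =ᶠ[𝓝 0] fun _ => 0 := by
      filter_upwards [Metric.ball_mem_nhds (0:ℍ) (show (0:ℝ) < 1/2 by norm_num)] with y hy
      rw [cut_eq_zero, zero_mul]
      simpa using (mem_ball_zero_iff.1 hy).le
    exact continuousAt_const.congr this.symm
  · exact ((cut_continuous.comp continuous_norm).continuousAt).mul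
      (hH.continuousAt (isOpen_ne.mem_nhds hx))

theorem continuousOn_sN {f g : ℍ → ℝ} {s : Set ℍ} (hf : ContinuousOn f s)
    (hg : ContinuousOn g s) : ContinuousOn (fun x => sN (f x) (g x)) s := by
  unfold sN
  exact ((hf.pow 2).add (hg.pow 2)).sqrt

theorem continuousOn_dN {q₁ p₁ q₂ p₂ : ℍ → ℝ} {s : Set ℍ} (hq₁ : ContinuousOn q₁ s)
    (hp₁ : ContinuousOn p₁ s) (hq₂ : ContinuousOn q₂ s) (hp₂ : ContinuousOn p₂ s) :
    ContinuousOn (fun x => dN (q₁ x) (p₁ x) (q₂ x) (p₂ x)) s := by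
  unfold dN
  exact (((continuousOn_sN hq₁ hp₁).mul (continuousOn_sN hq₂ hp₂)).add (hq₁.mul hq₂)).add
    (hp₁.mul hp₂)

section main

variable (Φ₁ Φ₂ : E3 → ℝ)

/-- the weight as a function on frames -/
noncomputable def Wf (x : ℍ) : ℝ :=
  W (gq Φ₁ x) (gp Φ₁ x) (gQ Φ₁ x) (gq Φ₂ x) (gp Φ₂ x) (gQ Φ₂ x)

/-- its fibre derivative -/
noncomputable def WVf (x : ℍ) : ℝ :=
  WV (gq Φ₁ x) (gp Φ₁ x) (gQ Φ₁ x) (gr Φ₁ x) (gR Φ₁ x)
    (gq Φ₂ x) (gp Φ₂ x) (gQ Φ₂ x) (gr Φ₂ x) (gR Φ₂ x)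

variable {Φ₁ Φ₂}

theorem continuousOn_Wf (h₁ : IsGauge Φ₁) (h₂ : IsGauge Φ₂) :
    ContinuousOn (Wf Φ₁ Φ₂) {0}ᶜ := by
  have hs₁ := continuousOn_sN (continuousOn_gq h₁) (continuousOn_gp h₁)
  have hs₂ := continuousOn_sN (continuousOn_gq h₂) (continuousOn_gp h₂)
  have hd := continuousOn_dN (continuousOn_gq h₁) (continuousOn_gp h₁) (continuousOn_gq h₂)
    (continuousOn_gp h₂)
  unfold Wf W
  refine ContinuousOn.div (ContinuousOn.add ?_ ?_) hd ?_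
  · exact (continuousOn_gQ h₁).div hs₁ fun x hx => (sN_pos (gq_pos h₁ hx) _).ne'
  · exact (continuousOn_gQ h₂).div hs₂ fun x hx => (sN_pos (gq_pos h₂ hx) _).ne'
  · exact fun x hx => (dN_pos (gq_pos h₁ hx) (gq_pos h₂ hx) _ _).ne'

theorem continuousOn_WVf (h₁ : IsGauge Φ₁) (h₂ : IsGauge Φ₂) :
    ContinuousOn (WVf Φ₁ Φ₂) {0}ᶜ := by
  have hs₁ := continuousOn_sN (continuousOn_gq h₁) (continuousOn_gp h₁)
  have hs₂ := continuousOn_sN (continuousOn_gq h₂) (continuousOn_gp h₂)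
  have hd := continuousOn_dN (continuousOn_gq h₁) (continuousOn_gp h₁) (continuousOn_gq h₂)
    (continuousOn_gp h₂)
  have n₁ : ∀ x ∈ ({0}ᶜ : Set ℍ), sN (gq Φ₁ x) (gp Φ₁ x) ≠ 0 :=
    fun x hx => (sN_pos (gq_pos h₁ hx) _).ne'
  have n₂ : ∀ x ∈ ({0}ᶜ : Set ℍ), sN (gq Φ₂ x) (gp Φ₂ x) ≠ 0 :=
    fun x hx => (sN_pos (gq_pos h₂ hx) _).ne'
  have n₃ : ∀ x ∈ ({0}ᶜ : Set ℍ), dN (gq Φ₁ x) (gp Φ₁ x) (gq Φ₂ x) (gp Φ₂ x) ≠ 0 :=
    fun x hx => (dN_pos (gq_pos h₁ hx) (gq_pos h₂ hx) _ _).ne'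
  have c1 := continuousOn_gp h₁
  have c2 := continuousOn_gp h₂
  have c3 := continuousOn_gQ h₁
  have c4 := continuousOn_gQ h₂
  have c5 := continuousOn_gR h₁
  have c6 := continuousOn_gR h₂
  have c7 := continuousOn_gr h₁
  have c8 := continuousOn_gr h₂
  have k1 : ContinuousOn (fun x => gp Φ₁ x * gr Φ₁ x / sN (gq Φ₁ x) (gp Φ₁ x)) {0}ᶜ :=
    (c1.mul c7).div hs₁ n₁
  have k2 : ContinuousOn (fun x => gp Φ₂ x * gr Φ₂ x / sN (gq Φ₂ x) (gp Φ₂ x)) {0}ᶜ :=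
    (c2.mul c8).div hs₂ n₂
  unfold WVf WV
  refine ContinuousOn.sub (ContinuousOn.div (ContinuousOn.add ?_ ?_) hd n₃) (ContinuousOn.div
    (ContinuousOn.mul (ContinuousOn.add ?_ ?_) ?_) (hd.pow 2) fun x hx => pow_ne_zero 2 (n₃ x hx))
  · exact (((continuousOn_const.mul c5).mul hs₁).sub (c3.mul k1)).div (hs₁.pow 2)
      fun x hx => pow_ne_zero 2 (n₁ x hx)
  · exact (((continuousOn_const.mul c6).mul hs₂).sub (c4.mul k2)).div (hs₂.pow 2)
      fun x hx => pow_ne_zero 2 (n₂ x hx)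
  · exact c3.div hs₁ n₁
  · exact c4.div hs₂ n₂
  · unfold dV
    exact ((k1.mul hs₂).add (hs₁.mul k2)).add ((c7.mul c2).add (c1.mul c8))

/-- derivative of the weight along the fibre rotation -/
theorem hasDerivAt_Wf (h₁ : IsGauge Φ₁) (h₂ : IsGauge Φ₂) {z : ℍ} (hz : z ≠ 0) (t : ℝ) :
    HasDerivAt (fun t => Wf Φ₁ Φ₂ (z * rot qI t)) (WVf Φ₁ Φ₂ (z * rot qI t)) t := by
  have e₁ : ∀ s, gq Φ₁ (z * rot qI s) = gq Φ₁ z := fun s => by simp [gq, fu_rotI]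
  have e₂ : ∀ s, gq Φ₂ (z * rot qI s) = gq Φ₂ z := fun s => by simp [gq, fu_rotI]
  have := hasDerivAt_W (gq_pos h₁ hz) (gq_pos h₂ hz) (hasDerivAt_gpI (Φ := Φ₁) (x := z) t)
    (hasDerivAt_gQI h₁ hz t) (hasDerivAt_gpI (Φ := Φ₂) (x := z) t) (hasDerivAt_gQI h₂ hz t)
  convert! this using 1
  · funext s
    simp only [Wf, e₁, e₂]
  · simp only [WVf, e₁, e₂]

/-- length element of the central section along the great circle through the frame -/
noncomputable def len (Φ : E3 → ℝ) (x : ℍ) : ℝ := sN (gq Φ x) (gp Φ x) / gq Φ x ^ 2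

/-- half of the perimeter of the section spanned by the first two frame vectors -/
noncomputable def hper (Φ : E3 → ℝ) (x : ℍ) : ℝ := ∫ t in (0:ℝ)..π, len Φ (x * rot qK t)

theorem continuousOn_len {Φ : E3 → ℝ} (h : IsGauge Φ) : ContinuousOn (len Φ) {0}ᶜ :=
  (continuousOn_sN (continuousOn_gq h) (continuousOn_gp h)).div ((continuousOn_gq h).pow 2)
    fun x hx => pow_ne_zero 2 (gq_pos h hx).ne'

theorem continuous_comp_rot {a : ℍ} (ha : IsImUnit a) {H : ℍ → ℝ} (hH : ContinuousOn H {0}ᶜ)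
    {z : ℍ} (hz : z ≠ 0) : Continuous fun t => H (z * rot a t) := by
  rw [← continuousOn_univ]
  exact hH.comp ((continuous_const.mul (continuous_rot a)).continuousOn)
    fun t _ => mul_rot_ne_zero ha hz t

theorem integral_weight (h₁ : IsGauge Φ₁) (h₂ : IsGauge Φ₂) {z : ℍ} (hz : z ≠ 0)
    (hp : hper Φ₁ z = hper Φ₂ z) :
    ∫ t in (0:ℝ)..π, (gq Φ₁ (z * rot qK t) - gq Φ₂ (z * rot qK t)) * Wf Φ₁ Φ₂ (z * rot qK t)
      = 0 := by
  have hne : ∀ t, z * rot qK t ≠ 0 := fun t => mul_rot_ne_zero isImUnit_K hz t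
  have c1 := continuous_comp_rot isImUnit_K (continuousOn_gq h₁) hz
  have c2 := continuous_comp_rot isImUnit_K (continuousOn_gq h₂) hz
  have c3 := continuous_comp_rot isImUnit_K (continuousOn_Wf h₁ h₂) hz
  have c4 := continuous_comp_rot isImUnit_K (continuousOn_len h₁) hz
  have c5 := continuous_comp_rot isImUnit_K (continuousOn_len h₂) hz
  have hd : ∀ t ∈ uIcc (0:ℝ) π, HasDerivAt (fun t => Bdry (gq Φ₁ (z * rot qK t))
      (gp Φ₁ (z * rot qK t)) (gq Φ₂ (z * rot qK t)) (gp Φ₂ (z * rot qK t)))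
      ((gq Φ₁ (z * rot qK t) - gq Φ₂ (z * rot qK t)) * Wf Φ₁ Φ₂ (z * rot qK t)
        + (len Φ₁ (z * rot qK t) - len Φ₂ (z * rot qK t))) t := by
    intro t _
    exact hasDerivAt_Bd (gq_pos h₁ (hne t)) (gq_pos h₂ (hne t)) (hasDerivAt_gqK h₁ hz t)
      (hasDerivAt_gpK h₁ hz t) (hasDerivAt_gqK h₂ hz t) (hasDerivAt_gpK h₂ hz t)
  have i1 : Continuous fun t =>
      (gq Φ₁ (z * rot qK t) - gq Φ₂ (z * rot qK t)) * Wf Φ₁ Φ₂ (z * rot qK t) :=
    (c1.sub c2).mul c3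
  have i2 : Continuous fun t => len Φ₁ (z * rot qK t) - len Φ₂ (z * rot qK t) := c4.sub c5
  have hI := intervalIntegral.integral_eq_sub_of_hasDerivAt hd
    ((i1.add i2).intervalIntegrable _ _)
  have e1 := intervalIntegral.integral_add (i1.intervalIntegrable (μ := volume) 0 π)
    (i2.intervalIntegrable 0 π)
  have e2 := intervalIntegral.integral_sub (c4.intervalIntegrable (μ := volume) 0 π)
    (c5.intervalIntegrable 0 π)
  rw [e1, e2] at hI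
  have hp' : (∫ t in (0:ℝ)..π, len Φ₁ (z * rot qK t)) = ∫ t in (0:ℝ)..π, len Φ₂ (z * rot qK t) := hp
  rw [hp', sub_self, add_zero] at hI
  rw [hI, rot_pi, rot_zero, mul_one, gq_K h₁, gq_K h₂, gp_K h₁, gp_K h₂, sub_self]

/-- pinching condition -/
structure Pinched (τ κ : ℝ) (Φ : E3 → ℝ) : Prop where
  grad : ∀ u a b : E3, ‖u‖ = 1 → ‖a‖ = 1 → ‖b‖ = 1 → inner ℝ u a = (0:ℝ) →
    inner ℝ u b = (0:ℝ) → inner ℝ a b = (0:ℝ) → D1 Φ u a ^ 2 + D1 Φ u b ^ 2 ≤ τ ^ 2 * Φ u ^ 2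
  hpos : ∀ u a : E3, ‖u‖ = 1 → ‖a‖ = 1 → inner ℝ u a = (0:ℝ) → 0 < D2 Φ u a a
  hess : ∀ u a b : E3, ‖u‖ = 1 → ‖a‖ = 1 → ‖b‖ = 1 → inner ℝ u a = (0:ℝ) →
    inner ℝ u b = (0:ℝ) → inner ℝ a b = (0:ℝ) → 2 * |D2 Φ u a b| ≤ κ * D2 Φ u a a

/-- **Uniqueness of pinched gauges with equal section lengths.** -/
theorem gauge_eq (h₁ : IsGauge Φ₁) (h₂ : IsGauge Φ₂) {τ κ : ℝ} (hτ : 0 ≤ τ)
    (hκ : κ + 3 / 2 * τ ^ 2 < 1) (P₁ : Pinched τ κ Φ₁) (P₂ : Pinched τ κ Φ₂)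
    (hp : ∀ z : ℍ, z ≠ 0 → hper Φ₁ z = hper Φ₂ z) :
    ∀ u : E3, ‖u‖ = 1 → Φ₁ u = Φ₂ u := by
  set F : ℍ → ℝ := fun x => cut ‖x‖ * ((gq Φ₁ x - gq Φ₂ x) * Wf Φ₁ Φ₂ x) with hFdef
  set G : ℍ → ℝ := fun x => cut ‖x‖ * ((gq Φ₁ x - gq Φ₂ x) * WVf Φ₁ Φ₂ x) with hGdef
  have hF : Continuous F := continuous_cut_mul
    (((continuousOn_gq h₁).sub (continuousOn_gq h₂)).mul (continuousOn_Wf h₁ h₂))
  have hG : Continuous G := continuous_cut_mul
    (((continuousOn_gq h₁).sub (continuousOn_gq h₂)).mul (continuousOn_WVf h₁ h₂))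
  have cut0 : cut 0 = 0 := cut_eq_zero (by norm_num)
  have hFG : ∀ z t, HasDerivAt (fun t => F (z * rot qI t)) (G (z * rot qI t)) t := by
    intro z t
    by_cases hz : z = 0
    · subst hz
      simp only [hFdef, hGdef, zero_mul, norm_zero, cut0]
      exact hasDerivAt_const t 0
    · have hn : ∀ s, ‖z * rot qI s‖ = ‖z‖ := fun s => by
        rw [norm_mul, norm_rot isImUnit_I, mul_one]
      have e₁ : ∀ s, gq Φ₁ (z * rot qI s) = gq Φ₁ z := fun s => by simp [gq, fu_rotI]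
      have e₂ : ∀ s, gq Φ₂ (z * rot qI s) = gq Φ₂ z := fun s => by simp [gq, fu_rotI]
      simp only [hFdef, hGdef, hn, e₁, e₂]
      exact ((hasDerivAt_Wf h₁ h₂ hz t).const_mul _).const_mul _
  have hper' : ∀ z, F (z * qK) = F z := by
    intro z
    have hn : ‖z * qK‖ = ‖z‖ := by rw [norm_mul, isImUnit_K.norm_eq, mul_one]
    simp only [hFdef, Wf, hn, gq_K h₁, gq_K h₂, gp_K h₁, gp_K h₂, gQ_K h₁, gQ_K h₂]
  have hint : ∀ z, ∫ s in (0:ℝ)..π, F (z * rot qK s) = 0 := by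
    intro z
    by_cases hz : z = 0
    · subst hz
      simp [hFdef, cut0]
    · have hn : ∀ s, ‖z * rot qK s‖ = ‖z‖ := fun s => by
        rw [norm_mul, norm_rot isImUnit_K, mul_one]
      simp only [hFdef, hn]
      rw [intervalIntegral.integral_const_mul, integral_weight h₁ h₂ hz (hp z hz), mul_zero]
  have hWpos : ∀ x : ℍ, x ≠ 0 → 0 < Wf Φ₁ Φ₂ x := fun x hx =>
    W_pos (gq_pos h₁ hx) (gq_pos h₂ hx) (P₁.hpos _ _ (norm_fu hx) (norm_fv hx) (inner_fu_fv hx))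
      (P₂.hpos _ _ (norm_fu hx) (norm_fv hx) (inner_fu_fv hx))
  have hb : ∀ x ∈ shell, |G x| ≤ max 0 (κ + 3 / 2 * τ ^ 2) * |F x| := by
    intro x hx
    have hx0 := ne_zero_of_mem_shell hx
    have k1 : |WVf Φ₁ Φ₂ x| ≤ (κ + 3 / 2 * τ ^ 2) * Wf Φ₁ Φ₂ x :=
      abs_WV_le (gq_pos h₁ hx0) (gq_pos h₂ hx0) hτ
        (P₁.hpos _ _ (norm_fu hx0) (norm_fv hx0) (inner_fu_fv hx0)).le
        (P₂.hpos _ _ (norm_fu hx0) (norm_fv hx0) (inner_fu_fv hx0)).le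
        (P₁.grad _ _ _ (norm_fu hx0) (norm_fv hx0) (norm_fe hx0) (inner_fu_fv hx0)
          (inner_fu_fe hx0) (inner_fv_fe hx0))
        (P₂.grad _ _ _ (norm_fu hx0) (norm_fv hx0) (norm_fe hx0) (inner_fu_fv hx0)
          (inner_fu_fe hx0) (inner_fv_fe hx0))
        (P₁.hess _ _ _ (norm_fu hx0) (norm_fv hx0) (norm_fe hx0) (inner_fu_fv hx0)
          (inner_fu_fe hx0) (inner_fv_fe hx0))
        (P₂.hess _ _ _ (norm_fu hx0) (norm_fv hx0) (norm_fe hx0) (inner_fu_fv hx0)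
          (inner_fu_fe hx0) (inner_fv_fe hx0))
    have hW := hWpos x hx0
    have k2 : |WVf Φ₁ Φ₂ x| ≤ max 0 (κ + 3 / 2 * τ ^ 2) * |Wf Φ₁ Φ₂ x| := by
      rw [abs_of_pos hW]
      exact k1.trans (mul_le_mul_of_nonneg_right (le_max_right _ _) hW.le)
    simp only [hFdef, hGdef, abs_mul]
    calc |cut ‖x‖| * (|gq Φ₁ x - gq Φ₂ x| * |WVf Φ₁ Φ₂ x|)
        ≤ |cut ‖x‖| * (|gq Φ₁ x - gq Φ₂ x| * (max 0 (κ + 3 / 2 * τ ^ 2) * |Wf Φ₁ Φ₂ x|)) := by
          gcongr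
      _ = _ := by ring
  have hvan := frame_vanishing hF hG hFG hper' hint (le_max_left _ _)
    (max_lt zero_lt_one hκ) hb
  intro u hu
  obtain ⟨x, hx1, hx2, hxu⟩ := exists_fu hu
  have hx0 : x ≠ 0 := by
    intro h0
    rw [h0, norm_zero] at hx1
    linarith
  have h0 := hvan x hx1 hx2
  simp only [hFdef, cut_eq_one hx1.le, one_mul] at h0
  rcases mul_eq_zero.1 h0 with h | h
  · simp only [gq, hxu] at h
    linarith
  · exact absurd h (hWpos x hx0).ne'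

end main

end Pool.Agent.MP85963d
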