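import Mathlib
import Pool.Agent.Lib.MP_85963d_gt.Defs3

/-!
# Statements of the modules (see Paper.md for the proofs)

A module file proves `theorem <name>_holds : <Name>Statement`, or
`theorem <name>_of (h₁ : <Other>Statement) ... : <Name>Statement`.
-/

set_option autoImplicit false

open MeasureTheory Set Filter Topology Quaternion
open scoped Real ContDiff

namespace Pool.Agent.MP85963d

open SF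

/-! ### Block F: analysis on frames (Paper sections 0, 2, 3) -/

/-- CAS. `Δ` is also the sum of squares of the right fields, commutes with all fields,
is symmetric; the right fields are combinations of the left fields. -/
structure CasFacts : Prop where
  right : ∀ F : SF, Lap F = DX (DX F) + DV (DV F) + DH (DH F)
  comm : ∀ (i : Fin 6) (F : SF), Lap (Dlet i F) = Dlet i (Lap F)
  symm : ∀ F G : SF, ip (Lap F) G = ip F (Lap G)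
  /-- components of the frame vectors `e`, `u`, `v` as elements of `SF` -/
  frame : ∃ e u v : Fin 3 → SF,
    (∀ (a : Fin 3) (x : ℍ), x ≠ 0 → (e a) x = fe x a ∧ (u a) x = fu x a ∧ (v a) x = fv x a) ∧
    (∀ F : SF, DX F = ∑ a, e a * DZ a F) ∧ (∀ F : SF, DV F = ∑ a, u a * DZ a F) ∧
    (∀ F : SF, DH F = - ∑ a, v a * DZ a F)

/-- NORM. (0.1), (0.2) of the paper. -/
structure NormFacts : Prop where
  nrm1_sq : ∀ F : SF, nrm1 F ^ 2 = ∑ a, nrm (DZ a F) ^ 2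
  nrm1_neg : ∀ F : SF, nrm1 F ^ 2 = -(ip (Lap F) F)
  one : ∀ (F : SF) (i : Fin 6), nrm (Dlet i F) ≤ nrm1 F
  two : ∀ (F : SF) (l : List (Fin 6)), l.length = 2 → nrm (word l F) ≤ nrm (Lap F)
  four : ∀ (F : SF) (l : List (Fin 6)), l.length = 4 → nrm (word l F) ≤ nrm (Lap (Lap F))
  interp : ∀ ε : ℝ, 0 < ε → ∃ C : ℝ, ∀ (F : SF) (l : List (Fin 6)), l.length ≤ 3 →
    nrm (word l F) ≤ ε * nrm (Lap (Lap F)) + C * nrm F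

/-- MN. The polynomial spaces. -/
structure MNFacts : Prop where
  finite : ∀ n, Module.Finite ℝ (MN n)
  mono : ∀ m n : ℕ, m ≤ n → MN m ≤ MN n
  one_mem : ∀ n, (1 : SF) ∈ MN n
  R_mem : ∀ (n : ℕ) (a : ℍ) (F : SF), F ∈ MN n → R a F ∈ MN n
  Z_mem : ∀ (n : ℕ) (a : ℍ) (F : SF), F ∈ MN n → Z a F ∈ MN n
  rcomp : ∀ (n : ℕ) (ρ : ℍ) (F : SF), ρ ≠ 0 → F ∈ MN n → ∃ G ∈ MN n, ∀ x : ℍ, G x = F (x * ρ)
  lcomp : ∀ (n : ℕ) (ρ : ℍ) (F : SF), ρ ≠ 0 → F ∈ MN n → ∃ G ∈ MN n, ∀ x : ℍ, G x = F (ρ * x)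
  avgI_mem : ∀ (n : ℕ) (F : SF), F ∈ MN n → ∃ G ∈ MN n, ∀ x : ℍ, x ≠ 0 → G x = avgI F x
  avgK_mem : ∀ (n : ℕ) (F : SF), F ∈ MN n → ∃ G ∈ MN n, ∀ x : ℍ, x ≠ 0 → G x = avgK F x
  proj : ∀ (n : ℕ) (f : ℍ → ℝ), Cts f → ∃ F ∈ MN n, ∀ G ∈ MN n, ip f G = ip F G
  projV : ∀ (n : ℕ) (f g : ℍ → ℝ), Cts f → Cts g →
    (∀ x : ℍ, x ≠ 0 → ∀ t : ℝ, HasDerivAt (fun t => f (x * rot qI t)) (g (x * rot qI t)) t) →
    ∀ F ∈ MN n, (∀ G ∈ MN n, ip f G = ip F G) → ∀ G ∈ MN n, ip g G = ip (DV F) G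

/-- DENS. Density of the polynomial spaces. -/
structure DensFacts : Prop where
  mn : ∀ f : ℍ → ℝ, Cts f → ∀ ε : ℝ, 0 < ε → ∃ n, ∃ F ∈ MN n, ∀ x : ℍ, x ≠ 0 → |f x - F x| ≤ ε
  un : ∀ f : ℍ → ℝ, Cts f → IsU f → ∀ ε : ℝ, 0 < ε →
    ∃ n, ∃ F ∈ UN n, ∀ x : ℍ, x ≠ 0 → |f x - F x| ≤ ε
  mode : ∀ k : ℕ, 1 ≤ k → ∀ f : ℍ → ℝ, Cts f → IsU f → Mode k f → ∀ ε : ℝ, 0 < ε →
    ∃ n, ∃ F ∈ SNk k n, ∀ x : ℍ, x ≠ 0 → |f x - F x| ≤ ε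
  zero : ∀ F : ℍ → ℝ, Cts F → IsKlein F → (∀ n, ∀ ψ ∈ EN n, ip F ψ = 0) →
    ∀ x : ℍ, x ≠ 0 → avgK F x = 0

/-- PSI. The inverse of the average over `x rot(i,t)`, `EN n → UN n`. -/
structure PsiFacts : Prop where
  mem : ∀ (n : ℕ) (y : SF), y ∈ UN n → psi y ∈ EN n
  avg : ∀ (n : ℕ) (y : SF), y ∈ UN n → ∀ x : ℍ, x ≠ 0 → avgI (psi y) x = y x
  inj : ∀ (n : ℕ) (ψ ψ' : SF), ψ ∈ EN n → ψ' ∈ EN n →
    (∀ x : ℍ, x ≠ 0 → avgI ψ x = avgI ψ' x) → ψ = ψ'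
  surj : ∀ (n : ℕ) (ψ : SF), ψ ∈ EN n → ∃ y ∈ UN n, psi y = ψ
  add : ∀ (n : ℕ) (y z : SF), y ∈ UN n → z ∈ UN n → psi (y + z) = psi y + psi z
  smul : ∀ (n : ℕ) (c : ℝ) (y : SF), y ∈ UN n → psi (c • y) = c • psi y
  dz : ∀ (n : ℕ) (a : Fin 3) (y : SF), y ∈ UN n → psi (DZ a y) = DZ a (psi y)
  lap : ∀ (n : ℕ) (y : SF), y ∈ UN n → psi (Lap y) = Lap (psi y)
  lcomp : ∀ (n : ℕ) (ρ : ℍ) (y z : SF), ρ ≠ 0 → y ∈ UN n → z ∈ UN n → (∀ x : ℍ, z x = y (ρ * x)) →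
    ∀ x : ℍ, (psi z) x = (psi y) (ρ * x)
  dz_mem : ∀ (n : ℕ) (a : Fin 3) (y : SF), y ∈ UN n → DZ a y ∈ UN n
  lap_mem : ∀ (n : ℕ) (y : SF), y ∈ UN n → Lap y ∈ UN n
  pair : ∀ (n : ℕ) (η : SF), η ∈ UN n → ∀ f : ℍ → ℝ, Cts f → IsU f → ip f (psi η) = ip f η

/-- PEST. The Pestov bound (2.4). -/
def PestStatement : Prop :=
  ∀ (n : ℕ) (η : SF), η ∈ UN n → ∀ F G : ℍ → ℝ, Cts F → Cts G → IsKlein F →
    (∀ x : ℍ, x ≠ 0 → ∀ t : ℝ, HasDerivAt (fun t => F (x * rot qI t)) (G (x * rot qI t)) t) →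
    |ip F (psi η)| ≤ (nrm F + nrm G) * nrm η

/-- SPHERE. Integrals of u-functions over the shell as integrals over the sphere in polar
coordinates around an arbitrary pole. -/
def SphereStatement : Prop :=
  ∃ c : ℝ, 0 < c ∧ ∀ f : ℍ → ℝ, Cts f → IsU f → ∀ x : ℍ, x ≠ 0 →
    ∫ z in shell, f z =
      c * ∫ θ in (0:ℝ)..(2 * π), ∫ r in (0:ℝ)..π, f (x * rot qI θ * rot qK r) * Real.sin r

/-- SOB. (2.6) -/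
def SobStatement : Prop :=
  ∃ C : ℝ, ∀ η : SF, IsU η → ∀ x : ℍ, |η x| ≤ C * (nrm η + nrm (Lap η))

/-- GN. (2.7) -/
def GNStatement : Prop :=
  ∀ (i : Fin 6) (η : SF) (S : ℝ), (∀ x : ℍ, |η x| ≤ S) →
    nrm (fun x => (Dlet i η) x ^ 2) ≤ 3 * S * nrm (Dlet i (Dlet i η))

/-- COMP. (2.8) -/
def CompStatement : Prop :=
  ∀ (y : ℕ → SF) (C : ℝ), (∀ m, IsU (y m)) → (∀ m, ener (y m) ≤ C) →
    ∃ (φ : ℕ → ℕ) (z q : ℍ → ℝ), StrictMono φ ∧ Cts z ∧ Cts q ∧ IsU z ∧ z 0 = 0 ∧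
      TendstoUniformlyOn (fun m x => (y (φ m)) x) z atTop {0}ᶜ ∧
      TendstoUniformlyOn (fun m x => (DX (y (φ m))) x) q atTop {0}ᶜ ∧
      ∀ x : ℍ, x ≠ 0 → ∀ t : ℝ, HasDerivAt (fun t => z (x * rot qK t)) (q (x * rot qK t)) t

/-- SPEC. (2.9) -/
def SpecStatement : Prop :=
  ∀ (n m : ℕ) (F : SF), F ∈ MN m → (∀ G ∈ MN n, ip F G = 0) →
    (((n : ℝ) + 1) * (n + 2)) * nrm F ^ 2 ≤ -(ip (Lap F) F)

/-- weight components: `(1/2π) ∫ F(x rot(i,t)) e^{-ibt} dt` -/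
noncomputable def cmp (b : ℤ) (F : ℍ → ℝ) (x : ℍ) : ℂ :=
  (1 / (2 * π) : ℂ) * ∫ t in (0:ℝ)..(2 * π), (F (x * rot qI t) : ℂ) * Complex.exp (-(b * t * Complex.I))

/-- SHIFT. (3.4) with `c = w_{b-a}`, `ψ = Δ Ψ`, `Ψ = psi χ`. -/
def ShiftStatement : Prop :=
  ∀ a b : ℕ, Even a → Even b → ∃ C : ℝ, ∀ (B : ℝ) (w : SF), IsKlein w → Bd 1 B w →
    ∀ (n : ℕ) (χ : SF), χ ∈ UN n →
    ‖(∫ x in shell, cmp (b - a) w x * cmp (a + 2) (Lap (psi χ)) x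
          * (starRingEnd ℂ) (cmp (b + 2) (Lap (psi χ)) x))
      - ∫ x in shell, cmp (b - a) w x * cmp a (Lap (psi χ)) x
          * (starRingEnd ℂ) (cmp b (Lap (psi χ)) x)‖
      ≤ C * B * (nrm (Lap χ) + nrm1 χ) * (nrm1 χ + nrm χ)

/-- GARD. The Garding inequality (3.5), with constants depending only on bounds of `w`. -/
def GardStatement : Prop :=
  ∀ c₀ B : ℝ, 0 < c₀ → ∃ c : ℝ, 0 < c ∧ ∃ C : ℝ, ∀ w : SF, IsKlein w →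
    (∀ x : ℍ, x ≠ 0 → c₀ ≤ w x) → Bd 4 B w → ∀ (n : ℕ) (χ : SF), χ ∈ UN n →
    c * nrm (Lap χ) ^ 2 - C * (nrm (Lap χ) + nrm1 χ) * (nrm1 χ + nrm χ)
      ≤ ∫ x in shell, w x * (Lap χ) x * (Lap (psi χ)) x

/-! ### weights of admissible functions -/

/-- the weight as an element of `SF` -/
noncomputable def wS (p : SF) : SF := by
  classical exact if h : ∃ w : SF, ∀ x : ℍ, x ≠ 0 → w x = wf p x then h.choose else 0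

/-- `Lg(p, X p)` as an element of `SF` -/
noncomputable def LgS (p : SF) : SF := by
  classical exact if h : ∃ F : SF, ∀ x : ℍ, x ≠ 0 → F x = Lg (p x) ((DX p) x) then h.choose else 0

/-- WS. -/
structure WSFacts : Prop where
  adm_one : Adm 1
  wS_apply : ∀ p : SF, Adm p → ∀ x : ℍ, x ≠ 0 → (wS p) x = wf p x
  wS_pos : ∀ p : SF, Adm p → ∀ x : ℍ, x ≠ 0 → 0 < (wS p) x
  wS_klein : ∀ p : SF, Adm p → IsKlein (wS p)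
  wS_rotInv : ∀ p : SF, Adm p → RotInv p → RotInv (wS p)
  wS_one : wS 1 = 1
  LgS_apply : ∀ p : SF, Adm p → ∀ x : ℍ, x ≠ 0 → (LgS p) x = Lg (p x) ((DX p) x)
  LgS_klein : ∀ p : SF, Adm p → IsKlein (LgS p)
  seg_adm : ∀ p₀ p₁ : SF, Adm p₀ → Adm p₁ → ∀ s ∈ Icc (0:ℝ) 1, Adm (seg p₀ p₁ s)
  seg_rotInv : ∀ p₀ p₁ : SF, RotInv p₀ → RotInv p₁ → ∀ s : ℝ, RotInv (seg p₀ p₁ s)
  rotInv_one : RotInv (1 : SF)

/-- FAM. Uniform bounds on segments of admissible functions. -/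
structure FamFacts : Prop where
  low : ∀ p₀ p₁ : SF, Adm p₀ → Adm p₁ → ∃ c₀ : ℝ, 0 < c₀ ∧ ∀ s ∈ Icc (0:ℝ) 1,
    ∀ x : ℍ, x ≠ 0 → c₀ ≤ (seg p₀ p₁ s) x ∧ c₀ ≤ (seg p₀ p₁ s) x + (DX (DX (seg p₀ p₁ s))) x ∧
      c₀ ≤ (wS (seg p₀ p₁ s)) x
  bd : ∀ p₀ p₁ : SF, Adm p₀ → Adm p₁ → ∀ N : ℕ, ∃ B : ℝ, ∀ s ∈ Icc (0:ℝ) 1,
    Bd N B (seg p₀ p₁ s) ∧ Bd N B (wS (seg p₀ p₁ s))
  cont : ∀ p₀ p₁ : SF, Adm p₀ → Adm p₁ → ∀ N : ℕ, ∀ ε : ℝ, 0 < ε → ∃ δ : ℝ, 0 < δ ∧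
    ∀ s ∈ Icc (0:ℝ) 1, ∀ s' ∈ Icc (0:ℝ) 1, |s - s'| < δ →
    Bd N ε (wS (seg p₀ p₁ s) - wS (seg p₀ p₁ s'))

/-! ### Block N: the nonlinear part (Paper sections 1, 4, 5) -/

/-- DEG. Degree lemma. -/
def DegStatement : Prop :=
  ∀ (E : Type) [NormedAddCommGroup E] [NormedSpace ℝ E] [FiniteDimensional ℝ E]
    (r : ℝ) (f : ℝ → E → E) (A₀ A₁ : E →L[ℝ] E), 0 < r →
    ContinuousOn (Function.uncurry f) (Icc (0:ℝ) 1 ×ˢ Metric.closedBall 0 r) →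
    (∀ s ∈ Icc (0:ℝ) 1, ∀ y, ‖y‖ = r → f s y ≠ 0) →
    f 0 0 = 0 → f 1 0 = 0 → HasFDerivAt (f 0) A₀ 0 → HasFDerivAt (f 1) A₁ 0 →
    (∀ y, ‖y‖ ≤ r → f 0 y = 0 → y = 0) → (∀ y, ‖y‖ ≤ r → f 1 y = 0 → y = 0) →
    LinearMap.det (A₀ : E →ₗ[ℝ] E) ≠ 0 → LinearMap.det (A₁ : E →ₗ[ℝ] E) ≠ 0 →
    0 < LinearMap.det (A₀ : E →ₗ[ℝ] E) * LinearMap.det (A₁ : E →ₗ[ℝ] E)

/-- SMALL. Small perturbations of a segment of admissible functions are admissible. -/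
def SmallStatement : Prop :=
  ∀ p₀ p₁ : SF, Adm p₀ → Adm p₁ → ∃ ε : ℝ, 0 < ε ∧ ∃ c₀ : ℝ, 0 < c₀ ∧ ∀ s ∈ Icc (0:ℝ) 1,
    ∀ y : SF, IsU y → ener y ≤ ε → ∀ x : ℍ, x ≠ 0 → Adm (seg p₀ p₁ s + y) ∧
      c₀ ≤ (seg p₀ p₁ s + y) x ∧
      c₀ ≤ (seg p₀ p₁ s + y) x + (DX (DX (seg p₀ p₁ s + y))) x

/-- ENER1. The nonlinear estimate behind (4.2), (4.3): the fourth order derivatives of
`Lg(P+y) - Lg(P)` are, up to small errors, `-w_P Δ²y`. -/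
def Ener1Statement : Prop :=
  ∀ p₀ p₁ : SF, Adm p₀ → Adm p₁ → ∃ ε : ℝ, 0 < ε ∧ ∃ C : ℝ, ∀ s ∈ Icc (0:ℝ) 1,
    ∀ (n : ℕ) (y : SF), y ∈ UN n → ener y ≤ ε → ∀ M : ℝ,
    (∀ l : List (Fin 6), l.length ≤ 3 → nrm (word l y) ≤ M) →
    ∀ η ∈ UN n,
    |ip (Lap (Lap (LgS (seg p₀ p₁ s + y) - LgS (seg p₀ p₁ s)))) (psi η)
      + Bil (wS (seg p₀ p₁ s)) (Lap (Lap y)) η|
      ≤ C * (ener y * nrm (Lap (Lap y)) + M) * nrm η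

/-- ENER. Proposition (4.4). -/
def EnerStatement : Prop :=
  ∀ p₀ p₁ : SF, Adm p₀ → Adm p₁ → ∃ ε : ℝ, 0 < ε ∧ ∃ C : ℝ, ∀ s ∈ Icc (0:ℝ) 1,
    ∀ (n : ℕ) (y : SF), y ∈ UN n → ener y ≤ ε →
    (∀ ψ ∈ EN n, ip (LgS (seg p₀ p₁ s + y) - LgS (seg p₀ p₁ s - y) : SF) ψ = 0) →
    ener y ≤ C * nrm y

/-- GAUGE. Admissible functions and their limits are gauges. -/
structure GaugeFacts : Prop where
  adm : ∀ p : SF, Adm p → Gaugeable p (DX p)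
  lim : ∀ (P : ℕ → SF) (p q : ℍ → ℝ), (∀ m, Adm (P m)) → Cts p → Cts q → IsU p →
    (∀ x : ℍ, x ≠ 0 → 0 < p x) →
    TendstoUniformlyOn (fun m x => (P m) x) p atTop {0}ᶜ →
    TendstoUniformlyOn (fun m x => (DX (P m)) x) q atTop {0}ᶜ →
    (∀ x : ℍ, x ≠ 0 → ∀ t : ℝ, HasDerivAt (fun t => p (x * rot qK t)) (q (x * rot qK t)) t) →
    Gaugeable p q

/-- GEO. Two different gauges with equal perimeters give the frozen statement. -/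
def GeoStatement : Prop :=
  ∀ p₁ q₁ p₂ q₂ : ℍ → ℝ, Gaugeable p₁ q₁ → Gaugeable p₂ q₂ →
    (∀ x : ℍ, x ≠ 0 → avgK (fun z => Lg (p₁ z) (q₁ z)) x = avgK (fun z => Lg (p₂ z) (q₂ z)) x) →
    (∃ x : ℍ, x ≠ 0 ∧ p₁ x ≠ p₂ x) → NonUniqueness

/-- THMN. Theorem N. -/
def ThmNStatement : Prop :=
  ∀ (m : ℕ) (p : SF), 1 ≤ m → Adm p → RotInv p → SecKerTriv m (wf p) →
    (∃ᶠ n in atTop, NegDet (SecN m n) (wf p)) → NonUniqueness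

/-! ### Block L: the linear theory (Paper sections 6, 8) -/

/-- DET. Determinants of the bilinear forms. -/
structure DetFacts : Prop where
  /-- the sign does not depend on the basis -/
  basis : ∀ (W : Submodule ℝ SF) (n : ℕ) (w : ℍ → ℝ), Cts w → W ≤ UN n →
    ∀ (d d' : ℕ) (b : Module.Basis (Fin d) ℝ W) (b' : Module.Basis (Fin d') ℝ W),
    (0 < detW b w ↔ 0 < detW b' w) ∧ (detW b w < 0 ↔ detW b' w < 0)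
  /-- nonsingular forms have a sign -/
  dich : ∀ (W : Submodule ℝ SF) (n : ℕ) (w : ℍ → ℝ), Cts w → W ≤ UN n →
    (∀ y ∈ W, (∀ η ∈ W, Bil w y η = 0) → y = 0) → PosDet W w ∨ NegDet W w
  /-- conversely -/
  nonsing : ∀ (W : Submodule ℝ SF) (n : ℕ) (w : ℍ → ℝ), Cts w → W ≤ UN n →
    (PosDet W w ∨ NegDet W w) → ∀ y ∈ W, (∀ η ∈ W, Bil w y η = 0) → y = 0
  /-- coercive forms have positive determinant -/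
  coer : ∀ (W : Submodule ℝ SF) (n : ℕ) (w : ℍ → ℝ), Cts w → W ≤ UN n →
    (∀ y ∈ W, y ≠ 0 → 0 < Bil w y y) → PosDet W w
  /-- homotopy: the sign is constant along continuous families of nonsingular forms -/
  homot : ∀ (W : Submodule ℝ SF) (n : ℕ) (w : ℝ → ℍ → ℝ), (∀ s, Cts (w s)) → W ≤ UN n →
    (∀ s ∈ Icc (0:ℝ) 1, ∀ ε : ℝ, 0 < ε → ∃ δ : ℝ, 0 < δ ∧ ∀ s' ∈ Icc (0:ℝ) 1, |s - s'| < δ →
      ∀ x : ℍ, x ≠ 0 → |w s x - w s' x| ≤ ε) →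
    ∀ a ∈ Icc (0:ℝ) 1, ∀ b ∈ Icc (0:ℝ) 1, a ≤ b →
    (∀ s ∈ Icc a b, ∀ y ∈ W, (∀ η ∈ W, Bil (w s) y η = 0) → y = 0) →
    ((PosDet W (w a) ∧ PosDet W (w b)) ∨ (NegDet W (w a) ∧ NegDet W (w b)))
  /-- at most one sign -/
  excl : ∀ (W : Submodule ℝ SF) (n : ℕ) (w : ℍ → ℝ), Cts w → W ≤ UN n →
    ¬ (PosDet W w ∧ NegDet W w)

/-- MODE. Rotations about the third axis. -/
structure ModeFacts : Prop where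
  /-- projection to a mode -/
  proj : ∀ k n : ℕ, 1 ≤ k → ∀ y ∈ UN n, ∃ z ∈ SNk k n, ∀ w : ℍ → ℝ, Cts w → RotInv w →
    (∀ η ∈ SNk k n, Bil w η y = Bil w η z ∧ Bil w y η = Bil w z η)
  /-- `Z_k² y = -k² y` -/
  zz : ∀ (k : ℕ) (y : SF), Mode k y → DZ 2 (DZ 2 y) = -((k:ℝ) ^ 2) • y
  lap_mem : ∀ (k n : ℕ) (y : SF), y ∈ SNk k n → Lap y ∈ SNk k n
  /-- the Laplacian is onto on modes `k ≥ 1` -/
  lap_surj : ∀ (k n : ℕ), 1 ≤ k → ∀ y ∈ SNk k n, ∃ χ ∈ SNk k n, Lap χ = y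
  /-- weak solutions tested with `SNk k n` are weak solutions tested with `UN n` -/
  ker : ∀ (k n : ℕ), 1 ≤ k → ∀ w : ℍ → ℝ, Cts w → IsKlein w → RotInv w → ∀ y ∈ SNk k n,
    ∀ b : SF, IsE b → Mode k b →
    (∀ η ∈ SNk k n, Bil w y η + ip b (psi η) = 0) → ∀ ψ ∈ EN n, ip (fun x => w x * y x + b x) ψ = 0

/-- LINEN. Linear energy estimate with a smooth right hand side. -/
def LinenStatement : Prop :=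
  ∀ c₀ B : ℝ, 0 < c₀ → ∃ C : ℝ, ∀ w : SF, IsKlein w → (∀ x : ℍ, x ≠ 0 → c₀ ≤ w x) → Bd 6 B w →
    ∀ (β : ℝ) (b : SF), IsE b → Bd 6 β b → ∀ (n : ℕ) (y : SF), y ∈ UN n →
    (∀ ψ ∈ EN n, ip (fun x => w x * y x + b x) ψ = 0) → ener y ≤ C * (nrm y + β)

/-- LINA. High modes. -/
def LinAStatement : Prop :=
  ∀ p₀ p₁ : SF, Adm p₀ → Adm p₁ → RotInv p₀ → RotInv p₁ → ∃ M : ℕ, ∀ k : ℕ, M ≤ k →
    ∀ s ∈ Icc (0:ℝ) 1, KerTriv k (wf (seg p₀ p₁ s)) ∧ ∀ n, PosDet (SNk k n) (wf (seg p₀ p₁ s))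

/-- LINB. Local constancy of signs near nonsingular parameters. -/
def LinBStatement : Prop :=
  ∀ p₀ p₁ : SF, Adm p₀ → Adm p₁ → RotInv p₀ → RotInv p₁ → ∀ k : ℕ, 1 ≤ k →
    ∀ s₀ ∈ Icc (0:ℝ) 1, KerTriv k (wf (seg p₀ p₁ s₀)) →
    ∃ δ : ℝ, 0 < δ ∧ ∃ N₀ : ℕ, ∀ s ∈ Icc (0:ℝ) 1, |s - s₀| < δ → ∀ n : ℕ, N₀ ≤ n →
      (PosDet (SNk k n) (wf (seg p₀ p₁ s)) ∧ PosDet (SNk k n) (wf (seg p₀ p₁ s₀))) ∨
      (NegDet (SNk k n) (wf (seg p₀ p₁ s)) ∧ NegDet (SNk k n) (wf (seg p₀ p₁ s₀)))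

/-- ANAL. Bounded sequences of holomorphic functions. -/
def AnalStatement : Prop :=
  ∀ (D : Set ℂ) (d : ℕ → ℂ → ℂ) (C c : ℝ) (z₀ : ℂ) (K : Set ℂ), IsOpen D → IsPreconnected D →
    (∀ n, DifferentiableOn ℂ (d n) D) → (∀ n, ∀ z ∈ D, ‖d n z‖ ≤ C) → z₀ ∈ D → 0 < c →
    (∀ n, c ≤ ‖d n z₀‖) → IsCompact K → K ⊆ D →
    {z ∈ K | Tendsto (fun n => d n z) atTop (𝓝 0)}.Finite

/-- LINC. Finitely many singular parameters on the segment from the ball. -/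
def LinCStatement : Prop :=
  ∀ p : SF, Adm p → RotInv p → ∀ k : ℕ, 1 ≤ k →
    {s : ℝ | s ∈ Icc (0:ℝ) 1 ∧ ¬ KerTriv k (wf (seg 1 p s))}.Finite

/-- FOUR. Fourier decomposition of a sector. -/
structure FourFacts : Prop where
  ker : ∀ (m : ℕ) (w : ℍ → ℝ), 1 ≤ m → Cts w → IsKlein w → RotInv w →
    (∀ k : ℕ, Odd k → KerTriv (m * k) w) → SecKerTriv m w
  det : ∀ (m n : ℕ) (w : ℍ → ℝ), 1 ≤ m → Cts w → IsKlein w → RotInv w →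
    NegDet (SNk m n) w → (∀ k : ℕ, Odd k → 1 < k → PosDet (SNk (m * k) n) w) →
    NegDet (SecN m n) w

/-- THML. Theorem L. -/
def ThmLStatement : Prop :=
  ∀ p : SF, Adm p → RotInv p → KerTriv 4 (wf p) →
    (∃ᶠ n in atTop, NegDet (SNk 4 n) (wf p)) → NonUniqueness

/-- BORD. Comparison of two bodies by bordering (section 8). -/
def BordStatement : Prop :=
  ∀ (p₀ p₁ : SF) (P b : Fin 2 → SF) (C₀ C₁ : Matrix (Fin 2) (Fin 2) ℝ),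
    Adm p₀ → Adm p₁ → RotInv p₀ → RotInv p₁ → (∀ i, IsE (b i)) → (∀ i, Mode 4 (b i)) →
    (∀ s ∈ Icc (0:ℝ) 1, ∀ (y : ℍ → ℝ) (c : Fin 2 → ℝ), Cts y → IsU y → Mode 4 y →
      (∀ x : ℍ, x ≠ 0 → avgK (fun z => wf (seg p₀ p₁ s) z * y z) x + ∑ i, c i * (b i) x = 0) →
      (∀ i, ip y (P i) = 0) → (∀ x : ℍ, x ≠ 0 → y x = 0) ∧ c = 0) →
    (∀ (y : ℍ → ℝ) (c : Fin 2 → ℝ), Cts y → IsU y → Mode 4 y →
      (∀ x : ℍ, x ≠ 0 → avgK (fun z => wf p₀ z * y z) x + ∑ i, c i * (b i) x = 0) →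
      c = C₀.mulVec fun i => ip y (P i)) →
    (∀ (y : ℍ → ℝ) (c : Fin 2 → ℝ), Cts y → IsU y → Mode 4 y →
      (∀ x : ℍ, x ≠ 0 → avgK (fun z => wf p₁ z * y z) x + ∑ i, c i * (b i) x = 0) →
      c = C₁.mulVec fun i => ip y (P i)) →
    C₀.det * C₁.det < 0 →
    KerTriv 4 (wf p₀) ∧ KerTriv 4 (wf p₁) ∧ ∃ N₀ : ℕ, ∀ n : ℕ, N₀ ≤ n →
      (NegDet (SNk 4 n) (wf p₀) ∨ NegDet (SNk 4 n) (wf p₁))

/-! ### Block R: reduction to one variable (Paper section 7) -/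

/-- `S = ψ - t ψ'` -/
noncomputable def Sf (ψ : ℝ → ℝ) (t : ℝ) : ℝ := ψ t - t * deriv ψ t

/-- the weight in one variable -/
noncomputable def W1 (ψ : ℝ → ℝ) (t a : ℝ) : ℝ :=
  (Sf ψ t + (a ^ 2 - t ^ 2) * deriv (deriv ψ) t) /
    Real.sqrt (ψ t ^ 2 + (a ^ 2 - t ^ 2) * (deriv ψ t ^ 2 + Sf ψ t ^ 2)) ^ 3

/-- the one-dimensional operator `T g(a) = ∫₀^{π/2} cos 4φ g(a cos φ) W(a cos φ, a) dφ` -/
noncomputable def T1 (ψ g : ℝ → ℝ) (a : ℝ) : ℝ :=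
  ∫ φ in (0:ℝ)..(π / 2), Real.cos (4 * φ) * g (a * Real.cos φ) * W1 ψ (a * Real.cos φ) a

/-- profile of the unit sphere centred at height `h` -/
noncomputable def psiCap (h t : ℝ) : ℝ := (h * t - Real.sqrt (t ^ 2 - h ^ 2 + 1)) / (h ^ 2 - 1)

/-- smooth profiles ending with the cap for `t ≥ tc` -/
structure IsProf (h tc : ℝ) (ψ : ℝ → ℝ) : Prop where
  one_lt : 1 < h
  tc_pos : 0 < tc
  tc_lt : h ^ 2 - 1 < tc ^ 2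
  smooth : ContDiff ℝ ∞ ψ
  even : ∀ t, ψ (-t) = ψ t
  conv : ∀ t, 0 < deriv (deriv ψ) t
  S_pos : ∀ t, 0 < Sf ψ t
  cap : ∀ t, tc ≤ t → ψ t = psiCap h t

/-- `p` is the gauge of the body of revolution with profile `ψ` -/
def IsBody (ψ : ℝ → ℝ) (p : SF) : Prop :=
  ∀ x : ℍ, x ≠ 0 → 0 < fu x 0 ^ 2 + fu x 1 ^ 2 →
    p x = Real.sqrt (fu x 0 ^ 2 + fu x 1 ^ 2) * ψ (fu x 2 / Real.sqrt (fu x 0 ^ 2 + fu x 1 ^ 2))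

/-- the frames with `u = (1,0,t)/√(1+t²)` and `e = (-t,0,1)/√(1+t²)` -/
noncomputable def xj (t : ℝ) : ℍ := rot qJ (-Real.arctan t)

/-- the function of one variable `g` with `y = ρ g(|t|) cos 4φ` -/
noncomputable def gy (y : ℍ → ℝ) (t : ℝ) : ℝ := Real.sqrt (1 + t ^ 2) * y (xj t)

/-- BODY. -/
def BodyStatement : Prop :=
  ∀ (h tc : ℝ) (ψ : ℝ → ℝ), IsProf h tc ψ → ∃ p : SF, Adm p ∧ RotInv p ∧ IsBody ψ p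

/-- RED. -/
structure RedFacts : Prop where
  T : ∀ (h tc : ℝ) (ψ : ℝ → ℝ) (p : SF), IsProf h tc ψ → Adm p → IsBody ψ p →
    ∀ y : ℍ → ℝ, Cts y → IsU y → Mode 4 y → ∀ a : ℝ, 0 < a →
      avgK (fun z => wf p z * y z) (xj a) = (2 / π) * (1 + a ^ 2) * T1 ψ (gy y) a
  zero : ∀ y : ℍ → ℝ, Cts y → IsU y → Mode 4 y → (∀ t : ℝ, 0 < t → gy y t = 0) →
    ∀ x : ℍ, x ≠ 0 → y x = 0
  cont : ∀ y : ℍ → ℝ, Cts y → Continuous (gy y)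
  bdd : ∀ y : ℍ → ℝ, Cts y → ∃ C : ℝ, ∀ t : ℝ, |gy y t| ≤ C * (1 + |t|)
  even : ∀ y : ℍ → ℝ, Cts y → IsU y → Mode 4 y → ∀ t : ℝ, gy y (-t) = gy y t

/-- BEFN. Smooth e-functions of mode 4 with given values. -/
def BefnStatement : Prop :=
  ∀ β : ℝ → ℝ, ContDiff ℝ ∞ β → HasCompactSupport β → tsupport β ⊆ Ioi 0 →
    ∃ b : SF, IsE b ∧ Mode 4 b ∧ ∀ a : ℝ, 0 < a → b (xj a) = β a

/-- PFN. Functionals. -/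
def PfnStatement : Prop :=
  ∀ (t₁ : ℝ) (ϖ : ℝ → ℝ), 0 < t₁ → ContDiff ℝ ∞ ϖ → HasCompactSupport ϖ → tsupport ϖ ⊆ Ioo 0 t₁ →
    ∃ P : SF, ∀ y : ℍ → ℝ, Cts y → IsU y → Mode 4 y → ip y P = ∫ t in (0:ℝ)..t₁, ϖ t * gy y t

/-! ### Block V, E: one variable (Paper sections 7-10) -/

/-- linear growth -/
def LinGrowth (g : ℝ → ℝ) : Prop := ∃ C : ℝ, ∀ t : ℝ, |g t| ≤ C * (1 + |t|)

/-- segment of profiles -/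
noncomputable def psiSeg (ψ₀ ψ₁ : ℝ → ℝ) (s t : ℝ) : ℝ := (1 - s) * ψ₀ t + s * ψ₁ t

/-- SIGN1D. The final statement in one variable. -/
def Sign1DStatement : Prop :=
  ∃ (h t₁ tc : ℝ) (ψ₀ ψ₁ : ℝ → ℝ) (β ϖ : Fin 2 → ℝ → ℝ) (C₀ C₁ : Matrix (Fin 2) (Fin 2) ℝ),
    0 < t₁ ∧ t₁ < tc ∧ IsProf h tc ψ₀ ∧ IsProf h tc ψ₁ ∧
    (∀ i, ContDiff ℝ ∞ (β i) ∧ HasCompactSupport (β i) ∧ tsupport (β i) ⊆ Ioi 0) ∧
    (∀ i, ContDiff ℝ ∞ (ϖ i) ∧ HasCompactSupport (ϖ i) ∧ tsupport (ϖ i) ⊆ Ioo 0 t₁) ∧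
    (∀ s ∈ Icc (0:ℝ) 1, ∀ (g : ℝ → ℝ) (c : Fin 2 → ℝ), Continuous g → LinGrowth g →
      (∀ a : ℝ, 0 < a → T1 (psiSeg ψ₀ ψ₁ s) g a + ∑ i, c i * β i a = 0) →
      (∀ i, ∫ t in (0:ℝ)..t₁, ϖ i t * g t = 0) → (∀ t : ℝ, 0 < t → g t = 0) ∧ c = 0) ∧
    (∀ (g : ℝ → ℝ) (c : Fin 2 → ℝ), Continuous g → LinGrowth g →
      (∀ a : ℝ, 0 < a → T1 ψ₀ g a + ∑ i, c i * β i a = 0) →
      c = C₀.mulVec fun i => ∫ t in (0:ℝ)..t₁, ϖ i t * g t) ∧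
    (∀ (g : ℝ → ℝ) (c : Fin 2 → ℝ), Continuous g → LinGrowth g →
      (∀ a : ℝ, 0 < a → T1 ψ₁ g a + ∑ i, c i * β i a = 0) →
      c = C₁.mulVec fun i => ∫ t in (0:ℝ)..t₁, ϖ i t * g t) ∧
    C₀.det * C₁.det < 0

end Pool.Agent.MP85963d
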