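import Mathlib
import Pool.Agent.Lib.MP_85963d_gt.Gauge
import Pool.Agent.Lib.MP_85963d_gt.CurveLength

/-!
# The perimeter of a central section in terms of the gauge
-/

set_option autoImplicit false

open MeasureTheory Set Filter Topology Quaternion
open scoped Real

namespace Pool.Agent.MP85963d

/-- the relative boundary of a central section is the unit gauge sphere in the plane -/
theorem intrinsicFrontier_section {K : Set E3} (hK : IsCompact K) (hc : Convex ℝ K)
    (h0 : K ∈ 𝓝 (0:E3)) (e : E3) :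
    intrinsicFrontier ℝ (K ∩ {x : E3 | inner ℝ x e = (0:ℝ)})
      = {x : E3 | inner ℝ x e = (0:ℝ) ∧ gauge K x = 1} := by
  set S : Set E3 := K ∩ {x : E3 | inner ℝ x e = (0:ℝ)} with hS
  have hKcl : IsClosed K := hK.isClosed
  have hScl : IsClosed S :=
    hKcl.inter (isClosed_eq (continuous_id.inner continuous_const) continuous_const)
  have h0S : (0:E3) ∈ S := ⟨mem_of_mem_nhds h0, by simp⟩
  have hspan : ∀ y ∈ affineSpan ℝ S, inner ℝ y e = (0:ℝ) := by
    have h1 : affineSpan ℝ S ≤ ((ℝ ∙ e)ᗮ).toAffineSubspace := by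
      rw [affineSpan_le]
      intro y hy
      rw [SetLike.mem_coe, Submodule.mem_toAffineSubspace,
        Submodule.mem_orthogonal_singleton_iff_inner_left]
      exact hy.2
    intro y hy
    have h2 := h1 hy
    rwa [Submodule.mem_toAffineSubspace,
      Submodule.mem_orthogonal_singleton_iff_inner_left] at h2
  have hAcl : IsClosed ((↑) ⁻¹' S : Set (affineSpan ℝ S)) := hScl.preimage continuous_subtype_val
  ext x
  constructor
  · rintro ⟨y, hy, rfl⟩
    rw [hAcl.frontier_eq] at hy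
    obtain ⟨hyS, hyi⟩ := hy
    refine ⟨hyS.2, ?_⟩
    refine le_antisymm (gauge_le_one_of_mem hyS.1) ?_
    by_contra hlt
    rw [not_le] at hlt
    apply hyi
    rw [gauge_lt_one_iff_mem_interior hc h0] at hlt
    rw [mem_interior]
    refine ⟨(fun w : affineSpan ℝ S => (w : E3)) ⁻¹' interior K, ?_,
      isOpen_interior.preimage continuous_subtype_val, hlt⟩
    intro w hw
    exact ⟨interior_subset hw, hspan w w.2⟩
  · rintro ⟨hxe, hx1⟩
    have hxK : x ∈ K := by
      have := (gauge_le_one_iff_mem_closure hc h0).1 hx1.le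
      rwa [hKcl.closure_eq] at this
    have hxS : x ∈ S := ⟨hxK, hxe⟩
    refine ⟨⟨x, subset_affineSpan ℝ S hxS⟩, ?_, rfl⟩
    rw [hAcl.frontier_eq]
    refine ⟨hxS, ?_⟩
    intro hint
    have hmem : ∀ s : ℝ, s • x ∈ affineSpan ℝ S := by
      intro s
      have := AffineMap.lineMap_mem s (subset_affineSpan ℝ S h0S) (subset_affineSpan ℝ S hxS)
      simpa [AffineMap.lineMap_apply] using this
    let c : ℝ → affineSpan ℝ S := fun s => ⟨s • x, hmem s⟩
    have hcc : Continuous c := (continuous_id.smul continuous_const).subtype_mk _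
    have hc1 : c 1 = ⟨x, subset_affineSpan ℝ S hxS⟩ := by
      apply Subtype.ext
      simp [c]
    have hn : c ⁻¹' (interior ((↑) ⁻¹' S : Set (affineSpan ℝ S))) ∈ 𝓝 (1:ℝ) := by
      apply (isOpen_interior.preimage hcc).mem_nhds
      rw [mem_preimage, hc1]
      exact hint
    have hn2 : ∀ᶠ s in 𝓝[>] (1:ℝ),
        s ∈ c ⁻¹' (interior ((↑) ⁻¹' S : Set (affineSpan ℝ S))) :=
      mem_nhdsWithin_of_mem_nhds hn
    obtain ⟨s, hs1, hs2⟩ := (hn2.and self_mem_nhdsWithin).exists
    have h3' : c s ∈ ((↑) ⁻¹' S : Set (affineSpan ℝ S)) := interior_subset hs1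
    have h3 : s • x ∈ S := h3'
    have h4 : gauge K (s • x) ≤ 1 := gauge_le_one_of_mem h3.1
    have hs2' : (1:ℝ) < s := hs2
    rw [gauge_smul_of_nonneg (by linarith), hx1, smul_eq_mul, mul_one] at h4
    linarith

/-- completing an orthonormal pair to a triple -/
theorem exists_third {u a : E3} (hu : ‖u‖ = 1) (ha : ‖a‖ = 1) (hua : inner ℝ u a = (0:ℝ)) :
    ∃ b : E3, ‖b‖ = 1 ∧ inner ℝ u b = (0:ℝ) ∧ inner ℝ a b = (0:ℝ) := by
  have hlt : Module.finrank ℝ (Submodule.span ℝ ({u, a} : Set E3)) < Module.finrank ℝ E3 := by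
    calc Module.finrank ℝ (Submodule.span ℝ ({u, a} : Set E3)) ≤ 2 := by
          classical
          have := finrank_span_finset_le_card (R := ℝ) ({u, a} : Finset E3)
          have h2 := this.trans Finset.card_le_two
          rw [Set.finrank, Finset.coe_insert, Finset.coe_singleton] at h2
          exact h2
      _ < Module.finrank ℝ E3 := by simp
  have hne : (Submodule.span ℝ ({u, a} : Set E3))ᗮ ≠ ⊥ := by
    intro h
    rw [Submodule.orthogonal_eq_bot_iff] at h
    rw [h, finrank_top] at hlt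
    exact lt_irrefl _ hlt
  obtain ⟨c, hc, hc0⟩ := Submodule.exists_mem_ne_zero_of_ne_bot hne
  have hn : 0 < ‖c‖ := norm_pos_iff.2 hc0
  rw [Submodule.mem_orthogonal] at hc
  have h1 := hc u (Submodule.subset_span (by simp))
  have h2 := hc a (Submodule.subset_span (by simp))
  refine ⟨‖c‖⁻¹ • c, ?_, ?_, ?_⟩
  · rw [norm_smul, norm_inv, norm_norm, inv_mul_cancel₀ hn.ne']
  · rw [inner_smul_right, h1, mul_zero]
  · rw [inner_smul_right, h2, mul_zero]

/-- expansion in an orthonormal triple -/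
theorem expand3 {u v e : E3} (hu : ‖u‖ = 1) (hv : ‖v‖ = 1) (he : ‖e‖ = 1)
    (huv : inner ℝ u v = (0:ℝ)) (hue : inner ℝ u e = (0:ℝ)) (hve : inner ℝ v e = (0:ℝ))
    {x : E3} (hx : inner ℝ x e = (0:ℝ)) :
    x = (inner ℝ u x : ℝ) • u + (inner ℝ v x : ℝ) • v := by
  have hon : Orthonormal ℝ ![u, v, e] := by
    rw [orthonormal_iff_ite]
    intro i j
    fin_cases i <;> fin_cases j <;>
      simp [hu, hv, he, huv, hue, hve, real_inner_comm u v, real_inner_comm u e,
        real_inner_comm v e]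
  have hspan : Submodule.span ℝ (Set.range ![u, v, e]) = ⊤ := by
    apply hon.linearIndependent.span_eq_top_of_card_eq_finrank
    simp
  have h1 := (OrthonormalBasis.mk hon hspan.ge).sum_repr' x
  rw [Fin.sum_univ_three] at h1
  simp only [OrthonormalBasis.coe_mk] at h1
  have h2 : inner ℝ e x = (0:ℝ) := by rw [real_inner_comm]; exact hx
  have h3 : (inner ℝ u x : ℝ) • u + (inner ℝ v x : ℝ) • v + (inner ℝ e x : ℝ) • e = x := h1
  rw [h2, zero_smul, add_zero] at h3
  exact h3.symm

/-- polar coordinates with angle in `[0, 2π)` -/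
theorem exists_polar (a b : ℝ) : ∃ t ∈ Ico (0:ℝ) (2 * π), ∃ r : ℝ, 0 ≤ r ∧
    a = r * Real.cos t ∧ b = r * Real.sin t := by
  set w : ℂ := ⟨a, b⟩
  have h1 : ‖w‖ * Real.cos w.arg = a := Complex.norm_mul_cos_arg w
  have h2 : ‖w‖ * Real.sin w.arg = b := Complex.norm_mul_sin_arg w
  have h3 := Complex.neg_pi_lt_arg w
  have h4 := Complex.arg_le_pi w
  have hpi := Real.pi_pos
  by_cases h : 0 ≤ w.arg
  · exact ⟨w.arg, ⟨h, by linarith⟩, ‖w‖, norm_nonneg _, h1.symm, h2.symm⟩
  · rw [not_le] at h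
    refine ⟨w.arg + 2 * π, ⟨by linarith, by linarith⟩, ‖w‖, norm_nonneg _, ?_, ?_⟩
    · rw [Real.cos_add_two_pi]; exact h1.symm
    · rw [Real.sin_add_two_pi]; exact h2.symm

/-- the boundary curve of the section -/
noncomputable def bcurve (Φ : E3 → ℝ) (z : ℍ) (t : ℝ) : E3 :=
  (gq Φ (z * rot qK t))⁻¹ • fu (z * rot qK t)

/-- its velocity -/
noncomputable def bcurve' (Φ : E3 → ℝ) (z : ℍ) (t : ℝ) : E3 :=
  (gq Φ (z * rot qK t))⁻¹ • fv (z * rot qK t)
    + (-gp Φ (z * rot qK t) / gq Φ (z * rot qK t) ^ 2) • fu (z * rot qK t)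

section

variable {Φ : E3 → ℝ}

theorem hasDerivAt_bcurve (h : IsGauge Φ) {z : ℍ} (hz : z ≠ 0) (t : ℝ) :
    HasDerivAt (bcurve Φ z) (bcurve' Φ z t) t := by
  have h1 := (hasDerivAt_gqK h hz t).fun_inv (gq_pos h (mul_rot_ne_zero isImUnit_K hz t)).ne'
  have h2 := h1.fun_smul (hasDerivAt_fuK z t)
  exact h2

theorem continuous_bcurve' (h : IsGauge Φ) {z : ℍ} (hz : z ≠ 0) : Continuous (bcurve' Φ z) := by
  have c1 := continuous_comp_rot isImUnit_K (continuousOn_gq h) hz
  have c2 := continuous_comp_rot isImUnit_K (continuousOn_gp h) hz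
  have c3 : Continuous fun t => fu (z * rot qK t) :=
    continuous_iff_continuousAt.2 fun t => (hasDerivAt_fuK z t).continuousAt
  have c4 : Continuous fun t => fv (z * rot qK t) :=
    continuous_iff_continuousAt.2 fun t => (hasDerivAt_fvK z t).continuousAt
  have hne : ∀ t, gq Φ (z * rot qK t) ≠ 0 := fun t =>
    (gq_pos h (mul_rot_ne_zero isImUnit_K hz t)).ne'
  unfold bcurve'
  exact ((c1.inv₀ hne).smul c4).add
    ((c2.neg.div (c1.pow 2) fun t => pow_ne_zero 2 (hne t)).smul c3)

theorem norm_bcurve' (h : IsGauge Φ) {z : ℍ} (hz : z ≠ 0) (t : ℝ) :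
    ‖bcurve' Φ z t‖ = len Φ (z * rot qK t) := by
  have hne := mul_rot_ne_zero isImUnit_K hz t
  have hq := gq_pos h hne
  have hlen : 0 ≤ len Φ (z * rot qK t) := div_nonneg (sN_nonneg _ _) (by positivity)
  rw [← sq_eq_sq₀ (norm_nonneg _) hlen]
  have e1 : ‖bcurve' Φ z t‖ ^ 2 = ((gq Φ (z * rot qK t))⁻¹) ^ 2
      + (-gp Φ (z * rot qK t) / gq Φ (z * rot qK t) ^ 2) ^ 2 := by
    unfold bcurve'
    rw [norm_add_sq_real, norm_smul, norm_smul, norm_fu hne, norm_fv hne, mul_one, mul_one,
      inner_smul_left, inner_smul_right, real_inner_comm, inner_fu_fv hne, Real.norm_eq_abs,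
      Real.norm_eq_abs, sq_abs, sq_abs]
    simp
  rw [e1, len, div_pow _ _ 2, div_pow _ _ 2, sN_sq]
  field_simp

theorem inner_bcurve (z : ℍ) (hz : z ≠ 0) (t : ℝ) :
    inner ℝ (bcurve Φ z t) (fe z) = (0:ℝ) := by
  unfold bcurve
  rw [fu_rotK, inner_smul_left, inner_add_left, inner_smul_left, inner_smul_left,
    inner_fu_fe hz, inner_fv_fe hz]
  simp

theorem gauge_bcurve (h : IsGauge Φ) {z : ℍ} (hz : z ≠ 0) (t : ℝ) :
    Φ (bcurve Φ z t) = 1 := by
  have hq := gq_pos h (mul_rot_ne_zero isImUnit_K hz t)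
  unfold bcurve
  rw [h.hom _ _ (inv_pos.2 hq)]
  exact inv_mul_cancel₀ hq.ne'

/-- the boundary curve traces the whole relative boundary -/
theorem image_bcurve (h : IsGauge Φ) {z : ℍ} (hz : z ≠ 0) :
    bcurve Φ z '' Ico (0:ℝ) (2 * π) = {x : E3 | inner ℝ x (fe z) = (0:ℝ) ∧ Φ x = 1} := by
  apply Set.Subset.antisymm
  · rintro _ ⟨t, -, rfl⟩
    exact ⟨inner_bcurve z hz t, gauge_bcurve h hz t⟩
  · rintro x ⟨hxe, hx1⟩
    have hex := expand3 (norm_fu hz) (norm_fv hz) (norm_fe hz) (inner_fu_fv hz)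
      (inner_fu_fe hz) (inner_fv_fe hz) hxe
    obtain ⟨t, ht, r, hr, ha, hb⟩ := exists_polar (inner ℝ (fu z) x) (inner ℝ (fv z) x)
    have hxr : x = r • fu (z * rot qK t) := by
      rw [fu_rotK, smul_add, smul_smul, smul_smul, ← ha, ← hb]
      exact hex
    have hr0 : 0 < r := by
      rcases hr.lt_or_eq with h' | h'
      · exact h'
      · exfalso
        rw [← h', zero_smul] at hxr
        have h0 : Φ 0 = 0 := by
          have := h.hom 2 0 (by norm_num)
          rw [smul_zero] at this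
          linarith
        rw [hxr, h0] at hx1
        exact zero_ne_one hx1
    refine ⟨t, ht, ?_⟩
    have h1 : r * gq Φ (z * rot qK t) = 1 := by
      rw [hxr, h.hom _ _ hr0] at hx1
      exact hx1
    unfold bcurve
    rw [hxr, ← eq_inv_of_mul_eq_one_left h1]

theorem injOn_bcurve (h : IsGauge Φ) {z : ℍ} (hz : z ≠ 0) :
    InjOn (bcurve Φ z) (Ico (0:ℝ) (2 * π)) := by
  intro s hs t ht hst
  have hns := mul_rot_ne_zero isImUnit_K hz s
  have hnt := mul_rot_ne_zero isImUnit_K hz t
  have qs := gq_pos h hns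
  have qt := gq_pos h hnt
  have hn : (gq Φ (z * rot qK s))⁻¹ = (gq Φ (z * rot qK t))⁻¹ := by
    have := congrArg norm hst
    unfold bcurve at this
    rwa [norm_smul, norm_smul, norm_fu hns, norm_fu hnt, mul_one, mul_one,
      Real.norm_of_nonneg (inv_nonneg.2 qs.le), Real.norm_of_nonneg (inv_nonneg.2 qt.le)] at this
  have hu : fu (z * rot qK s) = fu (z * rot qK t) := by
    unfold bcurve at hst
    rw [hn] at hst
    exact smul_right_injective E3 (inv_ne_zero qt.ne') hst
  rw [fu_rotK, fu_rotK] at hu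
  have hcos : Real.cos s = Real.cos t := by
    have := congrArg (fun x => (inner ℝ (fu z) x : ℝ)) hu
    simp only [inner_add_right, inner_smul_right, inner_fu_fv hz, real_inner_self_eq_norm_sq,
      norm_fu hz] at this
    linarith
  have hsin : Real.sin s = Real.sin t := by
    have := congrArg (fun x => (inner ℝ (fv z) x : ℝ)) hu
    simp only [inner_add_right, inner_smul_right, real_inner_comm (fu z) (fv z), inner_fu_fv hz,
      real_inner_self_eq_norm_sq, norm_fv hz] at this
    linarith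
  have hang : (s : Real.Angle) = (t : Real.Angle) := Real.Angle.cos_sin_inj hcos hsin
  rw [Real.Angle.angle_eq_iff_two_pi_dvd_sub] at hang
  obtain ⟨k, hk⟩ := hang
  have hpi := Real.pi_pos
  have k1 : (k:ℝ) < 1 := by
    by_contra hcon
    rw [not_lt] at hcon
    nlinarith [hs.2, ht.1]
  have k2 : (-1:ℝ) < k := by
    by_contra hcon
    rw [not_lt] at hcon
    nlinarith [hs.1, ht.2]
  have k3 : k = 0 := by
    have a1 : k < 1 := by exact_mod_cast k1
    have a2 : -1 < k := by exact_mod_cast k2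
    omega
  rw [k3] at hk
  simp at hk
  linarith

theorem len_K (h : IsGauge Φ) (x : ℍ) : len Φ (x * qK) = len Φ x := by
  rw [len, gq_K h, gp_K h]; rfl

theorem integral_len (h : IsGauge Φ) {z : ℍ} (hz : z ≠ 0) :
    ∫ t in (0:ℝ)..(2 * π), len Φ (z * rot qK t) = 2 * hper Φ z := by
  have c := continuous_comp_rot isImUnit_K (continuousOn_len h) hz
  have hp : Function.Periodic (fun t => len Φ (z * rot qK t)) π := by
    intro t
    simp only
    rw [rot_add isImUnit_K, rot_pi, ← mul_assoc, len_K h]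
  have h1 : (∫ t in (0:ℝ)..(2 * π), len Φ (z * rot qK t))
      = (∫ t in (0:ℝ)..π, len Φ (z * rot qK t)) + ∫ t in π..(2 * π), len Φ (z * rot qK t) :=
    (intervalIntegral.integral_add_adjacent_intervals (c.intervalIntegrable _ _)
      (c.intervalIntegrable _ _)).symm
  have h2 : (∫ t in π..(2 * π), len Φ (z * rot qK t)) = ∫ t in (0:ℝ)..π, len Φ (z * rot qK t) := by
    have := hp.intervalIntegral_add_eq π 0
    rwa [zero_add, ← two_mul] at this
  rw [h1, h2, hper, two_mul]

/-- **Perimeter formula.** -/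
theorem hausdorff_section (h : IsGauge Φ) {z : ℍ} (hz : z ≠ 0) :
    μH[1] {x : E3 | inner ℝ x (fe z) = (0:ℝ) ∧ Φ x = 1} = ENNReal.ofReal (2 * hper Φ z) := by
  rw [← image_bcurve h hz, hausdorff_curve (hasDerivAt_bcurve h hz) (continuous_bcurve' h hz)
    (by positivity) (injOn_bcurve h hz), ← integral_len h hz]
  congr 1
  apply intervalIntegral.integral_congr
  intro t _
  exact norm_bcurve' h hz t

theorem hper_nonneg (z : ℍ) : 0 ≤ hper Φ z := by
  unfold hper
  apply intervalIntegral.integral_nonneg Real.pi_pos.le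
  intro t _
  exact div_nonneg (sN_nonneg _ _) (by positivity)

end

/-- zero is interior to a symmetric convex body -/
theorem zero_mem_nhds_body {K : Set E3} (hc : Convex ℝ K) (hi : (interior K).Nonempty)
    (hs : ∀ x ∈ K, -x ∈ K) : K ∈ 𝓝 (0:E3) := by
  obtain ⟨x, hx⟩ := hi
  have hsymm : -K = K := by
    ext y
    rw [Set.mem_neg]
    exact ⟨fun h => by simpa using hs _ h, fun h => hs _ h⟩
  have hx' : -x ∈ interior K := by
    have h1 : -x ∈ -interior K := by simpa using hx
    have h2 : -interior K ⊆ interior K := by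
      apply interior_maximal
      · intro y hy
        have : -y ∈ K := interior_subset hy
        simpa using hs _ this
      · exact isOpen_interior.neg
    exact h2 h1
  have h3 : (0:E3) ∈ interior K := by
    have := hc.interior hx hx' (show (0:ℝ) ≤ 1/2 by norm_num) (show (0:ℝ) ≤ 1/2 by norm_num)
      (by norm_num)
    simpa using this
  exact mem_interior_iff_mem_nhds.1 h3

theorem isGauge_gauge {K : Set E3} (hK : IsCompact K) (hc : Convex ℝ K)
    (hi : (interior K).Nonempty) (hs : ∀ x ∈ K, -x ∈ K)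
    (hsm : ContDiffOn ℝ 2 (gauge K) {0}ᶜ) : IsGauge (gauge K) where
  smooth := hsm
  pos x hx := (gauge_pos (absorbent_nhds_zero (zero_mem_nhds_body hc hi hs))
    (hK.isVonNBounded ℝ)).2 hx
  even x := gauge_neg hs x
  hom t x ht := gauge_smul_of_nonneg ht.le x

end Pool.Agent.MP85963d
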